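import Pool.Agent.Lib.MTR.Defs
import Pool.Agent.Lib.MT.LayA

/-!
# MTR-Dsum: sums over a family `D` of finite sets of primes with bounded product

PROOF. `dcard`: `d ↦ ∏ q ∈ d, q` is injective on finite sets of primes (`Nat.primeFactors_prod`) with values in `Icc 1 Y`; `2 ^ |d| ≤ ∏ q`. `dsum`: every `q ∈ d ∈ D` is a prime `≤ X` (it divides the product), so
`∑_{d ∈ D} ∏_{q ∈ d} f q ≤ ∑_{d ⊆ PP 0 X} ∏_{q ∈ d} K/q = ∏_{q ∈ PP 0 X} (1 + K/q)` (`Finset.prod_one_add`), and `layA_prod` (a product over the subtype: `Finset.prod_coe_sort`).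
`dnum`: `|d| log 2 ≤ log X`.
-/

set_option autoImplicit false

open Finset

namespace Pool.Agent.Lib.MTR

open Pool.Agent.Lib.MT

theorem dcard (D : Finset (Finset ℕ)) (Y : ℕ) (hD : ∀ d ∈ D, ∀ q ∈ d, q.Prime) (hY : ∀ d ∈ D, ∏ q ∈ d, q ≤ Y) :
    D.card ≤ Y ∧ ∀ d ∈ D, 2 ^ d.card ≤ Y := by
  classical
  constructor
  · have h1 : D.card ≤ (Finset.Icc 1 Y).card := by
      refine card_le_card_of_injOn (fun d => ∏ q ∈ d, q) ?_ ?_
      · intro d hd
        rw [mem_coe] at hd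
        rw [mem_coe, mem_Icc]
        exact ⟨Finset.prod_pos fun q hq => (hD d hd q hq).pos, hY d hd⟩
      · intro d hd d' hd' h
        rw [mem_coe] at hd hd'
        have e1 := Nat.primeFactors_prod (hD d hd)
        have e2 := Nat.primeFactors_prod (hD d' hd')
        have h' : ∏ q ∈ d, q = ∏ q ∈ d', q := h
        rw [← e1, ← e2, h']
    rw [Nat.card_Icc, Nat.add_sub_cancel] at h1
    exact h1
  · intro d hd
    refine le_trans ?_ (hY d hd)
    rw [← Finset.prod_const]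
    exact Finset.prod_le_prod (fun _ _ => Nat.zero_le _) (fun q hq => (hD d hd q hq).two_le)

theorem dnum (D : Finset (Finset ℕ)) (X : ℕ) (hX : 1 ≤ X) (hD : ∀ d ∈ D, ∀ q ∈ d, q.Prime)
    (hY : ∀ d ∈ D, ∏ q ∈ d, q ≤ X) : ∀ d ∈ D, (d.card : ℝ) ≤ 2 * Real.log X := by
  intro d hd
  have h1 := (dcard D X hD hY).2 d hd
  have hX0 : (0 : ℝ) < X := by exact_mod_cast hX
  have h2 : ((2 : ℝ)) ^ d.card ≤ X := by exact_mod_cast h1
  have h3 := Real.log_le_log (by positivity) h2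
  rw [Real.log_pow] at h3
  have h4 : (1 : ℝ) / 2 ≤ Real.log 2 := by
    have := Real.log_two_gt_d9
    linarith
  have h5 : (0 : ℝ) ≤ d.card := Nat.cast_nonneg _
  nlinarith

theorem dsum (K : ℕ) : ∃ C : ℝ, 1 ≤ C ∧ ∀ (X : ℕ) (D : Finset (Finset ℕ)) (f : ℕ → ℝ), 3 ≤ X →
    (∀ d ∈ D, ∀ q ∈ d, q.Prime) → (∀ d ∈ D, ∏ q ∈ d, q ≤ X) →
    (∀ d ∈ D, ∀ q ∈ d, 0 ≤ f q ∧ f q ≤ (K : ℝ) / q) →
    ∑ d ∈ D, ∏ q ∈ d, f q ≤ (C * Real.log X) ^ K := by
  classical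
  obtain ⟨C, hC, h⟩ := layA_prod K
  refine ⟨C, hC, fun X D f hX hD hY hf => ?_⟩
  refine le_trans ?_ (h X 0 X hX le_rfl)
  rw [Finset.prod_coe_sort (PP 0 X) (fun p => 1 + (K : ℝ) / (p : ℝ)), Finset.prod_one_add]
  calc ∑ d ∈ D, ∏ q ∈ d, f q ≤ ∑ d ∈ D, ∏ q ∈ d, (K : ℝ) / q :=
        Finset.sum_le_sum fun d hd => Finset.prod_le_prod (fun q hq => (hf d hd q hq).1)
          (fun q hq => (hf d hd q hq).2)
    _ ≤ ∑ d ∈ (PP 0 X).powerset, ∏ q ∈ d, (K : ℝ) / q := by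
        refine Finset.sum_le_sum_of_subset_of_nonneg ?_ (fun d _ _ => by positivity)
        intro d hd
        rw [Finset.mem_powerset]
        intro q hq
        unfold PP
        rw [mem_filter, mem_range]
        have hp := hD d hd q hq
        refine ⟨?_, hp, hp.pos⟩
        have h1 : q ∣ ∏ q ∈ d, q := Finset.dvd_prod_of_mem _ hq
        have h2 : 0 < ∏ q ∈ d, q := Finset.prod_pos fun q hq => (hD d hd q hq).pos
        have h3 := Nat.le_of_dvd h2 h1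
        have h4 := hY d hd
        omega

end Pool.Agent.Lib.MTR
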