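import Pool.Agent.Lib.MTR.Defs
import Pool.Agent.Lib.MT.LayA

/-!
# MTR-Wlow: the product of the densities

PROOF. `d1 Ω q ≤ k/q ≤ 1/2`, `d2 Ω q ≤ 2k/q`. First part: `(1 - k/q)(1 + 2k/q) ≥ 1` (`q ≥ 2k`), so `∏ (1 - d1) ≥ ∏_{q ∈ Q} (1 + 2k/q)⁻¹ ≥ (∏_{q ∈ PP z X} (1 + 2k/q))⁻¹ ≥ (C log X)^(-2k)` (`layA_prod (2k)`, `Finset.prod_coe_sort`),
`(C log X)^(2k) ≤ (log X)^(4k)` for large `X`. Second part: `1 - c/(q-1) ≥ (1 - c/q)(1 - 2c/(q(q-1)))` (`c = |Ω q| ≤ k`, `1 - c/q ≥ 1/2`), and `∏ (1 - 2k/(q(q-1))) ≥ 1 - ∑_{q > z} 2k/(q(q-1)) ≥ 1 - 2k/z ≥ 1/2`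
(`∑_{q = z+1}^{n} 1/(q(q-1)) = 1/z - 1/n`).
-/

set_option autoImplicit false

open Finset

namespace Pool.Agent.Lib.MTR

open Pool.Agent.Lib.MT

private theorem wlow_mem {z y q : ℕ} (hq : q ∈ PP z y) : q.Prime ∧ z < q ∧ q ≤ y := by
  unfold PP at hq
  rw [mem_filter, mem_range] at hq
  exact ⟨hq.2.1, hq.2.2, by omega⟩

private theorem wlow_prod (s : Finset ℕ) (a : ℕ → ℝ) (h0 : ∀ q ∈ s, 0 ≤ a q) (h1 : ∀ q ∈ s, a q ≤ 1) :
    1 - ∑ q ∈ s, a q ≤ ∏ q ∈ s, (1 - a q) ∧ ∏ q ∈ s, (1 - a q) ≤ 1 := by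
  classical
  induction s using Finset.induction_on with
  | empty => simp
  | insert q s hq ih =>
    obtain ⟨h2, h3⟩ := ih (fun p hp => h0 p (mem_insert_of_mem hp))
      (fun p hp => h1 p (mem_insert_of_mem hp))
    have h4 := h0 q (mem_insert_self q s)
    have h5 := h1 q (mem_insert_self q s)
    have h6 : 0 ≤ ∏ q ∈ s, (1 - a q) :=
      prod_nonneg fun p hp => by linarith [h1 p (mem_insert_of_mem hp)]
    rw [sum_insert hq, prod_insert hq]
    constructor
    · nlinarith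
    · nlinarith

private theorem wlow_tele (z n : ℕ) (hz : 1 ≤ z) :
    ∑ q ∈ (range (n + 1)).filter (fun q => z < q), 1 / ((q : ℝ) * (q - 1)) ≤ 1 / z - 1 / (max z n : ℕ) := by
  induction n with
  | zero =>
    have h1 : (range (0 + 1)).filter (fun q => z < q) = ∅ := by
      ext q
      simp only [mem_filter, mem_range, notMem_empty, iff_false]
      omega
    rw [h1, sum_empty]
    have h2 : max z 0 = z := by omega
    rw [h2]
    simp
  | succ n ih =>
    rw [range_add_one, filter_insert]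
    split_ifs with h
    · rw [sum_insert (by simp)]
      have h1 : max z (n + 1) = n + 1 := by omega
      have h2 : max z n = n := by omega
      rw [h1]
      rw [h2] at ih
      have hn : (0 : ℝ) < n := by
        have : 0 < n := by omega
        exact_mod_cast this
      have h3 : 1 / (((n + 1 : ℕ) : ℝ) * (((n + 1 : ℕ) : ℝ) - 1)) = 1 / (n : ℝ) - 1 / ((n + 1 : ℕ) : ℝ) := by
        push_cast
        have h4 : ((n : ℝ) + 1) ≠ 0 := by positivity
        have h5 : (n : ℝ) + 1 - 1 = n := by ring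
        rw [h5]
        field_simp
        ring
      linarith
    · have h1 : max z (n + 1) = max z n := by omega
      rw [h1]
      exact ih

theorem wlow (k : ℕ) : ∃ C X₀ : ℕ, ∀ X z y : ℕ, X₀ ≤ X → 4 * k + 4 ≤ z → y ≤ X → ∀ Q ⊆ PP z y,
    ∀ Ω : ℕ → Finset ℕ, (∀ q ∈ Q, (Ω q).card ≤ k) →
    1 / (Real.log X) ^ C ≤ ∏ q ∈ Q, (1 - d1 Ω q) ∧
    1 / 2 * ∏ q ∈ Q, (1 - d1 Ω q) ≤ ∏ q ∈ Q, (1 - d2 Ω q) := by
  classical
  obtain ⟨C, hC1, hC⟩ := layA_prod (2 * k)
  obtain ⟨X₁, hX₁⟩ : ∃ X₁ : ℕ, ∀ X : ℕ, X₁ ≤ X → C ≤ Real.log X := by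
    refine ⟨⌈Real.exp C⌉₊, fun X hX => ?_⟩
    have h1 : Real.exp C ≤ X := (Nat.le_ceil _).trans (by exact_mod_cast hX)
    exact (Real.le_log_iff_exp_le ((Real.exp_pos _).trans_le h1)).2 h1
  refine ⟨4 * k, max X₁ 3, fun X z y hX hz hy Q hQ Ω hΩ => ?_⟩
  have hX3 : 3 ≤ X := (le_max_right _ _).trans hX
  have hXC := hX₁ X ((le_max_left _ _).trans hX)
  have hlog : 0 < Real.log X := lt_of_lt_of_le (by linarith) hXC
  have key : ∀ q ∈ Q, 0 ≤ (k : ℝ) / q ∧ (k : ℝ) / q ≤ 1 / 4 ∧ 0 ≤ d1 Ω q ∧ d1 Ω q ≤ (k : ℝ) / q ∧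
      (5 : ℝ) ≤ q ∧ q.Prime ∧ z < q ∧ q ≤ y := by
    intro q hq
    obtain ⟨h1, h2, h3⟩ := wlow_mem (hQ hq)
    have h4 : 4 * k + 5 ≤ q := by omega
    have h5 : (4 : ℝ) * k + 5 ≤ q := by exact_mod_cast h4
    have hk0 : (0 : ℝ) ≤ k := Nat.cast_nonneg k
    have hq0 : (0 : ℝ) < q := by linarith
    refine ⟨by positivity, ?_, ?_, ?_, by linarith, h1, h2, h3⟩
    · rw [div_le_iff₀ hq0]
      linarith
    · unfold d1
      positivity
    · unfold d1
      refine div_le_div_of_nonneg_right ?_ hq0.le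
      exact_mod_cast hΩ q hq
  constructor
  · have h1 : (∏ q ∈ Q, (1 + ((2 * k : ℕ) : ℝ) / q))⁻¹ ≤ ∏ q ∈ Q, (1 - d1 Ω q) := by
      rw [← prod_inv_distrib]
      refine prod_le_prod (fun q hq => ?_) fun q hq => ?_
      · have := (key q hq).1
        have h2 : (0 : ℝ) ≤ ((2 * k : ℕ) : ℝ) / q := by positivity
        positivity
      · obtain ⟨a1, a2, a3, a4, a5, -⟩ := key q hq
        have h2 : ((2 * k : ℕ) : ℝ) / q = 2 * ((k : ℝ) / q) := by
          push_cast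
          ring
        rw [h2]
        have h3 : (0 : ℝ) < 1 + 2 * ((k : ℝ) / q) := by linarith
        rw [inv_le_iff_one_le_mul₀ h3]
        nlinarith
    have h2 : ∏ q ∈ Q, (1 + ((2 * k : ℕ) : ℝ) / q) ≤ ∏ q ∈ PP z X, (1 + ((2 * k : ℕ) : ℝ) / q) := by
      refine prod_le_prod_of_subset_of_one_le ?_ (fun q _ => by positivity) fun q _ _ => ?_
      · intro q hq
        obtain ⟨h3, h4, h5⟩ := wlow_mem (hQ hq)
        unfold PP
        rw [mem_filter, mem_range]
        exact ⟨by omega, h3, h4⟩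
      · have : (0 : ℝ) ≤ ((2 * k : ℕ) : ℝ) / q := by positivity
        linarith
    have h3 := hC X z X hX3 le_rfl
    rw [Finset.prod_coe_sort (PP z X) (fun p => 1 + ((2 * k : ℕ) : ℝ) / (p : ℝ))] at h3
    have h4 : (C * Real.log X) ^ (2 * k) ≤ (Real.log X) ^ (4 * k) := by
      have h5 : C * Real.log X ≤ (Real.log X) ^ 2 := by
        rw [sq]
        exact mul_le_mul_of_nonneg_right hXC hlog.le
      calc (C * Real.log X) ^ (2 * k) ≤ ((Real.log X) ^ 2) ^ (2 * k) :=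
            pow_le_pow_left₀ (by positivity) h5 _
        _ = (Real.log X) ^ (4 * k) := by
            rw [← pow_mul]
            congr 1
            ring
    have h5 : (0 : ℝ) < ∏ q ∈ Q, (1 + ((2 * k : ℕ) : ℝ) / q) := prod_pos fun q _ => by positivity
    refine le_trans ?_ h1
    rw [one_div]
    exact inv_anti₀ h5 (h2.trans (h3.trans h4))
  · have h1 : ∏ q ∈ Q, ((1 - d1 Ω q) * (1 - 2 * k / ((q : ℝ) * (q - 1)))) ≤ ∏ q ∈ Q, (1 - d2 Ω q) := by
      refine prod_le_prod (fun q hq => ?_) fun q hq => ?_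
      · obtain ⟨a1, a2, a3, a4, a5, a6, a7, a8⟩ := key q hq
        refine mul_nonneg (by linarith) ?_
        have hq0 : (0 : ℝ) < q := by linarith
        have h2 : (0 : ℝ) < (q : ℝ) * (q - 1) := mul_pos hq0 (by linarith)
        rw [sub_nonneg, div_le_one h2]
        rw [div_le_iff₀ hq0] at a2
        nlinarith
      · obtain ⟨a1, a2, a3, a4, a5, a6, a7, a8⟩ := key q hq
        have hq0 : (0 : ℝ) < q := by linarith
        have hq1 : (0 : ℝ) < (q : ℝ) - 1 := by linarith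
        have hc : ((Ω q).card : ℝ) ≤ k := by exact_mod_cast hΩ q hq
        have e1 : d2 Ω q = d1 Ω q + (Ω q).card / ((q : ℝ) * (q - 1)) := by
          unfold d1 d2
          field_simp
          ring
        have e2 : (2 : ℝ) * k / ((q : ℝ) * (q - 1)) = 2 * (k / ((q : ℝ) * (q - 1))) := by ring
        have e3 : ((Ω q).card : ℝ) / ((q : ℝ) * (q - 1)) ≤ k / ((q : ℝ) * (q - 1)) :=
          div_le_div_of_nonneg_right hc (by positivity)
        have e4 : (0 : ℝ) ≤ k / ((q : ℝ) * (q - 1)) := by positivity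
        rw [e1, e2]
        nlinarith
    rw [prod_mul_distrib] at h1
    have h2 : (1 : ℝ) / 2 ≤ ∏ q ∈ Q, (1 - 2 * k / ((q : ℝ) * (q - 1))) := by
      have h3 := (wlow_prod Q (fun q => 2 * k / ((q : ℝ) * (q - 1))) ?_ ?_).1
      · refine le_trans ?_ h3
        have h4 : ∑ q ∈ Q, 2 * k / ((q : ℝ) * (q - 1)) ≤
            2 * k * ∑ q ∈ (range (y + 1)).filter (fun q => z < q), 1 / ((q : ℝ) * (q - 1)) := by
          rw [mul_sum]
          have h5 : Q ⊆ (range (y + 1)).filter (fun q => z < q) := by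
            intro q hq
            obtain ⟨a1, a2, a3, a4, a5, a6, a7, a8⟩ := key q hq
            rw [mem_filter, mem_range]
            exact ⟨by omega, a7⟩
          have h6 : ∀ q : ℕ, 2 * (k : ℝ) / ((q : ℝ) * (q - 1)) = 2 * k * (1 / ((q : ℝ) * (q - 1))) := by
            intro q
            ring
          rw [sum_congr rfl fun q _ => h6 q]
          refine sum_le_sum_of_subset_of_nonneg h5 fun q hq _ => ?_
          rw [mem_filter] at hq
          have h7 : (1 : ℝ) ≤ q := by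
            have : 1 ≤ q := by omega
            exact_mod_cast this
          have h8 : (0 : ℝ) ≤ (q : ℝ) - 1 := by linarith
          positivity
        have h5 := wlow_tele z y (by omega)
        have hz4 : (4 : ℝ) * k + 4 ≤ z := by exact_mod_cast hz
        have hk0 : (0 : ℝ) ≤ k := Nat.cast_nonneg k
        have hz0 : (0 : ℝ) < z := by linarith
        have h6 : (0 : ℝ) ≤ 1 / (max z y : ℕ) := by positivity
        have h7 : 2 * (k : ℝ) * (∑ q ∈ (range (y + 1)).filter (fun q => z < q), 1 / ((q : ℝ) * (q - 1))) ≤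
            2 * k * (1 / z) := mul_le_mul_of_nonneg_left (by linarith) (by positivity)
        have h8 : 2 * (k : ℝ) * (1 / z) ≤ 1 / 2 := by
          rw [mul_one_div, div_le_iff₀ hz0]
          linarith
        linarith
      · intro q hq
        obtain ⟨a1, a2, a3, a4, a5, a6, a7, a8⟩ := key q hq
        have hq0 : (0 : ℝ) < q := by linarith
        have hq1 : (0 : ℝ) < (q : ℝ) - 1 := by linarith
        positivity
      · intro q hq
        obtain ⟨a1, a2, a3, a4, a5, a6, a7, a8⟩ := key q hq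
        have hq0 : (0 : ℝ) < q := by linarith
        have hq1 : (0 : ℝ) < (q : ℝ) - 1 := by linarith
        show 2 * (k : ℝ) / ((q : ℝ) * (q - 1)) ≤ 1
        rw [div_le_one (by positivity)]
        rw [div_le_iff₀ hq0] at a2
        nlinarith
    have h3 : 0 ≤ ∏ q ∈ Q, (1 - d1 Ω q) := by
      refine prod_nonneg fun q hq => ?_
      obtain ⟨a1, a2, a3, a4, -⟩ := key q hq
      linarith
    calc 1 / 2 * ∏ q ∈ Q, (1 - d1 Ω q) = (∏ q ∈ Q, (1 - d1 Ω q)) * (1 / 2) := by ring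
      _ ≤ (∏ q ∈ Q, (1 - d1 Ω q)) * ∏ q ∈ Q, (1 - 2 * k / ((q : ℝ) * (q - 1))) :=
          mul_le_mul_of_nonneg_left h2 h3
      _ ≤ _ := h1

end Pool.Agent.Lib.MTR
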