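import Pool.Agent.Lib.MTR.Mnt

/-!
# MTR-FL: the fundamental lemma of the sieve of dimension `k` (Brun-Hooley weights)
-/

set_option autoImplicit false

open Finset

namespace Pool.Agent.Lib.MTR

open Pool.Agent.Lib.GT Pool.Agent.Lib.RG Pool.Agent.Lib.MP_f75418_nt

/-- the weight of the set `d`: the sum of the weights of the families with union `d` -/
noncomputable def lamf (y b : ℕ) (Q : Finset ℕ) (w : (Fin (NJ y) → Finset ℕ) → ℝ) (d : Finset ℕ) : ℝ :=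
  ∑ E ∈ fa y b Q with un E = d, w E

theorem lamf_push (y b : ℕ) (Q : Finset ℕ) (w : (Fin (NJ y) → Finset ℕ) → ℝ) (g : Finset ℕ → ℝ) :
    ∑ d ∈ (fa y b Q).image un, lamf y b Q w d * g d = ∑ E ∈ fa y b Q, w E * g (un E) := by
  classical
  rw [← Finset.sum_fiberwise_of_maps_to (s := fa y b Q) (t := (fa y b Q).image un) (g := un)
    (fun E hE => Finset.mem_image_of_mem _ hE)]
  refine Finset.sum_congr rfl fun d _ => ?_
  rw [lamf, Finset.sum_mul]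
  refine Finset.sum_congr rfl fun E hE => ?_
  rw [(mem_filter.mp hE).2]

theorem un_inj {z b : ℕ} {P : Finset ℕ} (hP : ∀ r ∈ P, r.Prime ∧ r ≤ z) :
    Set.InjOn (un : (Fin (NJ z) → Finset ℕ) → Finset ℕ) (fa z b P) := by
  intro E hE E' hE' h
  refine ee_inj hP hE hE' ?_
  unfold ee
  rw [h]

theorem abs_lamf_le {y b : ℕ} {Q : Finset ℕ} (hP : ∀ r ∈ Q, r.Prime ∧ r ≤ y)
    (w : (Fin (NJ y) → Finset ℕ) → ℝ) (B : ℝ) (hB : 0 ≤ B) (hw : ∀ E, |w E| ≤ B) (d : Finset ℕ) :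
    |lamf y b Q w d| ≤ B := by
  classical
  unfold lamf
  by_cases hd : ∃ E ∈ fa y b Q, un E = d
  · obtain ⟨E, hE, rfl⟩ := hd
    have h1 : (fa y b Q).filter (fun E' => un E' = un E) = {E} := by
      ext E'
      rw [mem_filter, mem_singleton]
      constructor
      · rintro ⟨h2, h3⟩
        exact un_inj hP (mem_coe.mpr h2) (mem_coe.mpr hE) h3
      · rintro rfl
        exact ⟨hE, rfl⟩
    rw [h1, sum_singleton]
    exact hw E
  · have h1 : (fa y b Q).filter (fun E' => un E' = d) = ∅ := by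
      rw [Finset.filter_eq_empty_iff]
      intro E' hE' h2
      exact hd ⟨E', hE', h2⟩
    rw [h1, sum_empty, abs_zero]
    exact hB

/-- the pointwise value of the weights -/
theorem Lm_lamf {y b : ℕ} {Q : Finset ℕ} (hP : ∀ r ∈ Q, r.Prime ∧ r ≤ y)
    (w : (Fin (NJ y) → Finset ℕ) → ℝ) (Ω : ℕ → Finset ℕ) (x : ℕ) :
    Lm ((fa y b Q).image un) (lamf y b Q w) Ω x =
      ∑ E ∈ fa y b Q, w E * (if ee E ∣ ∏ q ∈ Q with x % q ∈ Ω q, q then 1 else 0) := by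
  classical
  unfold Lm
  rw [lamf_push y b Q w (fun d => if ∀ q ∈ d, x % q ∈ Ω q then 1 else 0)]
  refine Finset.sum_congr rfl fun E hE => ?_
  congr 1
  have hEQ := un_sub E hE
  have h1 : (ee E ∣ ∏ q ∈ Q with x % q ∈ Ω q, q) ↔ ∀ q ∈ un E, x % q ∈ Ω q := by
    constructor
    · intro h q hq
      have hqp := (hP q (hEQ hq)).1
      have h2 : q ∣ ∏ q ∈ Q with x % q ∈ Ω q, q :=
        dvd_trans (Finset.dvd_prod_of_mem _ hq) h
      rw [hqp.prime.dvd_finsetProd_iff] at h2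
      obtain ⟨r, hr, hqr⟩ := h2
      rw [mem_filter] at hr
      have h3 := (Nat.prime_dvd_prime_iff_eq hqp (hP r hr.1).1).mp hqr
      rw [h3]
      exact hr.2
    · intro h
      refine Finset.prod_dvd_prod_of_subset _ _ _ fun q hq => ?_
      rw [mem_filter]
      exact ⟨hEQ hq, h q hq⟩
  by_cases h : ee E ∣ ∏ q ∈ Q with x % q ∈ Ω q, q
  · rw [if_pos h, if_pos (h1.mp h)]
  · rw [if_neg h, if_neg (fun h2 => h (h1.mpr h2))]

theorem ind_iff {y : ℕ} {Q : Finset ℕ} (hP : ∀ r ∈ Q, r.Prime ∧ r ≤ y) (Ω : ℕ → Finset ℕ) (x : ℕ) :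
    (∀ q ∈ Q, x % q ∉ Ω q) ↔ ∀ q ∈ Q, ¬ q ∣ ∏ q ∈ Q with x % q ∈ Ω q, q := by
  classical
  constructor
  · intro h q hq hd
    rw [(hP q hq).1.prime.dvd_finsetProd_iff] at hd
    obtain ⟨r, hr, hqr⟩ := hd
    rw [mem_filter] at hr
    exact h r hr.1 hr.2
  · intro h q hq hx
    exact h q hq (Finset.dvd_prod_of_mem _ (mem_filter.mpr ⟨hq, hx⟩))

theorem fl (k : ℕ) : ∃ s : ℕ, 1 ≤ s ∧ ∀ y : ℕ, 2 ≤ y → ∀ Q : Finset ℕ,
    (∀ q ∈ Q, q.Prime ∧ 4 * k ≤ q ∧ q ≤ y) →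
    ∃ (D : Finset (Finset ℕ)) (cp cn : Finset ℕ → ℝ),
      (∀ d ∈ D, d ⊆ Q ∧ ∏ q ∈ d, q ≤ y ^ s) ∧
      (∀ d ∈ D, |cp d| ≤ 2 + 2 * Real.log y ∧ |cn d| ≤ 2 + 2 * Real.log y) ∧
      (∀ (Ω : ℕ → Finset ℕ) (x : ℕ), (if ∀ q ∈ Q, x % q ∉ Ω q then (1 : ℝ) else 0) ≤ Lm D cp Ω x ∧
        Lm D cn Ω x ≤ if ∀ q ∈ Q, x % q ∉ Ω q then (1 : ℝ) else 0) ∧
      ∀ g : ℕ → ℝ, (∀ q ∈ Q, 0 ≤ g q ∧ g q ≤ 2 * k / q) →
        0 ≤ Gm D cp g ∧ Gm D cp g ≤ 2 * ∏ q ∈ Q, (1 - g q) ∧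
        1 / 2 * ∏ q ∈ Q, (1 - g q) ≤ Gm D cn g := by
  classical
  have hlim : Filter.Tendsto (fun b : ℕ => kk k * Real.exp (kk k) * (1 / 2 : ℝ) ^ b) Filter.atTop
      (nhds (kk k * Real.exp (kk k) * 0)) :=
    (tendsto_pow_atTop_nhds_zero_of_lt_one (by norm_num) (by norm_num)).const_mul _
  rw [mul_zero] at hlim
  obtain ⟨b, hb, hb1⟩ : ∃ b : ℕ, kk k * Real.exp (kk k) * (1 / 2 : ℝ) ^ b ≤ 1 / 2 ∧ 1 ≤ b := by
    have h1 := (hlim.eventually (Iic_mem_nhds (by norm_num : (0 : ℝ) < 1 / 2))).and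
      (Filter.eventually_ge_atTop 1)
    exact h1.exists
  have hkk : 0 < kk k := Real.exp_pos _
  have hb2 : Real.exp (kk k * (1 / 2) ^ b) ≤ 2 := by
    have h1 : (1 : ℝ) ≤ Real.exp (kk k) := Real.one_le_exp hkk.le
    have h2 : (0 : ℝ) < (1 / 2) ^ b := by positivity
    have h3 : kk k * (1 / 2) ^ b ≤ 1 / 2 := by
      have h4 : kk k * (1 / 2) ^ b ≤ kk k * Real.exp (kk k) * (1 / 2) ^ b := by
        refine mul_le_mul_of_nonneg_right ?_ h2.le
        nlinarith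
      linarith
    have h5 : Real.exp (1 / 2) ≤ 2 := by
      have h6 : Real.exp (1 / 2) * Real.exp (1 / 2) = Real.exp 1 := by
        rw [← Real.exp_add]
        norm_num
      have h7 := Real.exp_one_lt_d9
      have h8 := Real.exp_pos (1 / 2)
      nlinarith
    exact (Real.exp_le_exp.mpr h3).trans h5
  refine ⟨12 * b, by omega, ?_⟩
  intro y hy Q hQ
  have hP : ∀ r ∈ Q, r.Prime ∧ r ≤ y := fun r hr => ⟨(hQ r hr).1, (hQ r hr).2.2⟩
  have hlog : (1 : ℝ) + NJ y ≤ 2 + 2 * Real.log y := NJ_le_log y hy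
  have hgm : ∀ (w : (Fin (NJ y) → Finset ℕ) → ℝ) (g : ℕ → ℝ),
      Gm ((fa y b Q).image un) (lamf y b Q w) g = ∑ E ∈ fa y b Q, w E * ∏ q ∈ un E, g q := by
    intro w g
    unfold Gm
    exact lamf_push y b Q w (fun d => ∏ q ∈ d, g q)
  refine ⟨(fa y b Q).image un, lamf y b Q (fun E => ∏ j : Fin (NJ y), cm b j (E j)),
    lamf y b Q (ww b), ?_, ?_, ?_, ?_⟩
  · intro d hd
    rw [mem_image] at hd
    obtain ⟨E, hE, rfl⟩ := hd
    refine ⟨un_sub E hE, ?_⟩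
    have h1 := prod_un_le hP hy hb1 E hE
    exact_mod_cast h1
  · intro d _
    constructor
    · refine le_trans ?_ hlog
      refine abs_lamf_le hP _ _ (by positivity) (fun E => ?_) d
      have h1 : |∏ j : Fin (NJ y), cm b j (E j)| ≤ 1 := by
        rw [Finset.abs_prod]
        exact Finset.prod_le_one (fun _ _ => abs_nonneg _) (fun j _ => abs_cm_le b j _)
      have h2 : (0 : ℝ) ≤ NJ y := Nat.cast_nonneg _
      linarith
    · refine le_trans ?_ hlog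
      exact abs_lamf_le hP _ _ (by positivity) (fun E => abs_ww_le E) d
  · intro Ω x
    have hind := ind_iff hP Ω x
    constructor
    · rw [Lm_lamf hP]
      have h1 := expand_pt (b := b) hP (fun j d => cm b j d) (∏ q ∈ Q with x % q ∈ Ω q, q)
      have h2 := prod_Xf hP Om (∏ q ∈ Q with x % q ∈ Ω q, q)
      simp only [mem_Om] at h2
      have h3 : ∏ j : Fin (NJ y), Xf y Q Om j (∏ q ∈ Q with x % q ∈ Ω q, q) ≤
          ∏ j : Fin (NJ y), Uf y b Q Om j (∏ q ∈ Q with x % q ∈ Ω q, q) :=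
        Finset.prod_le_prod (fun j _ => Xf_nonneg y Q Om j _) (fun j _ => Xf_le_Uf y b Q Om j _)
      rw [← h1]
      refine le_trans (le_of_eq ?_) h3
      rw [h2]
      by_cases h : ∀ q ∈ Q, x % q ∉ Ω q
      · rw [if_pos h, if_pos (hind.mp h)]
      · rw [if_neg h, if_neg (fun h2 => h (hind.mpr h2))]
    · rw [Lm_lamf hP]
      refine (sum_ww_le hP _).trans (le_of_eq ?_)
      by_cases h : ∀ q ∈ Q, x % q ∉ Ω q
      · rw [if_pos h, if_pos (hind.mp h)]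
      · rw [if_neg h, if_neg (fun h2 => h (hind.mpr h2))]
  · intro g hg
    have hg2 : ∀ q ∈ Q, 0 ≤ g q ∧ g q ≤ 1 / 2 ∧ g q ≤ 2 * k / q := by
      intro q hq
      refine ⟨(hg q hq).1, (hg q hq).2.trans ?_, (hg q hq).2⟩
      have hq0 : (0 : ℝ) < q := by exact_mod_cast (hQ q hq).1.pos
      have hq1 : (4 : ℝ) * k ≤ q := by exact_mod_cast (hQ q hq).2.1
      rw [div_le_iff₀ hq0]
      linarith
    have hpos : 0 ≤ ∏ q ∈ Q, (1 - g q) := by
      refine Finset.prod_nonneg fun q hq => ?_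
      have := (hg2 q hq).2.1
      linarith
    obtain ⟨h1, h2⟩ := main_up (b := b) hP hy g hg2
    have h3 := main_low (b := b) hP hy g hg2
    rw [hgm, hgm]
    refine ⟨hpos.trans h1, h2.trans (mul_le_mul_of_nonneg_right hb2 hpos), le_trans ?_ h3⟩
    refine mul_le_mul_of_nonneg_right ?_ hpos
    linarith

end Pool.Agent.Lib.MTR
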