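import Pool.Agent.Lib.MT.Vlow

/-!
# MTR: the Maynard-Tao weights of MT sifted by a second family of residue classes. Definitions

`D` is a finite family of finite sets of primes `> z` (the squarefree moduli of a combinatorial sieve), `c d` its weights,
`Lm D c Ω x` the sum of the `c d` over the `d ∈ D` with `x % q ∈ Ω q` for all `q ∈ d`. If `x % q ∈ Ω q` and no class of
`Ω q` is `≡ -h i` mod `q`, then no form `x + h i` is divisible by `q`; so `FF h L x = FF h (rs d L) x` where `rs d L`
is `L` restricted to the colourings which colour no prime of `d`.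
-/

set_option autoImplicit false

open Finset

namespace Pool.Agent.Lib.MTR

open Pool.Agent.Lib.MT

section

variable {P : Finset ℕ} {ι : Type}

/-- `σ` colours no prime of `d` -/
def Av (d : Finset ℕ) (σ : Col P ι) : Prop := ∀ p : {p : ℕ // p ∈ P}, (p : ℕ) ∈ d → σ p = none

open Classical in
/-- `L` restricted to the colourings which colour no prime of `d` -/
noncomputable def rs (d : Finset ℕ) (L : Col P ι → ℝ) (σ : Col P ι) : ℝ := if Av d σ then L σ else 0

end

/-- the sum of the `c d` over the `d ∈ D` with `x % q ∈ Ω q` for all `q ∈ d` -/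
noncomputable def Lm (D : Finset (Finset ℕ)) (c : Finset ℕ → ℝ) (Ω : ℕ → Finset ℕ) (x : ℕ) : ℝ :=
  ∑ d ∈ D, c d * (if ∀ q ∈ d, x % q ∈ Ω q then 1 else 0)

/-- the main term of `Lm` for the densities `g` -/
noncomputable def Gm (D : Finset (Finset ℕ)) (c : Finset ℕ → ℝ) (g : ℕ → ℝ) : ℝ :=
  ∑ d ∈ D, c d * ∏ q ∈ d, g q

/-- the classes `c` mod `p` with `c + h i ≡ N` for some `i` -/
def On {ι : Type} [Fintype ι] (h : ι → ℕ) (N p : ℕ) : Finset ℕ :=
  (range p).filter (fun c => ∃ i, c + h i ≡ N [MOD p])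

/-- `Om2` up to `z`, `On` beyond `z` -/
def Omz {ι : Type} [Fintype ι] (h : ι → ℕ) (N z p : ℕ) : Finset ℕ :=
  if p ≤ z then Om2 h N p else On h N p

/-- the densities `|Ω q|/q` -/
noncomputable def d1 (Ω : ℕ → Finset ℕ) (q : ℕ) : ℝ := ((Ω q).card : ℝ) / q

/-- the densities `|Ω q|/(q-1)` -/
noncomputable def d2 (Ω : ℕ → Finset ℕ) (q : ℕ) : ℝ := ((Ω q).card : ℝ) / ((q : ℝ) - 1)

end Pool.Agent.Lib.MTR
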