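import Mathlib

/-!
# MTR-Abs: the sum over `d₀`, `d` of the sums for fixed `d₀`, `d`

PROOF. `∑_{d₀} (-1)^|d₀| ∑_d c d S d₀ d - Y (∑ ± G₀)(∑ c G₁) q₀ = ∑_{d₀} ∑_d (-1)^|d₀| c d (S d₀ d - Y G₀ G₁ q d) + Y ∑_{d₀} (-1)^|d₀| G₀ d₀ ∑_d c d G₁ d (q d - q₀)`.
-/

set_option autoImplicit false

open Finset

namespace Pool.Agent.Lib.MTR

theorem absum (T D : Finset (Finset ℕ)) (c : Finset ℕ → ℝ) (M : ℝ) (hM : 0 ≤ M) (hc : ∀ d ∈ D, |c d| ≤ M)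
    (S e : Finset ℕ → Finset ℕ → ℝ) (G₀ G₁ q : Finset ℕ → ℝ) (Y q₀ η : ℝ) (hY : 0 ≤ Y)
    (h1 : ∀ d₀ ∈ T, ∀ d ∈ D, |S d₀ d - Y * (G₀ d₀ * G₁ d) * q d| ≤ e d₀ d)
    (h2 : ∀ d ∈ D, |q d - q₀| ≤ η) (h3 : ∀ d ∈ D, 0 ≤ G₁ d) :
    |∑ d₀ ∈ T, (-1 : ℝ) ^ d₀.card * ∑ d ∈ D, c d * S d₀ d -
        Y * (∑ d₀ ∈ T, (-1 : ℝ) ^ d₀.card * G₀ d₀) * (∑ d ∈ D, c d * G₁ d) * q₀| ≤
      M * ∑ d₀ ∈ T, ∑ d ∈ D, e d₀ d +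
        Y * |∑ d₀ ∈ T, (-1 : ℝ) ^ d₀.card * G₀ d₀| * M * (∑ d ∈ D, G₁ d) * η := by
  have e1 : ∑ d₀ ∈ T, (-1 : ℝ) ^ d₀.card * ∑ d ∈ D, c d * S d₀ d -
        Y * (∑ d₀ ∈ T, (-1 : ℝ) ^ d₀.card * G₀ d₀) * (∑ d ∈ D, c d * G₁ d) * q₀ =
      ∑ d₀ ∈ T, (-1 : ℝ) ^ d₀.card * ∑ d ∈ D, c d * (S d₀ d - Y * (G₀ d₀ * G₁ d) * q d) +
        Y * (∑ d₀ ∈ T, (-1 : ℝ) ^ d₀.card * G₀ d₀) * ∑ d ∈ D, c d * G₁ d * (q d - q₀) := by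
    have a1 : ∀ d₀ ∈ T, (-1 : ℝ) ^ d₀.card * ∑ d ∈ D, c d * (S d₀ d - Y * (G₀ d₀ * G₁ d) * q d) =
        (-1 : ℝ) ^ d₀.card * ∑ d ∈ D, c d * S d₀ d -
          (-1 : ℝ) ^ d₀.card * G₀ d₀ * (Y * ∑ d ∈ D, c d * G₁ d * q d) := by
      intro d₀ _
      have a2 : ∑ d ∈ D, c d * (S d₀ d - Y * (G₀ d₀ * G₁ d) * q d) =
          ∑ d ∈ D, c d * S d₀ d - G₀ d₀ * (Y * ∑ d ∈ D, c d * G₁ d * q d) := by
        rw [mul_sum, mul_sum, ← sum_sub_distrib]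
        exact sum_congr rfl fun d _ => by ring
      rw [a2]
      ring
    rw [sum_congr rfl a1, sum_sub_distrib, ← sum_mul]
    have a3 : ∑ d ∈ D, c d * G₁ d * (q d - q₀) =
        ∑ d ∈ D, c d * G₁ d * q d - (∑ d ∈ D, c d * G₁ d) * q₀ := by
      rw [sum_mul, ← sum_sub_distrib]
      exact sum_congr rfl fun d _ => by ring
    rw [a3]
    ring
  rw [e1]
  refine (abs_add_le _ _).trans (add_le_add ?_ ?_)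
  · refine (abs_sum_le_sum_abs _ _).trans ?_
    rw [mul_sum]
    refine sum_le_sum fun d₀ hd₀ => ?_
    rw [abs_mul, abs_pow, abs_neg, abs_one, one_pow, one_mul, mul_sum]
    refine (abs_sum_le_sum_abs _ _).trans (sum_le_sum fun d hd => ?_)
    rw [abs_mul]
    exact mul_le_mul (hc d hd) (h1 d₀ hd₀ d hd) (abs_nonneg _) hM
  · rw [abs_mul, abs_mul, abs_of_nonneg hY]
    have h4 : |∑ d ∈ D, c d * G₁ d * (q d - q₀)| ≤ M * (∑ d ∈ D, G₁ d) * η := by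
      refine (abs_sum_le_sum_abs _ _).trans ?_
      rw [mul_sum, sum_mul]
      refine sum_le_sum fun d hd => ?_
      rw [abs_mul, abs_mul, abs_of_nonneg (h3 d hd)]
      refine mul_le_mul ?_ (h2 d hd) (abs_nonneg _) (mul_nonneg hM (h3 d hd))
      exact mul_le_mul_of_nonneg_right (hc d hd) (h3 d hd)
    calc Y * |∑ d₀ ∈ T, (-1 : ℝ) ^ d₀.card * G₀ d₀| * |∑ d ∈ D, c d * G₁ d * (q d - q₀)|
        ≤ Y * |∑ d₀ ∈ T, (-1 : ℝ) ^ d₀.card * G₀ d₀| * (M * (∑ d ∈ D, G₁ d) * η) :=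
          mul_le_mul_of_nonneg_left h4 (mul_nonneg hY (abs_nonneg _))
      _ = _ := by ring

end Pool.Agent.Lib.MTR
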