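import Pool.Agent.Lib.MTR.Defs

/-!
# MTR-Omz: simple facts on the classes
-/

set_option autoImplicit false

open Finset

namespace Pool.Agent.Lib.MTR

open Pool.Agent.Lib.MT

variable {ι : Type} [Fintype ι] [DecidableEq ι]

theorem On_card (h : ι → ℕ) (N p : ℕ) : (On h N p).card ≤ Fintype.card ι := by
  classical
  have hsub : On h N p ⊆ (univ : Finset ι).biUnion (fun i =>
      (range p).filter (fun c => c + h i ≡ N [MOD p])) := by
    intro c hc
    unfold On at hc
    rw [mem_filter] at hc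
    obtain ⟨hcp, i, hi⟩ := hc
    rw [mem_biUnion]
    exact ⟨i, mem_univ _, mem_filter.mpr ⟨hcp, hi⟩⟩
  refine (card_le_card hsub).trans (card_biUnion_le.trans ?_)
  have h1 : ∀ i ∈ (univ : Finset ι), ((range p).filter (fun c => c + h i ≡ N [MOD p])).card ≤ 1 := by
    intro i _
    rw [card_le_one]
    intro a ha b hb
    rw [mem_filter, mem_range] at ha hb
    have h2 : a ≡ b [MOD p] := Nat.ModEq.add_right_cancel' (h i) (ha.2.trans hb.2.symm)
    have h3 : a % p = b % p := h2
    rwa [Nat.mod_eq_of_lt ha.1, Nat.mod_eq_of_lt hb.1] at h3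
  refine (sum_le_sum h1).trans ?_
  rw [sum_const, card_univ, smul_eq_mul, mul_one]

theorem Omz_card (h : ι → ℕ) (N z p : ℕ) : (Omz h N z p).card ≤ 2 * Fintype.card ι := by
  unfold Omz
  split_ifs
  · exact Om2_card h N p
  · have := On_card h N p
    omega

theorem Omz_lt (h : ι → ℕ) (N z p : ℕ) : ∀ c ∈ Omz h N z p, c < p := by
  intro c hc
  unfold Omz at hc
  split_ifs at hc
  · exact Om2_lt h N p c hc
  · unfold On at hc
    exact mem_range.mp (mem_filter.mp hc).1

theorem Omz_big (h : ι → ℕ) (N z p : ℕ) (hp : z < p) : Omz h N z p = On h N p := by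
  unfold Omz
  rw [if_neg (by omega)]

theorem Omz_small (h : ι → ℕ) (N z p : ℕ) (hp : p ∈ PP 0 z) : Omz h N z p = Om2 h N p := by
  unfold PP at hp
  rw [mem_filter, mem_range] at hp
  unfold Omz
  rw [if_pos (by omega)]

theorem Pre_Omz (h : ι → ℕ) (N z X : ℕ) : Pre (Omz h N z) z X = Pre (Om2 h N) z X := by
  unfold Pre
  refine filter_congr fun x _ => ?_
  constructor
  · intro h1 p hp
    have := h1 p hp
    rwa [Omz_small h N z p hp] at this
  · intro h1 p hp
    rw [Omz_small h N z p hp]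
    exact h1 p hp

theorem V1_Omz (h : ι → ℕ) (N z : ℕ) : V1 (Omz h N z) z = V1 (Om2 h N) z := by
  unfold V1
  refine prod_congr rfl fun p hp => ?_
  rw [Omz_small h N z p hp]

theorem V2_Omz (h : ι → ℕ) (N a z : ℕ) : V2 (Omz h N z) a z = V2 (Om2 h N) a z := by
  unfold V2
  refine prod_congr rfl fun p hp => ?_
  rw [Omz_small h N z p hp]

end Pool.Agent.Lib.MTR
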