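import Pool.Agent.Lib.MTR.S1s
import Pool.Agent.Lib.MTR.Omz
import Pool.Agent.Lib.MT.Ratio

/-!
# MTR-BadS: the contribution of one shift `t` outside the tuple, sifted

PROOF. As `Ratio_S3` (private theorem in MT/Ratio.lean) with `S1s (Option (Fin k)) (2k) A`, `Ω = Omz (hh k) N z` (`Pre_Omz`, `V1_Omz`, `Omz_card`, `Omz_lt`, `Omz_big`), `u` from `star`. The primality of `x + t` is dropped
after `FF (hh k) .. x = FF (Option) .. x`, as `Lm ≥ 0`.
-/

set_option autoImplicit false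

open Finset

namespace Pool.Agent.Lib.MTR

open Pool.Agent.Lib.MT

theorem badS (k A : ℕ) : ∃ C₁ : ℕ, ∀ B : ℕ, ∃ δ : ℝ, 0 < δ ∧ ∃ X₀ : ℕ, ∀ X z R N : ℕ, X₀ ≤ X →
    (Real.log X) ^ C₁ ≤ z → 16 * k ^ 2 + k * primorial (2 * k) + 2 ≤ z → (z : ℝ) ≤ (Real.log X) ^ B →
    (R : ℝ) ≤ (X : ℝ) ^ (1 / 5 : ℝ) → ((R * R : ℕ) : ℝ) ≤ (X : ℝ) ^ (2 / 5 : ℝ) → 2 ≤ R → R ≤ X →
    k * primorial (2 * k) ≤ X →
    ∀ D : Finset (Finset ℕ), (∀ d ∈ D, ∀ q ∈ d, q.Prime ∧ z < q) →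
    (∀ d ∈ D, ((∏ q ∈ d, q : ℕ) : ℝ) ≤ (X : ℝ) ^ δ) →
    (∀ d ∈ D, ∀ q ∈ d, ∀ t ≤ k * primorial (2 * k), ∀ c ∈ On (hh k) N q, ¬ q ∣ c + t) →
    ∀ c : Finset ℕ → ℝ, (∀ d ∈ D, |c d| ≤ (Real.log X) ^ 2) →
    (∀ x, 0 ≤ Lm D c (Omz (hh k) N z) x) → 0 ≤ Gm D c (d1 (Omz (hh k) N z)) →
    ∀ g : ℕ → ℝ, (∀ n, 0 ≤ g n) → (∀ n, g n ≤ 1) → (∀ a b, a ≤ b → g b ≤ g a) →
    ∀ t ∈ Icc 1 (k * primorial (2 * k)), (∀ i, t ≠ hh k i) →
    ∑ x ∈ (Pre (Om2 (hh k) N) z X).filter (fun x => (x + t).Prime),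
        Lm D c (Omz (hh k) N z) x * (FF (hh k) (lam (zz g R : Col (PP z R) (Fin k) → ℝ)) x) ^ 2 ≤
      X * V1 (Om2 (hh k) N) z * Gm D c (d1 (Omz (hh k) N z)) *
          (4 * (BB (PP z R) g) ^ k / (kap z * Real.log R)) + X / (Real.log X) ^ A := by
  obtain ⟨C₁, hS⟩ := S1s (Option (Fin k)) (2 * k) A
  refine ⟨C₁, fun B => ?_⟩
  obtain ⟨δ, hδ, X₁, hS⟩ := hS B
  refine ⟨δ, hδ, X₁, fun X z R N hX hzC hz hzB hR hRR hR2 hRX hHX D hD1 hD2 hD3 c hc hLm hGm
    g hg0 hg1 hg2 t ht hti => ?_⟩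
  rw [mem_Icc] at ht
  have hP : ∀ p ∈ PP z R, p.Prime := by
    intro p hp
    unfold PP at hp
    exact (mem_filter.mp hp).2.1
  have hPz : ∀ p ∈ PP z R, z < p := by
    intro p hp
    unfold PP at hp
    exact (mem_filter.mp hp).2.2
  have hPR : ∀ p ∈ PP z R, p ≤ R := by
    intro p hp
    unfold PP at hp
    have := (mem_filter.mp hp).1
    rw [mem_range] at this
    omega
  obtain ⟨u, hu1, hu2, hu3, hu4⟩ := star hP R t (by omega) (hh k) g hg0 hg1
  have hkk : k ≤ k ^ 2 := by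
    rcases Nat.eq_zero_or_pos k with h | h
    · rw [h]
      norm_num
    · nlinarith
  have hhk : ∀ i : Fin k, hh k i ≤ k * primorial (2 * k) := by
    intro i
    unfold hh
    exact Nat.mul_le_mul_right _ i.2
  have h1 := hS X z R (R * R) hX (by
      rw [Fintype.card_option, Fintype.card_fin]
      omega) hzC hzB hR hRR (Omz (hh k) N z)
    (fun p => by
      have := Omz_card (hh k) N z p
      rwa [Fintype.card_fin] at this)
    (fun p _ => Omz_lt (hh k) N z p) (fun o : Option (Fin k) => o.elim t (hh k))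
    (fun o => by
      rcases o with _ | i
      · exact ht.2.trans hHX
      · exact (hhk i).trans hHX)
    D hD1 hD2
    (fun d hd q hq o cc hcc => by
      rw [Omz_big (hh k) N z q (hD1 d hd q hq).2] at hcc
      rcases o with _ | i
      · exact hD3 d hd q hq t ht.2 cc hcc
      · exact hD3 d hd q hq (hh k i) (hhk i) cc hcc)
    c hc hGm
    u hu1 hu2 (fun p hp i j hij => by
      rcases i with _ | i <;> rcases j with _ | j
      · exact absurd rfl hij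
      · exact hh_ok' k z p t (by omega) (hP p hp) (hPz p hp) ht.2 j (hti j)
      · intro h
        exact hh_ok' k z p t (by omega) (hP p hp) (hPz p hp) ht.2 i (hti i) h.symm
      · exact hh_ok k z p (by omega) (hP p hp) (hPz p hp) i j (fun h => hij (by rw [h])))
  rw [Pre_Omz, V1_Omz] at h1
  have h2 : ∑ τ : Col (PP z R) (Option (Fin k)), u τ ^ 2 / (tot τ : ℝ) ≤
      4 * (BB (PP z R) g) ^ k / (kap z * Real.log R) := by
    have := S3_main (ι := Fin k) z R (by rw [Fintype.card_fin]; omega) (by omega) g hg0 hg2 hR2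
    rw [Fintype.card_fin] at this
    exact hu3.trans this
  have hV : 0 ≤ V1 (Om2 (hh k) N) z := by
    unfold V1
    refine prod_nonneg fun p hp => ?_
    have hp' : p.Prime := by
      unfold PP at hp
      exact (mem_filter.mp hp).2.1
    have h3 : (Om2 (hh k) N p).card ≤ p :=
      (card_le_card (fun c hc => mem_range.2 (Om2_lt (hh k) N p c hc))).trans (card_range p).le
    have h4 : (0 : ℝ) < p := by exact_mod_cast hp'.pos
    have h5 : ((Om2 (hh k) N p).card : ℝ) / p ≤ 1 := by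
      rw [div_le_one h4]
      exact_mod_cast h3
    linarith
  have h3 : ∑ x ∈ (Pre (Om2 (hh k) N) z X).filter (fun x => (x + t).Prime),
      Lm D c (Omz (hh k) N z) x * (FF (hh k) (lam (zz g R : Col (PP z R) (Fin k) → ℝ)) x) ^ 2 ≤
      ∑ x ∈ Pre (Om2 (hh k) N) z X, Lm D c (Omz (hh k) N z) x *
        (FF (fun o : Option (Fin k) => o.elim t (hh k)) (lam u) x) ^ 2 := by
    have h8 : ∀ x ∈ (Pre (Om2 (hh k) N) z X).filter (fun x => (x + t).Prime),
        Lm D c (Omz (hh k) N z) x * (FF (hh k) (lam (zz g R : Col (PP z R) (Fin k) → ℝ)) x) ^ 2 =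
        Lm D c (Omz (hh k) N z) x * (FF (fun o : Option (Fin k) => o.elim t (hh k)) (lam u) x) ^ 2 := by
      intro x hx
      rw [mem_filter] at hx
      obtain ⟨hx1, hx2⟩ := hx
      unfold Pre at hx1
      rw [mem_filter, mem_Ioc] at hx1
      rw [hu4 x (fun p hp hd => ?_)]
      have h6 := (Nat.prime_dvd_prime_iff_eq (hP p hp) hx2).mp hd
      have h7 := hPR p hp
      omega
    rw [sum_congr rfl h8]
    exact sum_le_sum_of_subset_of_nonneg (filter_subset _ _) fun x _ _ =>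
      mul_nonneg (hLm x) (sq_nonneg _)
  refine h3.trans (h1.trans ?_)
  have h4 : (X : ℝ) * V1 (Om2 (hh k) N) z * Gm D c (d1 (Omz (hh k) N z)) *
      ∑ τ : Col (PP z R) (Option (Fin k)), u τ ^ 2 / (tot τ : ℝ) ≤
      X * V1 (Om2 (hh k) N) z * Gm D c (d1 (Omz (hh k) N z)) *
        (4 * (BB (PP z R) g) ^ k / (kap z * Real.log R)) := by
    apply mul_le_mul_of_nonneg_left h2
    positivity
  linarith

end Pool.Agent.Lib.MTR
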