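import Pool.Agent.Lib.MTR.Defs
import Pool.Agent.Lib.MP_7b7e48_nt.GT.FL1

/-!
# MTR-Bern: Bonferroni inequalities for products

PROOF. `μ a = ∏_{q ∈ a} g q ∏_{q ∈ Q \ a} (1 - g q)` is a probability on the subsets `a` of `Q`; for `d ⊆ Q` the sum of `μ a` over the
`a ⊇ d` is `∏_{q ∈ d} g q` (`Finset.prod_add` for `g q` and `if q ∈ d then 0 else 1 - g q`), and `μ ∅ = ∏ (1 - g q)`. Multiply the
pointwise inequalities `GT.bonf_lower`, `GT.bonf_upper` (for `B = a`) by `μ a ≥ 0` and add up.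
-/

set_option autoImplicit false

open Finset

namespace Pool.Agent.Lib.MTR

/-- the sum of the probabilities of the sets containing `d` -/
private theorem prob_sup (Q : Finset ℕ) (g : ℕ → ℝ) (d : Finset ℕ) (hd : d ⊆ Q) :
    ∑ a ∈ Q.powerset with d ⊆ a, (∏ q ∈ a, g q) * ∏ q ∈ Q \ a, (1 - g q) = ∏ q ∈ d, g q := by
  classical
  have h1 := Finset.prod_add (fun q => g q) (fun q => if q ∈ d then (0 : ℝ) else 1 - g q) Q
  have h2 : ∏ q ∈ Q, (g q + if q ∈ d then (0 : ℝ) else 1 - g q) = ∏ q ∈ d, g q := by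
    rw [← prod_subset hd]
    · refine prod_congr rfl fun q hq => ?_
      rw [if_pos hq, add_zero]
    · intro q _ hq
      rw [if_neg hq]
      ring
  rw [← h2, h1, sum_filter]
  refine sum_congr rfl fun a ha => ?_
  split_ifs with h
  · congr 1
    refine prod_congr rfl fun q hq => ?_
    rw [if_neg fun hqd => (mem_sdiff.1 hq).2 (h hqd)]
  · obtain ⟨q, hqd, hqa⟩ := not_subset.1 h
    have h3 : ∏ i ∈ Q \ a, (if i ∈ d then (0 : ℝ) else 1 - g i) = 0 :=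
      prod_eq_zero (mem_sdiff.2 ⟨hd hqd, hqa⟩) (by rw [if_pos hqd])
    rw [h3, mul_zero]

private theorem prob_sum (Q : Finset ℕ) (g : ℕ → ℝ) (c : Finset ℕ → ℝ) (p : Finset ℕ → Prop)
    [DecidablePred p] :
    ∑ a ∈ Q.powerset, ((∏ q ∈ a, g q) * ∏ q ∈ Q \ a, (1 - g q)) *
      ∑ d ∈ a.powerset with p d, c d = ∑ d ∈ Q.powerset with p d, c d * ∏ q ∈ d, g q := by
  classical
  have h1 : ∀ a ∈ Q.powerset, ((∏ q ∈ a, g q) * ∏ q ∈ Q \ a, (1 - g q)) *
      ∑ d ∈ a.powerset with p d, c d = ∑ d ∈ Q.powerset with p d,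
        if d ⊆ a then ((∏ q ∈ a, g q) * ∏ q ∈ Q \ a, (1 - g q)) * c d else 0 := by
    intro a ha
    rw [mul_sum, ← sum_filter]
    refine sum_congr ?_ fun _ _ => rfl
    ext d
    rw [mem_filter, mem_filter, mem_filter, mem_powerset, mem_powerset]
    exact ⟨fun h => ⟨⟨h.1.trans (mem_powerset.1 ha), h.2⟩, h.1⟩, fun h => ⟨h.2, h.1.2⟩⟩
  rw [sum_congr rfl h1, sum_comm]
  refine sum_congr rfl fun d hd => ?_
  rw [← prob_sup Q g d (mem_powerset.1 (mem_filter.1 hd).1), mul_sum, sum_filter]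
  refine sum_congr rfl fun a _ => ?_
  split_ifs
  · ring
  · rfl

theorem bern (Q : Finset ℕ) (g : ℕ → ℝ) (hg : ∀ q ∈ Q, 0 ≤ g q ∧ g q ≤ 1) (m : ℕ) (hm : Even m) :
    ∏ q ∈ Q, (1 - g q) ≤ ∑ d ∈ Q.powerset with d.card ≤ m, ((-1 : ℝ) ^ d.card * ∏ q ∈ d, g q) ∧
    ∑ d ∈ Q.powerset with d.card ≤ m, ((-1 : ℝ) ^ d.card * ∏ q ∈ d, g q) - ∏ q ∈ Q, (1 - g q) ≤
      ∑ d ∈ Q.powerset with d.card = m + 1, ∏ q ∈ d, g q := by
  classical
  have hpos : ∀ a ∈ Q.powerset, 0 ≤ (∏ q ∈ a, g q) * ∏ q ∈ Q \ a, (1 - g q) := by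
    intro a ha
    refine mul_nonneg (prod_nonneg fun q hq => (hg q (mem_powerset.1 ha hq)).1)
      (prod_nonneg fun q hq => ?_)
    have := (hg q (mem_sdiff.1 hq).1).2
    linarith
  have hemp : ∑ a ∈ Q.powerset, ((∏ q ∈ a, g q) * ∏ q ∈ Q \ a, (1 - g q)) *
      (if a = ∅ then (1 : ℝ) else 0) = ∏ q ∈ Q, (1 - g q) := by
    rw [sum_eq_single ∅]
    · simp
    · intro a _ ha
      rw [if_neg ha, mul_zero]
    · intro h
      exact absurd (empty_mem_powerset Q) h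
  have hS := prob_sum Q g (fun d => (-1 : ℝ) ^ d.card) (fun d => d.card ≤ m)
  have hT := prob_sum Q g (fun _ => (1 : ℝ)) (fun d => d.card = m + 1)
  simp only [one_mul] at hT
  constructor
  · rw [← hemp, ← hS]
    refine sum_le_sum fun a ha => mul_le_mul_of_nonneg_left ?_ (hpos a ha)
    exact Pool.Agent.Lib.GT.bonf_lower a m hm
  · rw [← hemp, ← hS, ← hT, ← sum_sub_distrib]
    refine sum_le_sum fun a ha => ?_
    rw [← mul_sub]
    exact mul_le_mul_of_nonneg_left (Pool.Agent.Lib.GT.bonf_upper a m hm) (hpos a ha)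

end Pool.Agent.Lib.MTR
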