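import Pool.Agent.Lib.MT.Ratio

/-!
# MTR-Core: the numerical content of `ratio` (no sums over `x`)
-/

set_option autoImplicit false

open Finset

namespace Pool.Agent.Lib.MTR

open Pool.Agent.Lib.MT

private theorem Ratio_n1 (C J : ℝ) (hC : 1 ≤ C) (hJ : 1 ≤ J) : 16 ≤ 16 * C * J := by
  nlinarith

private theorem Ratio_n3 (C J l : ℝ) (hJ : J + 1 ≤ 2 * J) (h0 : 0 ≤ C * l) :
    2 * (J + 1) * C * l * 4 ≤ l * (16 * C * J) := by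
  nlinarith

private theorem Ratio_n4 (C J m l y : ℝ) (h : 49152 * C ^ 2 * (m + 1) * (y / 6) ≤ J * l) :
    512 * C * (m + 1) * y * (16 * C) ≤ J * l := by
  nlinarith

theorem core (m : ℕ) : ∃ k : ℕ, 1 ≤ k ∧ ∀ B : ℕ, ∃ X₀ : ℕ, ∀ X z N R : ℕ, X₀ ≤ X →
    16 * k ^ 2 + k * primorial (2 * k) + 2 ≤ z → (z : ℝ) ≤ (Real.log X) ^ B → Even N →
    R = ⌊(X : ℝ) ^ (1 / 5 : ℝ)⌋₊ →
    (2 ≤ R ∧ (R : ℝ) ≤ (X : ℝ) ^ (1 / 5 : ℝ) ∧ ((R * R : ℕ) : ℝ) ≤ (X : ℝ) ^ (2 / 5 : ℝ) ∧ R ≤ X ∧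
      ((k * primorial (2 * k) : ℕ) : ℝ) ≤ (X : ℝ) ^ (1 / 2 : ℝ) ∧ k * primorial (2 * k) ≤ X ∧
      1 ≤ Real.log (3 * X) ∧ 2 ≤ Real.log X) ∧
    1 / Real.log X ≤ V1 (Om2 (hh k) N) z ∧
    ∃ g : ℕ → ℝ, (∀ n, 0 ≤ g n) ∧ (∀ n, g n ≤ 1) ∧ (∀ a b, a ≤ b → g b ≤ g a) ∧
      1 ≤ BB (PP z R) g ∧
      (∀ i : Fin k, 0 ≤ V2 (Om2 (hh k) N) (hh k i) z ∧
        X * V1 (Om2 (hh k) N) z * (BB (PP z R) g) ^ k * ((m + 1) / k) * Real.log (3 * X) ≤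
        (∑ n ∈ Ioc (X + hh k i) (2 * X + hh k i), BV.th n) * V2 (Om2 (hh k) N) (hh k i) z *
          ∑ ρ : Col (PP z R) (Fin k), (∏ p : {p : ℕ // p ∈ PP z R},
              Dm (q2 i p) (1 - ∑ j, q2 i p j) (ρ p)) *
            (∑ τ : Col (PP z R) (Fin k), (∏ p : {p : ℕ // p ∈ PP z R},
              Amat (fun j => q2 i p j - 1 / ((p : ℕ) : ℝ)) (ρ p) (τ p)) * zz g R τ) ^ 2) ∧
      (k : ℝ) * ((k * primorial (2 * k) : ℕ) : ℝ) * (4 / (kap z * Real.log R)) ≤ 1 / 2 := by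
  obtain ⟨C₁, hC₁, hDDu⟩ := DD_upper
  obtain ⟨J, hJ⟩ : ∃ J : ℕ, 49152 * C₁ ^ 2 * (m + 1) ≤ (J : ℝ) := exists_nat_ge _
  have hm0 : (0 : ℝ) ≤ m := Nat.cast_nonneg m
  have hJ1 : 1 ≤ J := by
    have h1 : (1 : ℝ) ≤ J := by
      refine le_trans ?_ hJ
      have : (1 : ℝ) ≤ C₁ ^ 2 := one_le_pow₀ hC₁
      nlinarith
    exact_mod_cast h1
  have hJR : (1 : ℝ) ≤ J := by exact_mod_cast hJ1
  obtain ⟨k, hk⟩ : ∃ k : ℕ, k = 2 ^ J := ⟨_, rfl⟩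
  have hk1 : 1 ≤ k := by
    rw [hk]
    exact Nat.one_le_two_pow
  have hkR : (1 : ℝ) ≤ k := by exact_mod_cast hk1
  have hk2 : (k : ℝ) = 2 ^ J := by
    rw [hk]
    push_cast
    rfl
  refine ⟨k, hk1, fun B => ?_⟩
  obtain ⟨X₄, hVlow⟩ := V1_low k B
  obtain ⟨X₅, hκlow⟩ := kap_low B
  obtain ⟨X₆, hθ⟩ := theta_low
  obtain ⟨H, hH⟩ : ∃ H : ℕ, H = k * primorial (2 * k) := ⟨_, rfl⟩
  obtain ⟨X₇, hnum⟩ := rnum C₁ hC₁ J k H B m hJ1 hk1 1 one_pos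
  refine ⟨max (max X₄ X₅) (max X₆ X₇), fun X z N R hX hz hzB hN hR => ?_⟩
  simp only [max_le_iff] at hX
  obtain ⟨⟨hX4, hX5⟩, hX6, hX7⟩ := hX
  rw [← hH] at hz ⊢
  obtain ⟨ℓ, hℓ⟩ : ∃ ℓ : ℝ, ℓ = Real.log R / (16 * C₁ * J * k) := ⟨_, rfl⟩
  obtain ⟨⟨n1, n2, n3, n4⟩, ⟨n5, n6, n7⟩, ⟨n8, n9⟩, ⟨n10, n11⟩, ⟨n12, n13, n14⟩⟩ :=
    hnum X hX7 R hR ℓ hℓ
  have hkk : k ≤ k ^ 2 := by nlinarith
  have hz2k : 2 * k ≤ z := by omega
  have hlogR : 0 < Real.log R := by linarith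
  have hCJk : (0 : ℝ) < 16 * C₁ * J * k := by positivity
  have hℓ0 : 0 ≤ ℓ := by
    rw [hℓ]
    positivity
  obtain ⟨κ, hκ⟩ : ∃ κ : ℝ, κ = kap z := ⟨_, rfl⟩
  have hκ0 : 0 < κ := hκ ▸ kap_pos z
  have hJℓ : (2 : ℝ) ^ J * ℓ = Real.log R / (16 * C₁ * J) := by
    rw [← hk2, hℓ]
    field_simp
  have hpow : ∀ j ≤ J, (2 : ℝ) ^ j * ℓ ≤ Real.log R / 16 := by
    intro j hj
    have a1 : (2 : ℝ) ^ j ≤ 2 ^ J := pow_le_pow_right₀ (by norm_num) hj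
    have a2 : (2 : ℝ) ^ j * ℓ ≤ 2 ^ J * ℓ := mul_le_mul_of_nonneg_right a1 hℓ0
    refine a2.trans ?_
    rw [hJℓ]
    exact div_le_div_of_nonneg_left hlogR.le (by norm_num) (Ratio_n1 C₁ J hC₁ hJR)
  have hRpos : (0 : ℝ) < R := by
    have : 0 < R := by omega
    exact_mod_cast this
  have hexpR : ∀ j ≤ J, Real.exp (2 ^ j * ℓ) ≤ R := by
    intro j hj
    rw [← Real.exp_log hRpos, Real.exp_le_exp]
    have := hpow j hj
    linarith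
  have hexp1 : ∀ j : ℕ, Real.exp ℓ ≤ Real.exp (2 ^ j * ℓ) := by
    intro j
    rw [Real.exp_le_exp]
    exact le_mul_of_one_le_left hℓ0 (one_le_pow₀ (by norm_num))
  have hDl : ∀ j ≤ J, κ / 2 * (2 ^ j * ℓ) ≤ DD (PP z R) (Real.exp (2 ^ j * ℓ)) := by
    intro j hj
    have a1 := DD_lower z R (Real.exp (2 ^ j * ℓ)) (by
      rw [← Real.exp_zero, Real.exp_le_exp]
      positivity) (hexpR j hj)
    rwa [Real.log_exp, ← hκ] at a1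
  have hDu : ∀ j ≤ J, DD (PP z R) (Real.exp (2 ^ j * ℓ)) ≤ C₁ * κ * (2 ^ j * ℓ) := by
    intro j hj
    have a1 := hDDu z R (Real.exp (2 ^ j * ℓ)) (n8.trans (hexp1 j)) ((hzB.trans n9).trans (hexp1 j))
    rwa [Real.log_exp, ← hκ] at a1
  obtain ⟨g, hg⟩ : ∃ g : ℕ → ℝ, g = gg J ℓ := ⟨_, rfl⟩
  have hg0 : ∀ n, 0 ≤ g n := fun n => hg ▸ gg_nonneg J ℓ n
  have hg1 : ∀ n, g n ≤ 1 := fun n => hg ▸ gg_le_one J ℓ n
  have hg2 : ∀ a b, a ≤ b → g b ≤ g a := fun a b h => hg ▸ gg_anti J ℓ hℓ0 a b h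
  have hAA := AA_lower J ℓ hℓ0 (PP z R) κ (fun j hj => hDl j hj.le)
  have hBBu := BB_upper J ℓ hℓ0 (PP z R) κ C₁ hκ0.le (by linarith) hDu
  have hP : ∀ p ∈ PP z R, p.Prime := by
    intro p hp
    unfold PP at hp
    exact (mem_filter.mp hp).2.1
  have hPz : ∀ p ∈ PP z R, z < p := by
    intro p hp
    unfold PP at hp
    exact (mem_filter.mp hp).2.2
  have hBLu := BL_upper J ℓ hℓ0 (PP z R) (fun p hp => (hP p hp).one_lt.le) κ C₁ hκ0.le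
    (by linarith) hDu
  have hBBl := BB_lower J ℓ hℓ0 (PP z R) κ (by
    have := hDl 0 (Nat.zero_le _)
    rwa [pow_zero, one_mul] at this)
  have hBB1 := BB_one J ℓ hℓ0 (PP z R)
  rw [← hg] at hAA hBBu hBLu hBBl hBB1
  obtain ⟨a, ha⟩ : ∃ a : ℝ, a = AA (PP z R) g := ⟨_, rfl⟩
  obtain ⟨b, hb⟩ : ∃ b : ℝ, b = BB (PP z R) g := ⟨_, rfl⟩
  rw [← ha] at hAA
  rw [← hb] at hBBu hBBl hBB1
  have hb0 : 0 < b := by linarith
  have ha0 : 0 ≤ a := le_trans (by positivity) hAA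
  have hF : (Fintype.card (Fin k) : ℝ) * BL (PP z R) g ≤ BB (PP z R) g * Real.log R / 4 := by
    rw [Fintype.card_fin, ← hb]
    have a1 : (k : ℝ) * BL (PP z R) g ≤ k * ((J + 1) * C₁ * κ * ℓ ^ 2) := by gcongr
    have a2 : (k : ℝ) * ((J + 1) * C₁ * κ * ℓ ^ 2) = (κ / 2 * ℓ) * (2 * (J + 1) * C₁ * (k * ℓ)) := by
      ring
    have a3 : (k : ℝ) * ℓ = Real.log R / (16 * C₁ * J) := by rw [hk2, hJℓ]
    have a4 : 2 * (J + 1) * C₁ * (k * ℓ) ≤ Real.log R / 4 := by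
      rw [a3, ← mul_div_assoc, div_le_div_iff₀ (by positivity) (by norm_num)]
      exact Ratio_n3 C₁ J (Real.log R) (by linarith) (by positivity)
    calc (k : ℝ) * BL (PP z R) g ≤ (κ / 2 * ℓ) * (2 * (J + 1) * C₁ * (k * ℓ)) := by
          rw [← a2]
          exact a1
      _ ≤ (κ / 2 * ℓ) * (Real.log R / 4) := by gcongr
      _ ≤ b * (Real.log R / 4) := by gcongr
      _ = b * Real.log R / 4 := by ring
  have hgR : ∀ n, g n ≠ 0 → n ^ 2 ≤ R := by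
    intro n hn
    rw [hg] at hn
    have a1 := gg_supp J ℓ hℓ0 n hn
    have a2 : (n : ℝ) ^ 2 ≤ R := by
      calc (n : ℝ) ^ 2 ≤ (Real.exp (2 ^ J * ℓ)) ^ 2 := by gcongr
        _ = Real.exp (2 * (2 ^ J * ℓ)) := by rw [← Real.exp_nat_mul]; norm_num
        _ ≤ Real.exp (Real.log R) := by
            rw [Real.exp_le_exp]
            have := hpow J le_rfl
            linarith
        _ = R := Real.exp_log hRpos
    exact_mod_cast a2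
  obtain ⟨V, hV⟩ : ∃ V : ℝ, V = V1 (Om2 (hh k) N) z := ⟨_, rfl⟩
  have hVl : 1 / Real.log X ≤ V := hV ▸ hVlow X z N hX4 hzB hN
  have hL0 : 0 < Real.log X := by linarith
  have hV0 : 0 < V := lt_of_lt_of_le (by positivity) hVl
  have hhH : ∀ i : Fin k, hh k i ≤ H := by
    intro i
    unfold hh
    rw [hH]
    exact Nat.mul_le_mul_right _ i.2
  have hXX : (0 : ℝ) < X := by
    have h1 : (R : ℝ) ≤ X := by exact_mod_cast n4
    linarith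
  refine ⟨⟨n1, n2, n3, n4, n10, n11, n6, n7⟩, hV ▸ hVl, g, hg0, hg1, hg2, hb ▸ hBB1, fun i => ?_, ?_⟩
  · have a2 := S2_main (ι := Fin k) z R (by rw [Fintype.card_fin]; omega) n1 i g hg0 hg2 hgR hF
    rw [Fintype.card_fin, ← ha, ← hb] at a2
    obtain ⟨M, hM⟩ : ∃ M : ℝ, M = ∑ ρ : Col (PP z R) (Fin k), (∏ p : {p : ℕ // p ∈ PP z R},
            Dm (q2 i p) (1 - ∑ j, q2 i p j) (ρ p)) *
          (∑ τ : Col (PP z R) (Fin k), (∏ p : {p : ℕ // p ∈ PP z R},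
            Amat (fun j => q2 i p j - 1 / ((p : ℕ) : ℝ)) (ρ p) (τ p)) * zz g R τ) ^ 2 := ⟨_, rfl⟩
    rw [← hM] at a2
    have a3 : V = κ * V2 (Om2 (hh k) N) (hh k i) z := by
      rw [hV, hκ]
      exact V1_eq (hh k) N z i
    obtain ⟨v, hv⟩ : ∃ v : ℝ, v = V2 (Om2 (hh k) N) (hh k i) z := ⟨_, rfl⟩
    rw [← hv] at a3
    have hv0 : 0 < v := by
      have : 0 < κ * v := a3 ▸ hV0
      exact (pos_iff_pos_of_mul_pos this).mp hκ0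
    have a4 := hθ X (hh k i) hX6 (le_trans (by exact_mod_cast hhH i) n10)
    obtain ⟨Θ, hΘ⟩ : ∃ Θ : ℝ, Θ = ∑ n ∈ Ioc (X + hh k i) (2 * X + hh k i), BV.th n := ⟨_, rfl⟩
    rw [← hΘ] at a4
    rw [← hM, ← hV, ← hv, ← hΘ, ← hb]
    refine ⟨hv0.le, ?_⟩
    have hM0 : 0 ≤ 1 / 8 * a ^ 2 * b ^ (k - 1) := by positivity
    have hΘ0 : 0 ≤ Θ := by linarith
    have a5 : (X / 2) * v * (1 / 8 * a ^ 2 * b ^ (k - 1)) ≤ Θ * v * M :=
      mul_le_mul (mul_le_mul_of_nonneg_right a4 hv0.le) a2 hM0 (mul_nonneg hΘ0 hv0.le)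
    refine le_trans ?_ a5
    have hbk : b ^ k = b ^ (k - 1) * b := by
      rw [← pow_succ]
      congr 1
      omega
    rw [a3, hbk]
    have key : 16 * κ * b * ((m + 1) / k) * Real.log (3 * X) ≤ a ^ 2 := by
      have hkℓ : (k : ℝ) * ℓ = Real.log R / (16 * C₁ * J) := by rw [hk2, hJℓ]
      have h3X : 0 < Real.log (3 * X) := by linarith
      have c1 : 16 * κ * b * ((m + 1) / k) * Real.log (3 * X) ≤
          16 * κ * (2 * C₁ * κ * ℓ) * ((m + 1) / k) * Real.log (3 * X) := by gcongr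
      have c2 : (J * κ * ℓ / 4) ^ 2 ≤ a ^ 2 := by
        apply pow_le_pow_left₀ (by positivity) hAA
      refine c1.trans (le_trans ?_ c2)
      have c3 : 512 * C₁ * (m + 1) * Real.log (3 * X) ≤ J ^ 2 * (k * ℓ) := by
        rw [hkℓ]
        have c4 : (J : ℝ) ^ 2 * (Real.log R / (16 * C₁ * J)) = J * Real.log R / (16 * C₁) := by
          field_simp
        rw [c4, le_div_iff₀ (by positivity)]
        have c5 : 49152 * C₁ ^ 2 * (m + 1) * (Real.log (3 * X) / 6) ≤ J * Real.log R := by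
          gcongr
        exact Ratio_n4 C₁ J m (Real.log R) (Real.log (3 * X)) c5
      have hk0 : (0 : ℝ) < k := by linarith
      have c6 : 16 * κ * (2 * C₁ * κ * ℓ) * ((m + 1) / k) * Real.log (3 * X) =
          κ ^ 2 * ℓ / (16 * k) * (512 * C₁ * (m + 1) * Real.log (3 * X)) := by
        field_simp
        ring
      have c7 : (J * κ * ℓ / 4) ^ 2 = κ ^ 2 * ℓ / (16 * k) * (J ^ 2 * (k * ℓ)) := by
        field_simp
        ring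
      rw [c6, c7]
      gcongr
    calc X * (κ * v) * (b ^ (k - 1) * b) * ((m + 1) / k) * Real.log (3 * X)
        = X * v * b ^ (k - 1) / 16 * (16 * κ * b * ((m + 1) / k) * Real.log (3 * X)) := by ring
      _ ≤ X * v * b ^ (k - 1) / 16 * a ^ 2 := by gcongr
      _ = (X / 2) * v * (1 / 8 * a ^ 2 * b ^ (k - 1)) := by ring
  · have b3 := hκlow X z hX5 hzB
    rw [← hκ] at b3 ⊢
    have b4 : 0 < (Real.log X) ^ (1 / 2 : ℝ) := Real.rpow_pos_of_pos hL0 _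
    have b5 : 1 ≤ κ * (Real.log X) ^ (1 / 2 : ℝ) := by
      rw [div_le_iff₀ b4] at b3
      exact b3
    rw [← mul_div_assoc, div_le_div_iff₀ (by positivity) (by norm_num)]
    calc (k : ℝ) * H * 4 * 2 = 8 * k * H * 1 := by ring
      _ ≤ 8 * k * H * (κ * (Real.log X) ^ (1 / 2 : ℝ)) := by gcongr
      _ = κ * (8 * k * H * (Real.log X) ^ (1 / 2 : ℝ)) := by ring
      _ ≤ κ * Real.log R := by gcongr
      _ = 1 * (κ * Real.log R) := by ring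

end Pool.Agent.Lib.MTR
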