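import Pool.Agent.Lib.MTR.Omz

/-!
# MTR-Exc: the exceptional primes

PROOF. Let `H = k primorial(2k)`. If `q ∣ c + t`, `c + hh k i ≡ N`, then `q ∣ N + t - hh k i`, a positive integer `≤ 9 X` (as `hh k i ≤ H ≤ X/2`, `N ≥ X`, `t ≤ H`). It has at most `log (9X)/log 2` prime factors, so there are at most
`k (H+1) · 2 log (9X) ≤ (log X)^2` such primes `q` (`X` large). For each of them `z < q ≤ y ≤ X` and the number of `x ∈ (X, 2X]` with `x % q ∈ On` is at most `k (X/q + 1) ≤ 2 k X/z` (`On_card`). Total `≤ (log X)^2 · 2 k X/z ≤ X (log X)^3/(log X)^(C+4)`.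
-/

set_option autoImplicit false

open Finset

namespace Pool.Agent.Lib.MTR

open Pool.Agent.Lib.MT

private theorem exc_hh_le (k : ℕ) (i : Fin k) : hh k i ≤ k * primorial (2 * k) := by
  unfold hh
  exact Nat.mul_le_mul_right _ i.2

/-- the number of prime factors -/
private theorem exc_omega {n : ℕ} (hn : 0 < n) : (n.primeFactors.card : ℝ) ≤ 2 * Real.log n := by
  have h1 : 2 ^ n.primeFactors.card ≤ n := by
    calc 2 ^ n.primeFactors.card ≤ ∏ p ∈ n.primeFactors, p :=
          Finset.pow_card_le_prod _ _ _ (fun p hp => (Nat.prime_of_mem_primeFactors hp).two_le)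
      _ ≤ n := Nat.le_of_dvd hn (Nat.prod_primeFactors_dvd n)
  have h2 : (n.primeFactors.card : ℝ) * Real.log 2 ≤ Real.log n := by
    rw [← Real.log_pow]
    apply Real.log_le_log (by positivity)
    exact_mod_cast h1
  have h3 : (1 / 2 : ℝ) ≤ Real.log 2 := by
    have := Real.log_two_gt_d9
    linarith
  have h4 : (0 : ℝ) ≤ n.primeFactors.card := Nat.cast_nonneg _
  nlinarith

/-- a residue class in `(X, 2X]` -/
private theorem exc_ap (X q c : ℕ) (hq : 0 < q) :
    (((Ioc X (2 * X)).filter (fun x => x % q = c)).card : ℝ) ≤ X / q + 2 := by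
  have h1 : ((Ioc X (2 * X)).filter (fun x => x % q = c)).card ≤ (Icc (X / q) (2 * X / q)).card := by
    apply card_le_card_of_injOn (fun x => x / q)
    · intro x hx
      rw [mem_coe, mem_filter, mem_Ioc] at hx
      rw [mem_coe, mem_Icc]
      exact ⟨Nat.div_le_div_right (by omega), Nat.div_le_div_right (by omega)⟩
    · intro x hx x' hx' hxx
      rw [mem_coe, mem_filter] at hx hx'
      have e1 := Nat.div_add_mod x q
      have e2 := Nat.div_add_mod x' q
      simp only at hxx
      rw [hx.2] at e1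
      rw [hx'.2, ← hxx] at e2
      omega
  have h2 : 2 * X / q ≤ 2 * (X / q) + 1 := by
    apply Nat.lt_succ_iff.mp
    rw [Nat.div_lt_iff_lt_mul hq]
    have e1 := Nat.div_add_mod X q
    have e2 := Nat.mod_lt X hq
    nlinarith
  rw [Nat.card_Icc] at h1
  have h3 : ((Ioc X (2 * X)).filter (fun x => x % q = c)).card ≤ X / q + 2 := by omega
  calc (((Ioc X (2 * X)).filter (fun x => x % q = c)).card : ℝ) ≤ ((X / q + 2 : ℕ) : ℝ) := by
        exact_mod_cast h3
    _ ≤ X / q + 2 := by
        push_cast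
        have := Nat.cast_div_le (m := X) (n := q) (α := ℝ)
        linarith

/-- several residue classes in `(X, 2X]` -/
private theorem exc_cl (X q : ℕ) (S : Finset ℕ) (hq : 0 < q) :
    (((Ioc X (2 * X)).filter (fun x => x % q ∈ S)).card : ℝ) ≤ S.card * (X / q + 2) := by
  have h1 : (Ioc X (2 * X)).filter (fun x => x % q ∈ S) ⊆
      S.biUnion (fun c => (Ioc X (2 * X)).filter (fun x => x % q = c)) := by
    intro x hx
    rw [mem_filter] at hx
    rw [mem_biUnion]
    exact ⟨x % q, hx.2, mem_filter.mpr ⟨hx.1, rfl⟩⟩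
  calc (((Ioc X (2 * X)).filter (fun x => x % q ∈ S)).card : ℝ)
      ≤ ((∑ c ∈ S, ((Ioc X (2 * X)).filter (fun x => x % q = c)).card : ℕ) : ℝ) := by
        exact_mod_cast (card_le_card h1).trans card_biUnion_le
    _ ≤ ∑ c ∈ S, ((X : ℝ) / q + 2) := by
        push_cast
        exact sum_le_sum (fun c _ => exc_ap X q c hq)
    _ = S.card * (X / q + 2) := by
        rw [sum_const, nsmul_eq_mul]

open Classical in
/-- the exceptional primes -/
private noncomputable def excE (k z y N : ℕ) : Finset ℕ :=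
  (PP z y).filter (fun q => ∃ t ≤ k * primorial (2 * k), ∃ c ∈ On (hh k) N q, q ∣ c + t)

private theorem excE_card (k z y N X : ℕ) (hX9 : 9 ≤ X) (hHX : k * primorial (2 * k) < X) (hXN : X ≤ N)
    (hN : N ≤ 8 * X) :
    ((excE k z y N).card : ℝ) ≤ ((k * primorial (2 * k) + 1) * k : ℕ) * (4 * Real.log X) := by
  classical
  have h1 : excE k z y N ⊆ (range (k * primorial (2 * k) + 1)).biUnion (fun t =>
      (univ : Finset (Fin k)).biUnion (fun i => (N + t - hh k i).primeFactors)) := by
    intro q hq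
    unfold excE at hq
    rw [mem_filter] at hq
    obtain ⟨hqP, t, ht, c, hc, hqc⟩ := hq
    have hqp : q.Prime := by
      unfold PP at hqP
      rw [mem_filter] at hqP
      exact hqP.2.1
    unfold On at hc
    obtain ⟨-, i, hi⟩ := (@Finset.mem_filter _ _ (_) _ _).mp hc
    rw [mem_biUnion]
    refine ⟨t, mem_range.mpr (by omega), ?_⟩
    rw [mem_biUnion]
    refine ⟨i, mem_univ i, ?_⟩
    have hhi := exc_hh_le k i
    rw [Nat.mem_primeFactors]
    refine ⟨hqp, ?_, by omega⟩
    have h2 : hh k i ≡ N + t [MOD q] := by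
      have h3 : c + t + hh k i ≡ N + t [MOD q] := by
        have h4 := hi.add_right t
        rw [show c + t + hh k i = c + hh k i + t by ring]
        exact h4
      have h5 : c + t + hh k i ≡ 0 + hh k i [MOD q] :=
        ((Nat.modEq_zero_iff_dvd.mpr hqc)).add_right _
      rw [zero_add] at h5
      exact h5.symm.trans h3
    exact (Nat.modEq_iff_dvd' (by omega)).mp h2
  have h2 : ∀ t ∈ range (k * primorial (2 * k) + 1), ∀ i : Fin k,
      ((N + t - hh k i).primeFactors.card : ℝ) ≤ 4 * Real.log X := by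
    intro t ht i
    rw [mem_range] at ht
    have hhi := exc_hh_le k i
    have h3 : 0 < N + t - hh k i := by omega
    refine (exc_omega h3).trans ?_
    have h4 : ((N + t - hh k i : ℕ) : ℝ) ≤ (X : ℝ) * X := by
      have : N + t - hh k i ≤ X * X := by
        have : N + t - hh k i ≤ 9 * X := by omega
        nlinarith
      exact_mod_cast this
    have h5 : Real.log ((N + t - hh k i : ℕ) : ℝ) ≤ Real.log ((X : ℝ) * X) :=
      Real.log_le_log (by exact_mod_cast h3) h4
    have hX0 : (X : ℝ) ≠ 0 := by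
      have : 0 < X := by omega
      positivity
    rw [Real.log_mul hX0 hX0] at h5
    linarith
  calc ((excE k z y N).card : ℝ)
      ≤ ((∑ t ∈ range (k * primorial (2 * k) + 1), ∑ i : Fin k, (N + t - hh k i).primeFactors.card : ℕ) : ℝ) := by
        have h3 := (card_le_card h1).trans card_biUnion_le
        have h4 : ∑ t ∈ range (k * primorial (2 * k) + 1),
            ((univ : Finset (Fin k)).biUnion (fun i => (N + t - hh k i).primeFactors)).card ≤
            ∑ t ∈ range (k * primorial (2 * k) + 1), ∑ i : Fin k, (N + t - hh k i).primeFactors.card :=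
          sum_le_sum (fun t _ => card_biUnion_le)
        exact_mod_cast h3.trans h4
    _ ≤ ∑ t ∈ range (k * primorial (2 * k) + 1), ∑ _i : Fin k, 4 * Real.log X := by
        push_cast
        exact sum_le_sum (fun t ht => sum_le_sum (fun i _ => h2 t ht i))
    _ = ((k * primorial (2 * k) + 1) * k : ℕ) * (4 * Real.log X) := by
        rw [sum_const, sum_const, card_range, card_univ, Fintype.card_fin, nsmul_eq_mul, nsmul_eq_mul]
        push_cast
        ring

theorem exc (k C : ℕ) : ∃ X₀ : ℕ, ∀ X z y N : ℕ, X₀ ≤ X → (Real.log X) ^ (C + 4) ≤ z → y ≤ X → X ≤ N →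
    N ≤ 8 * X →
    (((Ioc X (2 * X)).filter (fun x => ∃ q ∈ PP z y,
      (∃ t ≤ k * primorial (2 * k), ∃ c ∈ On (hh k) N q, q ∣ c + t) ∧ x % q ∈ On (hh k) N q)).card : ℝ) ≤
      X / (Real.log X) ^ C := by
  classical
  set M : ℕ := (k * primorial (2 * k) + 1) * k * 4 + 3 * k + 1 with hM
  refine ⟨max (max 9 (k * primorial (2 * k) + 1)) ⌈Real.exp (M : ℝ)⌉₊, fun X z y N hX hz hy hXN hN => ?_⟩
  simp only [max_le_iff] at hX
  obtain ⟨⟨hX9, hXH⟩, hXe⟩ := hX
  have hXpos : (0 : ℝ) < X := by exact_mod_cast (by omega : 0 < X)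
  have hlog : (M : ℝ) ≤ Real.log X := by
    rw [Real.le_log_iff_exp_le hXpos]
    exact (Nat.le_ceil _).trans (by exact_mod_cast hXe)
  set K : ℝ := Real.log X with hK
  have hM1 : (1 : ℝ) ≤ M := by
    rw [hM]
    push_cast
    have : (0 : ℝ) ≤ (k * primorial (2 * k) + 1) * k * 4 + 3 * k := by positivity
    linarith
  have hK1 : 1 ≤ K := hM1.trans hlog
  have hK0 : 0 < K := by linarith
  have hzpos : (0 : ℝ) < z := lt_of_lt_of_le (pow_pos hK0 _) hz
  have hE := excE_card k z y N X hX9 (by omega) hXN hN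
  have hE2 : ((excE k z y N).card : ℝ) ≤ K ^ 2 := by
    refine hE.trans ?_
    have h1 : (((k * primorial (2 * k) + 1) * k : ℕ) : ℝ) * 4 ≤ K := by
      refine le_trans ?_ hlog
      rw [hM]
      exact_mod_cast (by omega : (k * primorial (2 * k) + 1) * k * 4 ≤
        (k * primorial (2 * k) + 1) * k * 4 + 3 * k + 1)
    calc (((k * primorial (2 * k) + 1) * k : ℕ) : ℝ) * (4 * K)
        = ((((k * primorial (2 * k) + 1) * k : ℕ) : ℝ) * 4) * K := by ring
      _ ≤ K * K := mul_le_mul_of_nonneg_right h1 hK0.le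
      _ = K ^ 2 := by ring
  have hk3 : 3 * (k : ℝ) ≤ K := by
    refine le_trans ?_ hlog
    rw [hM]
    exact_mod_cast (by omega : 3 * k ≤ (k * primorial (2 * k) + 1) * k * 4 + 3 * k + 1)
  generalize hF : ((Ioc X (2 * X)).filter (fun x => ∃ q ∈ PP z y,
      (∃ t ≤ k * primorial (2 * k), ∃ c ∈ On (hh k) N q, q ∣ c + t) ∧ x % q ∈ On (hh k) N q)) = F
  have hsub : F ⊆ (excE k z y N).biUnion (fun q => (Ioc X (2 * X)).filter (fun x => x % q ∈ On (hh k) N q)) := by
    intro x hx
    rw [← hF, mem_filter] at hx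
    obtain ⟨hx1, q, hq, hq1, hq2⟩ := hx
    rw [mem_biUnion]
    refine ⟨q, ?_, mem_filter.mpr ⟨hx1, hq2⟩⟩
    unfold excE
    rw [mem_filter]
    exact ⟨hq, hq1⟩
  have hone : ∀ q ∈ excE k z y N,
      (((Ioc X (2 * X)).filter (fun x => x % q ∈ On (hh k) N q)).card : ℝ) ≤ 3 * k * X / z := by
    intro q hq
    unfold excE at hq
    rw [mem_filter] at hq
    have hqP := hq.1
    unfold PP at hqP
    rw [mem_filter, mem_range] at hqP
    obtain ⟨hqy, hqp, hzq⟩ := hqP
    have hq0 : (0 : ℝ) < q := by exact_mod_cast hqp.pos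
    have h1 := exc_cl X q (On (hh k) N q) hqp.pos
    have h2 := On_card (hh k) N q
    rw [Fintype.card_fin] at h2
    have h3 : (2 : ℝ) ≤ 2 * X / q := by
      rw [le_div_iff₀ hq0]
      have : q ≤ X := by omega
      have : (q : ℝ) ≤ X := by exact_mod_cast this
      linarith
    calc (((Ioc X (2 * X)).filter (fun x => x % q ∈ On (hh k) N q)).card : ℝ)
        ≤ (On (hh k) N q).card * (X / q + 2) := h1
      _ ≤ k * (3 * X / q) := by
          apply mul_le_mul (by exact_mod_cast h2) _ (by positivity) (Nat.cast_nonneg _)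
          have e : 3 * (X : ℝ) / q = X / q + 2 * X / q := by ring
          rw [e]
          linarith
      _ = 3 * k * X / q := by ring
      _ ≤ 3 * k * X / z := by
          apply div_le_div_of_nonneg_left (by positivity) hzpos
          exact_mod_cast hzq.le
  calc (F.card : ℝ)
      ≤ ((∑ q ∈ excE k z y N, ((Ioc X (2 * X)).filter (fun x => x % q ∈ On (hh k) N q)).card : ℕ) : ℝ) := by
        exact_mod_cast (card_le_card hsub).trans card_biUnion_le
    _ ≤ ∑ q ∈ excE k z y N, 3 * (k : ℝ) * X / z := by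
        push_cast
        exact sum_le_sum hone
    _ = (excE k z y N).card * (3 * k * X / z) := by rw [sum_const, nsmul_eq_mul]
    _ ≤ K ^ 2 * (K * X / K ^ (C + 4)) := by
        apply mul_le_mul hE2 _ (by positivity) (by positivity)
        apply div_le_div₀ (by positivity) _ (pow_pos hK0 _) hz
        exact mul_le_mul_of_nonneg_right hk3 hXpos.le
    _ = (X / K ^ C) * (1 / K) := by
        rw [pow_add]
        field_simp
    _ ≤ (X / K ^ C) * 1 := by
        apply mul_le_mul_of_nonneg_left _ (by positivity)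
        rw [div_le_one hK0]
        exact hK1
    _ = X / K ^ C := mul_one _

end Pool.Agent.Lib.MTR
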