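import Pool.Agent.Lib.MTR.Defs
import Pool.Agent.Lib.MT.LayE

/-!
# MTR-Fib: each modulus comes from few quadruples `(d₀, d, σ, τ)`

PROOF. As `layE_fibre` (MT/LayE.lean). The product `(∏_{d₀ ∪ d} p) mod2 σ τ` is squarefree with set of prime factors `d₀ ∪ d ∪ U`, `U` the primes coloured by `σ` or `τ`, pairwise disjoint: `d₀` = prime factors `≤ z`,
`d ∪ U` = prime factors `> z` =: `W`. For given `q` the sum over the fibre is `K^|d₀|` times the sum over `d ⊆ W` of `K^|d|` times the number of pairs `(σ, τ)` with `U = W \ d`, at most `((k+1)^2)^|W \ d|` (`layE_card` there):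
`∑_{d ⊆ W} K^|d| ((k+1)^2)^|W \ d| = (K + (k+1)^2)^|W|` (`Finset.prod_add` or `Finset.sum_pow_mul_eq_add_pow`).
-/

set_option autoImplicit false

open Finset

namespace Pool.Agent.Lib.MTR

open Pool.Agent.Lib.MT

variable {P : Finset ℕ} {ι : Type} [Fintype ι] [DecidableEq ι]

/-- the set of the primes coloured by `σ` or `τ` -/
private def fib_U (σ τ : Col P ι) : Finset ℕ :=
  (univ.filter (fun p : {p : ℕ // p ∈ P} => ¬ (σ p = none ∧ τ p = none))).image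
    (fun p : {p : ℕ // p ∈ P} => (p : ℕ))

omit [Fintype ι] [DecidableEq ι] in
private theorem fib_mem (σ τ : Col P ι) (p : {p : ℕ // p ∈ P}) :
    (p : ℕ) ∈ fib_U σ τ ↔ ¬ (σ p = none ∧ τ p = none) := by
  unfold fib_U
  rw [mem_image]
  constructor
  · rintro ⟨q, hq, hqp⟩
    have hq' : q = p := Subtype.ext hqp
    rw [← hq']
    exact (mem_filter.1 hq).2
  · intro h
    exact ⟨p, mem_filter.2 ⟨mem_univ _, h⟩, rfl⟩

omit [Fintype ι] [DecidableEq ι] in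
private theorem fib_sub (σ τ : Col P ι) : fib_U σ τ ⊆ P := by
  intro p hp
  unfold fib_U at hp
  obtain ⟨q, _, rfl⟩ := mem_image.1 hp
  exact q.2

omit [Fintype ι] [DecidableEq ι] in
private theorem fib_mod2 (σ τ : Col P ι) : mod2 σ τ = ∏ p ∈ fib_U σ τ, p := by
  unfold fib_U
  rw [prod_image fun a _ b _ h => Subtype.ext h, prod_filter]
  unfold mod2
  refine prod_congr rfl fun p _ => ?_
  by_cases h : σ p = none ∧ τ p = none
  · rw [if_pos h, if_neg (not_not.mpr h)]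
  · rw [if_neg h, if_pos h]

private theorem fib_prime {z p : ℕ} (hp : p ∈ PP 0 z) : p.Prime ∧ p ≤ z := by
  unfold PP at hp
  rw [mem_filter, mem_range] at hp
  exact ⟨hp.2.1, by omega⟩

omit [Fintype ι] [DecidableEq ι] in
private theorem fib_disj (σ τ : Col P ι) (d : Finset ℕ) (h : Av d σ ∧ Av d τ) :
    Disjoint d (fib_U σ τ) := by
  rw [disjoint_left]
  intro p hp hp'
  have h1 := fib_sub σ τ hp'
  exact (fib_mem σ τ ⟨p, h1⟩).1 hp' ⟨h.1 ⟨p, h1⟩ hp, h.2 ⟨p, h1⟩ hp⟩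

omit [Fintype ι] [DecidableEq ι] in
private theorem fib_pf (hP : ∀ p ∈ P, p.Prime) (z : ℕ) (hz : ∀ p ∈ P, z < p) (σ τ : Col P ι)
    (d₀ d : Finset ℕ) (hd₀ : d₀ ⊆ PP 0 z) (hd : ∀ q ∈ d, q.Prime ∧ z < q)
    (hav : Av d σ ∧ Av d τ) :
    ((∏ p ∈ d₀ ∪ d, p) * mod2 σ τ).primeFactors = d₀ ∪ d ∪ fib_U σ τ := by
  have hdisj : Disjoint (d₀ ∪ d) (fib_U σ τ) := by
    rw [disjoint_union_left]
    refine ⟨?_, fib_disj σ τ d hav⟩
    rw [disjoint_left]
    intro p hp hp'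
    have h1 := (fib_prime (hd₀ hp)).2
    have h2 := hz p (fib_sub σ τ hp')
    omega
  rw [fib_mod2, ← prod_union hdisj]
  apply Nat.primeFactors_prod
  intro p hp
  rcases mem_union.1 hp with h | h
  · rcases mem_union.1 h with h | h
    · exact (fib_prime (hd₀ h)).1
    · exact (hd p h).1
  · exact hP p (fib_sub σ τ h)

open Classical in
/-- the number of pairs with a given set `U` -/
private theorem fib_card (U : Finset ℕ) (S : Finset (Col P ι × Col P ι))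
    (hS : ∀ s ∈ S, fib_U s.1 s.2 = U) : S.card ≤ ((Fintype.card ι + 1) ^ 2) ^ U.card := by
  have h1 : (univ : Finset ({p : ℕ // p ∈ U} → Option ι × Option ι)).card =
      ((Fintype.card ι + 1) ^ 2) ^ U.card := by
    rw [card_univ, Fintype.card_fun, Fintype.card_prod, Fintype.card_option, Fintype.card_coe, sq]
  rw [← h1]
  refine card_le_card_of_injOn (fun s => fun p : {p : ℕ // p ∈ U} =>
    if hp : (p : ℕ) ∈ P then (s.1 ⟨p, hp⟩, s.2 ⟨p, hp⟩) else (none, none))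
    (fun s _ => mem_univ _) ?_
  intro s hs t ht hst
  have key : ∀ p : {p : ℕ // p ∈ P}, (s.1 p, s.2 p) = (t.1 p, t.2 p) := by
    intro p
    by_cases hp : (p : ℕ) ∈ U
    · have h2 := congrFun hst ⟨(p : ℕ), hp⟩
      simp only [p.2, dif_pos] at h2
      exact h2
    · have h3 : s.1 p = none ∧ s.2 p = none := by
        by_contra hcon
        exact hp (hS s hs ▸ (fib_mem s.1 s.2 p).2 hcon)
      have h4 : t.1 p = none ∧ t.2 p = none := by
        by_contra hcon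
        exact hp (hS t ht ▸ (fib_mem t.1 t.2 p).2 hcon)
      rw [h3.1, h3.2, h4.1, h4.2]
  refine Prod.ext ?_ ?_
  · funext p
    exact congrArg Prod.fst (key p)
  · funext p
    exact congrArg Prod.snd (key p)

theorem fibre2 (hP : ∀ p ∈ P, p.Prime) (z m K Q : ℕ) (hz : ∀ p ∈ P, z < p)
    (D : Finset (Finset ℕ)) (hD : ∀ d ∈ D, ∀ q ∈ d, q.Prime ∧ z < q)
    (S : Finset ℕ → Finset (Col P ι × Col P ι)) (hS : ∀ d ∈ D, ∀ s ∈ S d, Av d s.1 ∧ Av d s.2)
    (hQ : ∀ d₀ ⊆ PP 0 z, d₀.card ≤ m → ∀ d ∈ D, ∀ s ∈ S d, (∏ p ∈ d₀ ∪ d, p) * mod2 s.1 s.2 ≤ Q)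
    (G : ℕ → ℝ) (hG : ∀ q, 0 ≤ G q) :
    ∑ d₀ ∈ (PP 0 z).powerset with d₀.card ≤ m, ∑ d ∈ D, ∑ s ∈ S d,
        (K : ℝ) ^ (d₀ ∪ d).card * G ((∏ p ∈ d₀ ∪ d, p) * mod2 s.1 s.2) ≤
      ∑ q ∈ Icc 1 Q, ((K + (Fintype.card ι + 1) ^ 2 : ℕ) : ℝ) ^ q.primeFactors.card * G q := by
  classical
  set A : Finset (Finset ℕ) := (PP 0 z).powerset.filter (fun d => d.card ≤ m) with hA
  set T : Finset (Finset ℕ × Finset ℕ × (Col P ι × Col P ι)) :=
    (A ×ˢ D ×ˢ (univ : Finset (Col P ι × Col P ι))).filter (fun t => t.2.2 ∈ S t.2.1) with hT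
  have hTm : ∀ t, t ∈ T ↔ (t.1 ⊆ PP 0 z ∧ t.1.card ≤ m) ∧ t.2.1 ∈ D ∧ t.2.2 ∈ S t.2.1 := by
    intro t
    rw [hT, mem_filter, mem_product, mem_product, hA, mem_filter, mem_powerset]
    constructor
    · rintro ⟨⟨h1, h2, _⟩, h3⟩
      exact ⟨h1, h2, h3⟩
    · rintro ⟨h1, h2, h3⟩
      exact ⟨⟨h1, h2, mem_univ _⟩, h3⟩
  have hsum : ∑ d₀ ∈ A, ∑ d ∈ D, ∑ s ∈ S d,
        (K : ℝ) ^ (d₀ ∪ d).card * G ((∏ p ∈ d₀ ∪ d, p) * mod2 s.1 s.2) =
      ∑ t ∈ T, (K : ℝ) ^ (t.1 ∪ t.2.1).card * G ((∏ p ∈ t.1 ∪ t.2.1, p) * mod2 t.2.2.1 t.2.2.2) := by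
    symm
    rw [hT, sum_filter, sum_product]
    refine sum_congr rfl fun d₀ _ => ?_
    rw [sum_product]
    refine sum_congr rfl fun d _ => ?_
    simp only
    rw [← sum_filter]
    refine sum_congr ?_ fun _ _ => rfl
    ext s
    simp
  rw [hsum]
  have hmaps : ∀ t ∈ T, (∏ p ∈ t.1 ∪ t.2.1, p) * mod2 t.2.2.1 t.2.2.2 ∈ Icc 1 Q := by
    intro t ht
    obtain ⟨⟨h1, h2⟩, h3, h4⟩ := (hTm t).1 ht
    rw [mem_Icc]
    refine ⟨?_, hQ t.1 h1 h2 t.2.1 h3 t.2.2 h4⟩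
    have h5 : 0 < ∏ p ∈ t.1 ∪ t.2.1, p := by
      refine prod_pos fun p hp => ?_
      rcases mem_union.1 hp with h | h
      · exact (fib_prime (h1 h)).1.pos
      · exact (hD _ h3 p h).1.pos
    exact Nat.succ_le_of_lt (Nat.mul_pos h5 (mod2_pos hP _ _))
  rw [← sum_fiberwise_of_maps_to hmaps]
  refine sum_le_sum fun q _ => ?_
  set Fq := T.filter (fun t => (∏ p ∈ t.1 ∪ t.2.1, p) * mod2 t.2.2.1 t.2.2.2 = q) with hFq
  have h1 : ∑ t ∈ Fq, (K : ℝ) ^ (t.1 ∪ t.2.1).card * G ((∏ p ∈ t.1 ∪ t.2.1, p) * mod2 t.2.2.1 t.2.2.2) =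
      (∑ t ∈ Fq, (K : ℝ) ^ (t.1 ∪ t.2.1).card) * G q := by
    rw [sum_mul]
    refine sum_congr rfl fun t ht => ?_
    rw [(mem_filter.1 ht).2]
  rw [h1]
  refine mul_le_mul_of_nonneg_right ?_ (hG q)
  set B := q.primeFactors.filter (fun p => p ≤ z) with hB
  set V := q.primeFactors.filter (fun p => ¬ p ≤ z) with hV
  have hfib : ∀ t ∈ Fq, t.1 = B ∧ t.2.1 ⊆ V ∧ fib_U t.2.2.1 t.2.2.2 = V \ t.2.1 := by
    intro t ht
    rw [hFq, mem_filter, hTm] at ht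
    obtain ⟨⟨⟨h2, h3⟩, h4, h5⟩, h6⟩ := ht
    have hpf := fib_pf hP z hz t.2.2.1 t.2.2.2 t.1 t.2.1 h2 (hD _ h4) (hS _ h4 _ h5)
    rw [h6] at hpf
    have hdisj := fib_disj t.2.2.1 t.2.2.2 t.2.1 (hS _ h4 _ h5)
    refine ⟨?_, ?_, ?_⟩
    · ext p
      rw [hB, mem_filter, hpf, mem_union, mem_union]
      constructor
      · intro hp
        exact ⟨Or.inl (Or.inl hp), (fib_prime (h2 hp)).2⟩
      · rintro ⟨(hp | hp) | hp, hpz⟩
        · exact hp
        · exact absurd hpz (not_le.2 (hD _ h4 p hp).2)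
        · exact absurd hpz (not_le.2 (hz p (fib_sub _ _ hp)))
    · intro p hp
      rw [hV, mem_filter, hpf, mem_union, mem_union]
      exact ⟨Or.inl (Or.inr hp), not_le.2 (hD _ h4 p hp).2⟩
    · ext p
      rw [mem_sdiff, hV, mem_filter, hpf, mem_union, mem_union]
      constructor
      · intro hp
        exact ⟨⟨Or.inr hp, not_le.2 (hz p (fib_sub _ _ hp))⟩,
          fun h => (disjoint_left.1 hdisj h) hp⟩
      · rintro ⟨⟨(hp | hp) | hp, hpz⟩, hn⟩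
        · exact absurd (fib_prime (h2 hp)).2 hpz
        · exact absurd hp hn
        · exact hp
  have hcard : ∀ t ∈ Fq, (t.1 ∪ t.2.1).card = B.card + t.2.1.card := by
    intro t ht
    obtain ⟨e1, e2, _⟩ := hfib t ht
    rw [card_union_of_disjoint, e1]
    rw [disjoint_left, e1]
    intro p hp hp'
    exact (mem_filter.1 (e2 hp')).2 (mem_filter.1 hp).2
  have h2 : ∑ t ∈ Fq, (K : ℝ) ^ (t.1 ∪ t.2.1).card =
      ∑ d ∈ V.powerset, ∑ t ∈ Fq.filter (fun t => t.2.1 = d), (K : ℝ) ^ (t.1 ∪ t.2.1).card := by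
    refine (sum_fiberwise_of_maps_to (fun t ht => ?_) _).symm
    exact mem_powerset.2 (hfib t ht).2.1
  have h3 : ∀ d ∈ V.powerset, ∑ t ∈ Fq.filter (fun t => t.2.1 = d), (K : ℝ) ^ (t.1 ∪ t.2.1).card ≤
      (K : ℝ) ^ B.card * ((K : ℝ) ^ d.card * (((Fintype.card ι + 1) ^ 2 : ℕ) : ℝ) ^ (V.card - d.card)) := by
    intro d hd
    have hdV := mem_powerset.1 hd
    have e1 : ∑ t ∈ Fq.filter (fun t => t.2.1 = d), (K : ℝ) ^ (t.1 ∪ t.2.1).card =
        ((Fq.filter (fun t => t.2.1 = d)).card : ℝ) * (K : ℝ) ^ (B.card + d.card) := by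
      rw [← nsmul_eq_mul, ← sum_const]
      refine sum_congr rfl fun t ht => ?_
      rw [hcard t (mem_filter.1 ht).1, (mem_filter.1 ht).2]
    have e2 : (Fq.filter (fun t => t.2.1 = d)).card ≤ ((Fintype.card ι + 1) ^ 2) ^ (V.card - d.card) := by
      have e3 : (Fq.filter (fun t => t.2.1 = d)).card =
          ((Fq.filter (fun t => t.2.1 = d)).image (fun t => t.2.2)).card := by
        rw [card_image_of_injOn]
        intro t ht u hu htu
        have ht' := mem_filter.1 (mem_coe.1 ht)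
        have hu' := mem_filter.1 (mem_coe.1 hu)
        refine Prod.ext ?_ (Prod.ext ?_ htu)
        · rw [(hfib t ht'.1).1, (hfib u hu'.1).1]
        · rw [ht'.2, hu'.2]
      rw [e3, ← card_sdiff_of_subset hdV]
      refine fib_card _ _ fun s hs => ?_
      obtain ⟨t, ht, rfl⟩ := mem_image.1 hs
      have ht' := mem_filter.1 ht
      rw [(hfib t ht'.1).2.2, ht'.2]
    rw [e1, pow_add]
    have e4 : ((Fq.filter (fun t => t.2.1 = d)).card : ℝ) ≤
        (((Fintype.card ι + 1) ^ 2 : ℕ) : ℝ) ^ (V.card - d.card) := by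
      exact_mod_cast e2
    have e5 : (0 : ℝ) ≤ (K : ℝ) ^ B.card * (K : ℝ) ^ d.card := by positivity
    calc _ ≤ (((Fintype.card ι + 1) ^ 2 : ℕ) : ℝ) ^ (V.card - d.card) * ((K : ℝ) ^ B.card * (K : ℝ) ^ d.card) :=
          mul_le_mul_of_nonneg_right e4 e5
      _ = _ := by ring
  rw [h2]
  refine (sum_le_sum h3).trans ?_
  rw [← mul_sum, sum_pow_mul_eq_add_pow]
  have h5 : B.card + V.card = q.primeFactors.card := card_filter_add_card_filter_not _
  rw [← h5, pow_add]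
  push_cast
  have h6 : (0 : ℝ) ≤ (K : ℝ) := Nat.cast_nonneg _
  refine mul_le_mul_of_nonneg_right ?_ (by positivity)
  refine pow_le_pow_left₀ h6 ?_ _
  have h7 : (0 : ℝ) ≤ ((Fintype.card ι : ℝ) + 1) ^ 2 := by positivity
  linarith

end Pool.Agent.Lib.MTR
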