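import Pool.Agent.Lib.MTR.StrS
import Pool.Agent.Lib.MTR.Exc

/-!
# MTR-Fin: strings of consecutive primes `p` such that `N - p` has only large prime factors

PROOF. `stringsS` gives `k, C, C₁`. `B = max C₁ (C + 5) + 1`, `z = ⌊(log X)^B⌋₊` (so `(log X)^(B-1) ≤ z ≤ (log X)^B` for large `X`), `δ` from `stringsS` for `B` (may be replaced by `min δ (1/2)` in the choice of `y`), `y = ⌊X^min(δ,1/2)⌋₊`, `X = N/4`,
`Q` = the `q ∈ PP z y` without `(∃ t ≤ H, ∃ c ∈ On (hh k) N q, q ∣ c + t)`. `stringsS` gives `≥ X/(log X)^C` points `x`, by `exc k (C+1)` at most `X/(log X)^(C+1)` of them have a `q ∈ PP z y \ Q` with `x % q ∈ On (hh k) N q`.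
For the others: `x ∈ (X, 2X]`, so `N ≤ 4 x`, `4 (x + H) ≤ 3 N`. Let `q` be a prime dividing `N - (x + hh k i)`, i.e. `x + hh k i ≡ N` mod `q`. Then `x % q + hh k i ≡ N`, so `q ≤ z` contradicts `x ∈ Pre (Om2 ..)`, and
`z < q ≤ y` contradicts `x % q ∉ On` (`q ∈ Q` or not). So `q ≥ y + 1 > X^min(δ,1/2)`, and `q^r > N` if `r min(δ,1/2) ≥ 2`, `X^2 ≥ N`. Finally `X/(2 (log X)^C) ≥ N/(log N)^(C+1)`.
-/

set_option autoImplicit false

open Finset

namespace Pool.Agent.Lib.MTR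

open Pool.Agent.Lib.MT

private theorem fin_hh_le (k : ℕ) (i : Fin k) : hh k i ≤ k * primorial (2 * k) := by
  unfold hh
  exact Nat.mul_le_mul_right _ i.2

open Classical in
/-- the prime factors of `N - (x + hh k i)` are large -/
private theorem fin_rough {k N z y X x r : ℕ} (hX : X = N / 4) (hH : 4 * (k * primorial (2 * k)) ≤ N)
    (hN4 : 4 ≤ N) (hr : N < (y + 1) ^ r)
    (hx : x ∈ Pre (Om2 (hh k) N) z X)
    (hQ : ∀ q ∈ (PP z y).filter (fun q => ∀ t ≤ k * primorial (2 * k), ∀ c ∈ On (hh k) N q, ¬ q ∣ c + t),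
      x % q ∉ On (hh k) N q)
    (hE : ¬ ∃ q ∈ PP z y, (∃ t ≤ k * primorial (2 * k), ∃ c ∈ On (hh k) N q, q ∣ c + t) ∧
      x % q ∈ On (hh k) N q) :
    x ∈ Icc 1 N ∧ N ≤ 4 * x ∧ 4 * (x + k * primorial (2 * k)) ≤ 3 * N ∧
    ∀ i : Fin k, ∀ q : ℕ, q.Prime → q ∣ N - (x + hh k i) → N < q ^ r := by
  unfold Pre at hx
  rw [mem_filter, mem_Ioc] at hx
  obtain ⟨⟨hx1, hx2⟩, hxq⟩ := hx
  have hb : 4 * (x + k * primorial (2 * k)) ≤ 3 * N := by omega
  refine ⟨mem_Icc.mpr ⟨by omega, by omega⟩, by omega, hb, fun i q hq hqd => ?_⟩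
  have hhi := fin_hh_le k i
  have hcong : x + hh k i ≡ N [MOD q] := (Nat.modEq_iff_dvd' (by omega)).mpr hqd
  have hmod : x % q + hh k i ≡ N [MOD q] := ((Nat.mod_modEq x q).add_right _).trans hcong
  have hlt : x % q ∈ range q := mem_range.mpr (Nat.mod_lt _ hq.pos)
  have hqz : z < q := by
    by_contra hcon
    apply hxq q
    · unfold PP
      rw [mem_filter, mem_range]
      exact ⟨by omega, hq, hq.pos⟩
    · exact (@Finset.mem_filter _ _ (_) _ _).mpr ⟨hlt, i, Or.inr hmod⟩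
  have hOn : x % q ∈ On (hh k) N q := (@Finset.mem_filter _ _ (_) _ _).mpr ⟨hlt, i, hmod⟩
  have hqy : y < q := by
    by_contra hcon
    have hqP : q ∈ PP z y := by
      unfold PP
      rw [mem_filter, mem_range]
      exact ⟨by omega, hq, hqz⟩
    by_cases hex : ∃ t ≤ k * primorial (2 * k), ∃ c ∈ On (hh k) N q, q ∣ c + t
    · exact hE ⟨q, hqP, hex, hOn⟩
    · push Not at hex
      exact hQ q (mem_filter.mpr ⟨hqP, hex⟩) hOn
  exact hr.trans_le (Nat.pow_le_pow_left hqy r)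

open Classical in
theorem rough_strings (m : ℕ) (hm : 1 ≤ m) : ∃ k r C N₀ : ℕ, 1 ≤ k ∧ 1 ≤ r ∧ ∀ N : ℕ, N₀ ≤ N → Even N →
    N / (Real.log N) ^ C ≤
      (((Icc 1 N).filter (fun x => N ≤ 4 * x ∧ 4 * (x + k * primorial (2 * k)) ≤ 3 * N ∧
        m ≤ good k x ∧ bad k x = 0 ∧
        ∀ i : Fin k, ∀ q : ℕ, q.Prime → q ∣ N - (x + hh k i) → N < q ^ r)).card : ℝ) := by
  obtain ⟨k, hk, C, C₁, h⟩ := stringsS m hm
  obtain ⟨δ, hδ, X₀, hX₀⟩ := h (max C₁ (C + 5) + 1)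
  obtain ⟨X₁, hX₁⟩ := exc k (C + 1)
  set B : ℕ := max C₁ (C + 5) with hB
  set δ' : ℝ := min δ (1 / 2) with hδ'
  have hδ'0 : 0 < δ' := lt_min hδ (by norm_num)
  set r : ℕ := ⌈2 / δ'⌉₊ + 1 with hr
  refine ⟨k, r, C + 1, max (4 * (max (max X₀ X₁) (max 8 ⌈Real.exp 16⌉₊))) (4 * (k * primorial (2 * k))),
    hk, by omega, fun N hN hE => ?_⟩
  obtain ⟨X, hX⟩ : ∃ X : ℕ, X = N / 4 := ⟨_, rfl⟩
  have hNH : 4 * (k * primorial (2 * k)) ≤ N := (le_max_right _ _).trans hN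
  have hN' : 4 * (max (max X₀ X₁) (max 8 ⌈Real.exp 16⌉₊)) ≤ N := (le_max_left _ _).trans hN
  have hXM : max (max X₀ X₁) (max 8 ⌈Real.exp 16⌉₊) ≤ X := by omega
  simp only [max_le_iff] at hXM
  obtain ⟨⟨hXX0, hXX1⟩, hX8, hXe⟩ := hXM
  have hXpos : (0 : ℝ) < X := by exact_mod_cast (by omega : 0 < X)
  have hX1 : (1 : ℝ) ≤ X := by exact_mod_cast (by omega : 1 ≤ X)
  have hlog : 16 ≤ Real.log (X : ℝ) := by
    rw [Real.le_log_iff_exp_le hXpos]
    exact (Nat.le_ceil _).trans (by exact_mod_cast hXe)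
  have hXN : X ≤ N := by omega
  have hlogN : Real.log (X : ℝ) ≤ Real.log (N : ℝ) := Real.log_le_log hXpos (by exact_mod_cast hXN)
  set K : ℝ := Real.log (X : ℝ) with hK
  have hK0 : 0 < K := by linarith
  have hK1 : 1 ≤ K := by linarith
  -- the presieve level
  set z : ℕ := ⌊K ^ (B + 1)⌋₊ with hz
  have hz1 : (z : ℝ) ≤ K ^ (B + 1) := Nat.floor_le (by positivity)
  have hz2 : K ^ B ≤ z := by
    have h1 : K ^ (B + 1) < z + 1 := Nat.lt_floor_add_one _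
    have h2 : 1 ≤ K ^ B := one_le_pow₀ hK1
    rw [pow_succ] at h1
    nlinarith
  have hz3 : K ^ C₁ ≤ z := (pow_le_pow_right₀ hK1 (le_max_left _ _)).trans hz2
  have hz4 : K ^ (C + 1 + 4) ≤ z := (pow_le_pow_right₀ hK1 (by omega)).trans hz2
  -- the sieve level
  set y : ℕ := ⌊(X : ℝ) ^ δ'⌋₊ with hy
  have hy1 : (y : ℝ) ≤ (X : ℝ) ^ δ' := Nat.floor_le (by positivity)
  have hy2 : (y : ℝ) ≤ (X : ℝ) ^ δ := hy1.trans (Real.rpow_le_rpow_of_exponent_le hX1 (min_le_left _ _))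
  have hy3 : y ≤ X := by
    have h1 : (y : ℝ) ≤ X := by
      refine hy1.trans ?_
      calc (X : ℝ) ^ δ' ≤ (X : ℝ) ^ (1 : ℝ) := by
            apply Real.rpow_le_rpow_of_exponent_le hX1
            exact (min_le_right _ _).trans (by norm_num)
        _ = X := Real.rpow_one _
    exact_mod_cast h1
  have hNr : N < (y + 1) ^ r := by
    have h1 : (X : ℝ) ^ δ' < y + 1 := Nat.lt_floor_add_one _
    have h2 : (2 : ℝ) ≤ δ' * r := by
      rw [hr]
      push_cast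
      have h3 : 2 / δ' ≤ ⌈2 / δ'⌉₊ := Nat.le_ceil _
      have h4 : δ' * (2 / δ') = 2 := by field_simp
      have h5 : δ' * (2 / δ') ≤ δ' * ⌈2 / δ'⌉₊ := mul_le_mul_of_nonneg_left h3 hδ'0.le
      rw [h4] at h5
      linarith
    have h3 : ((N : ℕ) : ℝ) ≤ (X : ℝ) ^ (2 : ℝ) := by
      rw [show (2 : ℝ) = ((2 : ℕ) : ℝ) by norm_num, Real.rpow_natCast]
      have : N ≤ X ^ 2 := by
        have : N ≤ 8 * X := by omega
        nlinarith
      exact_mod_cast this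
    have h4 : ((N : ℕ) : ℝ) < ((y : ℝ) + 1) ^ r := by
      calc ((N : ℕ) : ℝ) ≤ (X : ℝ) ^ (2 : ℝ) := h3
        _ ≤ (X : ℝ) ^ (δ' * r) := Real.rpow_le_rpow_of_exponent_le hX1 h2
        _ = ((X : ℝ) ^ δ') ^ r := by rw [Real.rpow_mul hXpos.le, Real.rpow_natCast]
        _ < ((y : ℝ) + 1) ^ r := pow_lt_pow_left₀ h1 (by positivity) (by omega)
    exact_mod_cast h4
  have hN8 : N ≤ 8 * X := by omega
  have hA := hX₀ X z y N hXX0 hz3 hz1 hy2 hE
    ((PP z y).filter (fun q => ∀ t ≤ k * primorial (2 * k), ∀ c ∈ On (hh k) N q, ¬ q ∣ c + t))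
    (filter_subset _ _) (fun q hq => (mem_filter.mp hq).2)
  have hB' := hX₁ X z y N hXX1 hz4 hy3 hXN hN8
  generalize hF : ((Pre (Om2 (hh k) N) z X).filter (fun x =>
    (∀ q ∈ (PP z y).filter (fun q => ∀ t ≤ k * primorial (2 * k), ∀ c ∈ On (hh k) N q, ¬ q ∣ c + t),
      x % q ∉ On (hh k) N q) ∧ m ≤ good k x ∧ bad k x = 0)) = F at hA
  obtain ⟨G, hG⟩ : ∃ G : Finset ℕ, G = (Ioc X (2 * X)).filter (fun x => ∃ q ∈ PP z y,
      (∃ t ≤ k * primorial (2 * k), ∃ c ∈ On (hh k) N q, q ∣ c + t) ∧ x % q ∈ On (hh k) N q) := ⟨_, rfl⟩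
  have hGc : (G.card : ℝ) ≤ X / K ^ (C + 1) := by
    rw [hG]
    refine le_trans (le_of_eq ?_) hB'
    exact congrArg (fun s : Finset ℕ => (s.card : ℝ)) (Finset.filter_congr_decidable _ _ _)
  generalize hT : ((Icc 1 N).filter (fun x => N ≤ 4 * x ∧ 4 * (x + k * primorial (2 * k)) ≤ 3 * N ∧
        m ≤ good k x ∧ bad k x = 0 ∧
        ∀ i : Fin k, ∀ q : ℕ, q.Prime → q ∣ N - (x + hh k i) → N < q ^ r)) = T
  have hsub : F ⊆ T ∪ G := by
    intro x hx
    rw [← hF, mem_filter] at hx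
    obtain ⟨hxP, hxQ, hxg, hxb⟩ := hx
    rw [mem_union]
    by_cases hxG : x ∈ G
    · exact Or.inr hxG
    · left
      have hxI : x ∈ Ioc X (2 * X) := by
        unfold Pre at hxP
        exact (mem_filter.mp hxP).1
      have hxE : ¬ ∃ q ∈ PP z y, (∃ t ≤ k * primorial (2 * k), ∃ c ∈ On (hh k) N q, q ∣ c + t) ∧
          x % q ∈ On (hh k) N q := by
        intro hcon
        apply hxG
        rw [hG, mem_filter]
        exact ⟨hxI, hcon⟩
      obtain ⟨t1, t2, t3, t4⟩ := fin_rough hX hNH (by omega) hNr hxP hxQ hxE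
      rw [← hT, mem_filter]
      exact ⟨t1, t2, t3, hxg, hxb, t4⟩
  have hcard : (F.card : ℝ) ≤ T.card + G.card := by
    exact_mod_cast (card_le_card hsub).trans (card_union_le _ _)
  have hT1 : X / K ^ C - X / K ^ (C + 1) ≤ (T.card : ℝ) := by linarith
  refine le_trans ?_ hT1
  have hNpos : (0 : ℝ) < N := by exact_mod_cast (by omega : 0 < N)
  have hL0 : 0 < Real.log (N : ℝ) := by linarith
  have e1 : X / K ^ (C + 1) ≤ X / K ^ C * (1 / 2) := by
    rw [pow_succ, ← div_div]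
    rw [div_eq_mul_one_div (X / K ^ C) K]
    apply mul_le_mul_of_nonneg_left _ (by positivity)
    apply one_div_le_one_div_of_le (by norm_num) (by linarith)
  have e2 : (N : ℝ) / (Real.log N) ^ (C + 1) ≤ X / K ^ C * (1 / 2) := by
    have h8 : (N : ℝ) ≤ 8 * X := by exact_mod_cast hN8
    have h9 : K ^ (C + 1) ≤ (Real.log (N : ℝ)) ^ (C + 1) := pow_le_pow_left₀ hK0.le hlogN _
    calc (N : ℝ) / (Real.log N) ^ (C + 1) ≤ 8 * X / K ^ (C + 1) :=
          div_le_div₀ (by positivity) h8 (by positivity) h9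
      _ = X / K ^ C * (8 / K) := by
          rw [pow_succ]
          field_simp
      _ ≤ X / K ^ C * (1 / 2) := by
          apply mul_le_mul_of_nonneg_left _ (by positivity)
          rw [div_le_div_iff₀ hK0 (by norm_num)]
          linarith
  linarith

end Pool.Agent.Lib.MTR
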