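import Pool.Agent.Lib.MTR.One2
import Pool.Agent.Lib.MT.Lay2

/-!
# MTR-Fix2: the sum of the weights over primes `x + h m` in classes mod the primes of `d`

PROOF. As `lay2_fix` (MT/Lay2.lean), with `one2` for `layD_one` (for `(σ, τ) ∈ GP L m` we have `L σ, L τ ≠ 0`, so `Av d σ`, `Av d τ` by `hav`).
-/

set_option autoImplicit false

open Finset

namespace Pool.Agent.Lib.MTR

open Pool.Agent.Lib.MT

variable {ι : Type} [Fintype ι] [DecidableEq ι]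

theorem fix2 (z X R : ℕ) (hRX : R ≤ X) (h : ι → ℕ) (m : ι)
    (hij : ∀ p ∈ PP z R, ∀ i j, i ≠ j → ¬ h i ≡ h j [MOD p])
    (Ω : ℕ → Finset ℕ) (d : Finset ℕ) (hd : ∀ p ∈ d, p.Prime)
    (hΩ : ∀ p ∈ d, ∀ c ∈ Ω p, c < p ∧ ¬ p ∣ c + h m) (L : Col (PP z R) ι → ℝ)
    (hav : ∀ σ, L σ ≠ 0 → Av d σ)
    (M : ℝ) (hM : ∀ σ, |L σ| ≤ M)
    (hq : ∀ s ∈ GP L m, (∏ p ∈ d, p) * mod2 s.1 s.2 ≤ X) (E : ℕ → ℝ)
    (hE : ∀ q c, 1 ≤ q → Nat.Coprime c q →
      |BV.EE BV.th (2 * X + h m) q c| + |BV.EE BV.th (X + h m) q c| ≤ E q) :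
    |∑ x ∈ (Ioc X (2 * X)).filter (fun x => ∀ p ∈ d, x % p ∈ Ω p), BV.th (x + h m) * (FF h L x) ^ 2 -
        (∑ n ∈ Ioc (X + h m) (2 * X + h m), BV.th n) * Qf (q2 m) L *
          (∏ p ∈ d, ((Ω p).card : ℝ) / ((p : ℝ) - 1))| ≤
      M ^ 2 * ∑ s ∈ GP L m, (∏ p ∈ d, ((Ω p).card : ℝ)) * E ((∏ p ∈ d, p) * mod2 s.1 s.2) := by
  classical
  have hM0 : 0 ≤ M := (abs_nonneg _).trans (hM fun _ => none)
  have hC0 : 0 ≤ ∏ p ∈ d, ((Ω p).card : ℝ) := prod_nonneg fun p _ => Nat.cast_nonneg _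
  obtain ⟨Θ, hΘ⟩ : ∃ Θ : ℝ, Θ = ∑ n ∈ Ioc (X + h m) (2 * X + h m), BV.th n := ⟨_, rfl⟩
  rw [← hΘ]
  have e1 := layC_exp ((Ioc X (2 * X)).filter (fun x => ∀ p ∈ d, x % p ∈ Ω p))
    (fun x => BV.th (x + h m)) h L
  have e2 : Θ * Qf (q2 m) L * (∏ p ∈ d, ((Ω p).card : ℝ) / ((p : ℝ) - 1)) =
      ∑ σ : Col (PP z R) ι, ∑ τ : Col (PP z R) ι, L σ * L τ *
        (Θ * (∏ p ∈ d, ((Ω p).card : ℝ) / ((p : ℝ) - 1)) *
          ∏ p : {p : ℕ // p ∈ PP z R}, Kmat (q2 m p) (σ p) (τ p)) := by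
    unfold Qf
    rw [mul_sum, sum_mul]
    refine sum_congr rfl fun σ _ => ?_
    rw [mul_sum, sum_mul]
    refine sum_congr rfl fun τ _ => ?_
    ring
  have e3 : M ^ 2 * ∑ s ∈ GP L m, (∏ p ∈ d, ((Ω p).card : ℝ)) * E ((∏ p ∈ d, p) * mod2 s.1 s.2) =
      ∑ σ : Col (PP z R) ι, ∑ τ : Col (PP z R) ι, if (σ, τ) ∈ GP L m then
        M ^ 2 * ((∏ p ∈ d, ((Ω p).card : ℝ)) * E ((∏ p ∈ d, p) * mod2 σ τ)) else 0 := by
    rw [← sum_product' (s := (univ : Finset (Col (PP z R) ι))) (t := (univ : Finset (Col (PP z R) ι)))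
      (f := fun σ τ => if (σ, τ) ∈ GP L m then
        M ^ 2 * ((∏ p ∈ d, ((Ω p).card : ℝ)) * E ((∏ p ∈ d, p) * mod2 σ τ)) else 0),
      univ_product_univ, ← sum_filter, mul_sum]
    refine sum_congr ?_ fun s _ => rfl
    ext s
    simp only [mem_filter, mem_univ, true_and, Prod.mk.eta]
  rw [e1, e2, e3, ← sum_sub_distrib]
  refine (abs_sum_le_sum_abs _ _).trans (sum_le_sum fun σ _ => ?_)
  rw [← sum_sub_distrib]
  refine (abs_sum_le_sum_abs _ _).trans (sum_le_sum fun τ _ => ?_)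
  rw [← mul_sub, abs_mul, abs_mul]
  by_cases hs : (σ, τ) ∈ GP L m
  · rw [if_pos hs]
    have hs' := hs
    unfold GP at hs'
    rw [mem_filter] at hs'
    obtain ⟨-, h1, h2, h3, h4, h5⟩ := hs'
    have key := one2 (lay_prime (z := z) (R := R)) X h m hij Ω d hd hΩ σ τ (hav σ h1) (hav τ h2) h3 h4 h5
      (hq (σ, τ) hs) E hE
    rw [← hΘ] at key
    rw [kmat_q2 lay_prime m σ τ h3 h4 h5, sq]
    exact mul_le_mul (mul_le_mul (hM σ) (hM τ) (abs_nonneg _) hM0) key (abs_nonneg _) (by positivity)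
  · rw [if_neg hs]
    refine le_of_eq ?_
    by_cases hσ : L σ = 0
    · rw [hσ, abs_zero, zero_mul, zero_mul]
    by_cases hτ : L τ = 0
    · rw [hτ, abs_zero, mul_zero, zero_mul]
    have hz2 : ∑ x ∈ ((Ioc X (2 * X)).filter (fun x => ∀ p ∈ d, x % p ∈ Ω p)).filter
          (fun x => Fit h x σ ∧ Fit h x τ), BV.th (x + h m) = 0 ∧
        ∏ p : {p : ℕ // p ∈ PP z R}, Kmat (q2 m p) (σ p) (τ p) = 0 := by
      by_cases hc : ∀ p i j, σ p = some i → τ p = some j → i = j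
      · have hm' : ∃ p, σ p = some m ∨ τ p = some m := by
          by_contra hcon
          push Not at hcon
          refine hs ?_
          unfold GP
          rw [mem_filter]
          exact ⟨mem_univ _, hσ, hτ, hc, fun p => (hcon p).1, fun p => (hcon p).2⟩
        obtain ⟨p, hp⟩ := hm'
        refine ⟨sum_eq_zero fun x hx => ?_, kmat_q2_zero m σ τ p hp⟩
        rw [mem_filter, mem_filter, mem_Ioc] at hx
        refine lay2_th0 fun hpr => ?_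
        have hdvd : (p : ℕ) ∣ x + h m := by
          rcases hp with hp | hp
          · exact hx.2.1 p m hp
          · exact hx.2.2 p m hp
        have hp1 := lay_prime (p : ℕ) p.2
        have h6 := (Nat.prime_dvd_prime_iff_eq hp1 hpr).1 hdvd
        have h7 : (p : ℕ) < R + 1 := mem_range.1 (mem_filter.1 p.2).1
        omega
      · push Not at hc
        obtain ⟨p, i, j, h1, h2, h3⟩ := hc
        refine ⟨?_, kmat_conf _ σ τ p i j h1 h2 h3⟩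
        have h5 : ((Ioc X (2 * X)).filter (fun x => ∀ p ∈ d, x % p ∈ Ω p)).filter
            (fun x => Fit h x σ ∧ Fit h x τ) = ∅ :=
          filter_eq_empty_iff.2 fun x _ => not_fit h x σ τ p i j h1 h2 (hij p p.2 i j h3)
        rw [h5, sum_empty]
    rw [hz2.1, hz2.2, mul_zero, sub_zero, abs_zero, mul_zero]

end Pool.Agent.Lib.MTR
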