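import Pool.Agent.Lib.MTR.Fin
import Pool.Agent.Lib.MT.Runs

/-!
# MTR-Idx: primes with index in a set with bounded gaps, strings of consecutive primes, for every `N`

PROOF. As `runs` (MT/Runs.lean). `H = k primorial(2k)`. For a counted `x` all primes in `(x, x + H]` are of the form `x + hh k i` (`bad k x = 0`) and there are `≥ m` of them (`runs_good`). `every`: `n = π(x)`, `b ∈ (n, n + m]` with `S b`, `p` the `b`-th
prime. `consec`: the first `m` primes after `x` are `nth (n), …, nth (n + m - 1)` with `n = π(x)` (0-based `Nat.nth Nat.Prime`), all in `(x, x + H]`. The maps `x ↦ p`, `x ↦ n` are at most `H`-to-one (`x ∈ [p - H, p)`, `p = nth n`), `H ≤ log N`.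
-/

set_option autoImplicit false

open Finset

namespace Pool.Agent.Lib.MTR

open Pool.Agent.Lib.MT

private theorem idx_pi_le (x : ℕ) : Nat.primeCounting x ≤ x := by
  rw [Nat.primeCounting, Nat.primeCounting', Nat.count_eq_card_filter_range]
  calc ((range (x + 1)).filter Nat.Prime).card ≤ (Ioc 0 x).card := by
        apply card_le_card
        intro p hp
        rw [mem_filter, mem_range] at hp
        rw [mem_Ioc]
        exact ⟨hp.2.pos, by omega⟩
    _ = x := by simp

private theorem idx_hh_pos (k : ℕ) (i : Fin k) : 1 ≤ hh k i := by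
  unfold hh
  exact Nat.mul_pos (Nat.succ_pos _) (primorial_pos _)

private theorem idx_hh_le (k : ℕ) (i : Fin k) : hh k i ≤ k * primorial (2 * k) := by
  unfold hh
  exact Nat.mul_le_mul_right _ i.2

private theorem idx_hh_inj (k : ℕ) (i j : Fin k) (h : hh k i = hh k j) : i = j := by
  unfold hh at h
  have := Nat.eq_of_mul_eq_mul_right (primorial_pos (2 * k)) h
  exact Fin.ext (by omega)

private theorem idx_good (k x : ℕ) :
    Nat.primeCounting x + good k x ≤ Nat.primeCounting (x + k * primorial (2 * k)) := by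
  classical
  unfold Nat.primeCounting Nat.primeCounting'
  rw [Nat.count_eq_card_filter_range, Nat.count_eq_card_filter_range, good]
  have h1 : (univ.filter (fun i : Fin k => (x + hh k i).Prime)).card =
      ((univ.filter (fun i : Fin k => (x + hh k i).Prime)).image (fun i => x + hh k i)).card := by
    rw [card_image_of_injOn]
    intro i _ j _ hij
    simp only [] at hij
    exact idx_hh_inj k i j (by omega)
  rw [h1, ← card_union_of_disjoint]
  · apply card_le_card
    intro p hp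
    rw [mem_union, mem_filter, mem_image, mem_range] at hp
    rw [mem_filter, mem_range]
    rcases hp with hp | ⟨i, hi, rfl⟩
    · exact ⟨by omega, hp.2⟩
    · rw [mem_filter] at hi
      have := idx_hh_le k i
      exact ⟨by omega, hi.2⟩
  · rw [disjoint_left]
    intro p hp hp'
    rw [mem_filter, mem_range] at hp
    rw [mem_image] at hp'
    obtain ⟨i, hi, rfl⟩ := hp'
    have := idx_hh_pos k i
    omega

private theorem idx_pi_nth (b : ℕ) : Nat.primeCounting (Nat.nth Nat.Prime b) = b + 1 := by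
  unfold Nat.primeCounting Nat.primeCounting'
  exact Nat.count_nth_succ_of_infinite Nat.infinite_setOfPred_prime b

/-- the primes after `x` with index up to `π(x) + m` are in the tuple -/
private theorem idx_key {k m x : ℕ} (hg : m ≤ good k x) (hb : bad k x = 0) {b : ℕ}
    (hb1 : Nat.primeCounting x ≤ b) (hb2 : b < Nat.primeCounting x + m) :
    x < Nat.nth Nat.Prime b ∧ Nat.nth Nat.Prime b ≤ x + k * primorial (2 * k) ∧
      ∃ i : Fin k, Nat.nth Nat.Prime b = x + hh k i := by
  have hpp : (Nat.nth Nat.Prime b).Prime := Nat.prime_nth_prime b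
  have hpi := idx_pi_nth b
  have hxp : x < Nat.nth Nat.Prime b := by
    by_contra hcon
    have := Nat.monotone_primeCounting (not_lt.mp hcon)
    omega
  have hpH : Nat.nth Nat.Prime b ≤ x + k * primorial (2 * k) := by
    have h2 := idx_good k x
    have h3 : b < Nat.count Nat.Prime (x + k * primorial (2 * k) + 1) := by
      have h4 : Nat.primeCounting (x + k * primorial (2 * k)) =
        Nat.count Nat.Prime (x + k * primorial (2 * k) + 1) := rfl
      omega
    exact Nat.lt_succ_iff.mp (Nat.nth_lt_of_lt_count h3)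
  refine ⟨hxp, hpH, ?_⟩
  by_contra hcon
  push Not at hcon
  unfold bad at hb
  rw [card_eq_zero] at hb
  have : Nat.nth Nat.Prime b - x ∈ (Icc 1 (k * primorial (2 * k))).filter
      (fun t => (∀ i, t ≠ hh k i) ∧ (x + t).Prime) := by
    rw [mem_filter, mem_Icc]
    refine ⟨⟨by omega, by omega⟩, fun i hti => hcon i (by omega), ?_⟩
    rw [Nat.add_sub_cancel' hxp.le]
    exact hpp
  rw [hb] at this
  exact absurd this (notMem_empty _)

/-- the counting: an at most `H`-to-one map -/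
private theorem idx_count {F G : Finset ℕ} {H C N : ℕ} (hH1 : 1 ≤ H) (hlog : (H : ℝ) ≤ Real.log N)
    (hF : N / (Real.log N) ^ C ≤ (F.card : ℝ)) (f e : ℕ → ℕ) (hf : ∀ x ∈ F, f x ∈ G)
    (he : ∀ x ∈ F, x < e (f x) ∧ e (f x) ≤ x + H) :
    N / (Real.log N) ^ (C + 1) ≤ (G.card : ℝ) := by
  have hcard : F.card ≤ H * G.card := by
    apply card_le_mul_card_image_of_maps_to (f := f) hf
    intro p _
    calc _ ≤ (Ico (e p - H) (e p)).card := by
          apply card_le_card
          intro x hx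
          rw [mem_filter] at hx
          have h5 := he x hx.1
          rw [hx.2] at h5
          rw [mem_Ico]
          omega
      _ ≤ H := by
          rw [Nat.card_Ico]
          omega
  have hcard' : (F.card : ℝ) ≤ (H : ℝ) * G.card := by exact_mod_cast hcard
  have hlog0 : (0 : ℝ) < Real.log N := lt_of_lt_of_le (by exact_mod_cast hH1) hlog
  have h7 := (hF.trans hcard').trans (mul_le_mul_of_nonneg_right hlog (Nat.cast_nonneg _))
  rw [pow_succ, ← div_div, div_le_iff₀ hlog0]
  rw [mul_comm] at h7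
  exact h7

open Classical in
theorem every (m : ℕ) (hm : 1 ≤ m) : ∃ r C N₀ : ℕ, 1 ≤ r ∧ ∀ N : ℕ, N₀ ≤ N → Even N →
    ∀ S : ℕ → Prop, (∀ n ≤ N, ∃ b, n < b ∧ b ≤ n + m ∧ S b) →
    N / (Real.log N) ^ C ≤
      (((range N).filter (fun p => N ≤ 4 * p ∧ 4 * p ≤ 3 * N ∧ p.Prime ∧ S (Nat.primeCounting p) ∧
        ∀ q : ℕ, q.Prime → q ∣ N - p → N < q ^ r)).card : ℝ) := by
  obtain ⟨k, r, C, N₀, hk, hr, h⟩ := rough_strings m hm
  refine ⟨r, C + 1, max N₀ ⌈Real.exp ((k * primorial (2 * k) : ℕ) : ℝ)⌉₊, hr, fun N hN hE S hS => ?_⟩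
  have h1 := h N (le_trans (le_max_left _ _) hN) hE
  have hN2 : Real.exp ((k * primorial (2 * k) : ℕ) : ℝ) ≤ N :=
    le_trans (Nat.le_ceil _) (by exact_mod_cast le_trans (le_max_right _ _) hN)
  have hH1 : 1 ≤ k * primorial (2 * k) := Nat.mul_pos hk (primorial_pos _)
  have hNpos : (0 : ℝ) < N := lt_of_lt_of_le (Real.exp_pos _) hN2
  have hNpos' : 0 < N := by exact_mod_cast hNpos
  have hlog : ((k * primorial (2 * k) : ℕ) : ℝ) ≤ Real.log N := by
    rw [Real.le_log_iff_exp_le hNpos]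
    exact hN2
  generalize hF : ((Icc 1 N).filter (fun x => N ≤ 4 * x ∧ 4 * (x + k * primorial (2 * k)) ≤ 3 * N ∧
        m ≤ good k x ∧ bad k x = 0 ∧
        ∀ i : Fin k, ∀ q : ℕ, q.Prime → q ∣ N - (x + hh k i) → N < q ^ r)) = F at h1
  generalize hG : ((range N).filter (fun p => N ≤ 4 * p ∧ 4 * p ≤ 3 * N ∧ p.Prime ∧
        S (Nat.primeCounting p) ∧ ∀ q : ℕ, q.Prime → q ∣ N - p → N < q ^ r)) = G
  have key : ∀ x ∈ F, ∃ p ∈ G, x < p ∧ p ≤ x + k * primorial (2 * k) := by
    intro x hx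
    rw [← hF, mem_filter, mem_Icc] at hx
    obtain ⟨⟨hx1, hx2⟩, hx3, hx4, hg, hb, hq⟩ := hx
    obtain ⟨b, hb1, hb2, hSb⟩ := hS (Nat.primeCounting x) (le_trans (idx_pi_le x) hx2)
    obtain ⟨b, rfl⟩ : ∃ b', b = b' + 1 := ⟨b - 1, by omega⟩
    obtain ⟨hxp, hpH, i, hi⟩ := idx_key hg hb (b := b) (by omega) (by omega)
    refine ⟨Nat.nth Nat.Prime b, ?_, hxp, hpH⟩
    rw [← hG, mem_filter, mem_range]
    refine ⟨by omega, by omega, by omega, Nat.prime_nth_prime b, ?_, ?_⟩
    · rw [idx_pi_nth]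
      exact hSb
    · intro q hqp hqd
      rw [hi] at hqd
      exact hq i q hqp hqd
  choose! f hf using key
  exact idx_count hH1 hlog h1 f id (fun x hx => (hf x hx).1) (fun x hx => (hf x hx).2)

open Classical in
theorem consec (m : ℕ) (hm : 1 ≤ m) : ∃ r H C N₀ : ℕ, 1 ≤ r ∧ ∀ N : ℕ, N₀ ≤ N → Even N →
    N / (Real.log N) ^ C ≤
      (((range N).filter (fun n => ∀ j < m, Nat.nth Nat.Prime (n + j) ≤ Nat.nth Nat.Prime n + H ∧
          N ≤ 4 * Nat.nth Nat.Prime (n + j) ∧ 4 * Nat.nth Nat.Prime (n + j) ≤ 3 * N ∧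
          ∀ q : ℕ, q.Prime → q ∣ N - Nat.nth Nat.Prime (n + j) → N < q ^ r)).card : ℝ) := by
  obtain ⟨k, r, C, N₀, hk, hr, h⟩ := rough_strings m hm
  refine ⟨r, k * primorial (2 * k), C + 1, max N₀ ⌈Real.exp ((k * primorial (2 * k) : ℕ) : ℝ)⌉₊, hr,
    fun N hN hE => ?_⟩
  have h1 := h N (le_trans (le_max_left _ _) hN) hE
  have hN2 : Real.exp ((k * primorial (2 * k) : ℕ) : ℝ) ≤ N :=
    le_trans (Nat.le_ceil _) (by exact_mod_cast le_trans (le_max_right _ _) hN)
  have hH1 : 1 ≤ k * primorial (2 * k) := Nat.mul_pos hk (primorial_pos _)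
  have hNpos : (0 : ℝ) < N := lt_of_lt_of_le (Real.exp_pos _) hN2
  have hNpos' : 0 < N := by exact_mod_cast hNpos
  have hlog : ((k * primorial (2 * k) : ℕ) : ℝ) ≤ Real.log N := by
    rw [Real.le_log_iff_exp_le hNpos]
    exact hN2
  generalize hF : ((Icc 1 N).filter (fun x => N ≤ 4 * x ∧ 4 * (x + k * primorial (2 * k)) ≤ 3 * N ∧
        m ≤ good k x ∧ bad k x = 0 ∧
        ∀ i : Fin k, ∀ q : ℕ, q.Prime → q ∣ N - (x + hh k i) → N < q ^ r)) = F at h1
  generalize hG : ((range N).filter (fun n => ∀ j < m,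
          Nat.nth Nat.Prime (n + j) ≤ Nat.nth Nat.Prime n + k * primorial (2 * k) ∧
          N ≤ 4 * Nat.nth Nat.Prime (n + j) ∧ 4 * Nat.nth Nat.Prime (n + j) ≤ 3 * N ∧
          ∀ q : ℕ, q.Prime → q ∣ N - Nat.nth Nat.Prime (n + j) → N < q ^ r)) = G
  apply idx_count hH1 hlog h1 Nat.primeCounting (Nat.nth Nat.Prime)
  · intro x hx
    rw [← hF, mem_filter, mem_Icc] at hx
    obtain ⟨⟨hx1, hx2⟩, hx3, hx4, hg, hb, hq⟩ := hx
    have hpx := idx_pi_le x
    rw [← hG, mem_filter, mem_range]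
    refine ⟨by omega, fun j hj => ?_⟩
    obtain ⟨hxp0, -, -⟩ := idx_key hg hb (b := Nat.primeCounting x) le_rfl (by omega)
    obtain ⟨hxp, hpH, i, hi⟩ := idx_key hg hb (b := Nat.primeCounting x + j) (by omega) (by omega)
    refine ⟨by omega, by omega, by omega, ?_⟩
    intro q hqp hqd
    rw [hi] at hqd
    exact hq i q hqp hqd
  · intro x hx
    rw [← hF, mem_filter, mem_Icc] at hx
    obtain ⟨-, -, -, hg, hb, -⟩ := hx
    obtain ⟨hxp, hpH, -⟩ := idx_key hg hb (b := Nat.primeCounting x) le_rfl (by omega)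
    exact ⟨hxp, hpH⟩

end Pool.Agent.Lib.MTR
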