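import Pool.Agent.Lib.MTR.Defs
import Pool.Agent.Lib.MT.LayC

/-!
# MTR-Int1: the sum of the weights over integers in classes mod the primes of `d`

PROOF. As `layC_one`, `layC_int` (MT/LayC.lean), where `d ⊆ PP 0 z` and all primes of `P` are `> z`: this was used only for the coprimality of `∏_{p ∈ d} p` and `mod2 σ τ` (`layC_cop`); now the coprimality
follows from `Av d σ`, `Av d τ` (the primes of `mod2 σ τ` are coloured by `σ` or `τ`, those of `d` are not).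
-/

set_option autoImplicit false

open Finset

namespace Pool.Agent.Lib.MTR

open Pool.Agent.Lib.MT

variable {P : Finset ℕ} {ι : Type} [Fintype ι] [DecidableEq ι]

theorem av_cop (hP : ∀ p ∈ P, p.Prime) (d : Finset ℕ) (hd : ∀ p ∈ d, p.Prime) (σ τ : Col P ι) (hσ : Av d σ)
    (hτ : Av d τ) {p : ℕ} (hp : p ∈ d) : Nat.Coprime p (mod2 σ τ) := by
  unfold mod2
  refine Nat.Coprime.prod_right fun q _ => ?_
  split_ifs with hn
  · exact Nat.coprime_one_right p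
  · refine (Nat.coprime_primes (hd p hp) (hP q q.2)).2 ?_
    intro he
    exact hn ⟨hσ q (he ▸ hp), hτ q (he ▸ hp)⟩

open Classical in
/-- one pair of colourings -/
theorem int1_one (hP : ∀ p ∈ P, p.Prime) (X : ℕ) (h : ι → ℕ)
    (Ω : ℕ → Finset ℕ) (d : Finset ℕ) (hd : ∀ p ∈ d, p.Prime) (hΩ : ∀ p ∈ d, ∀ c ∈ Ω p, c < p)
    (σ τ : Col P ι) (hσ : Av d σ) (hτ : Av d τ) (hc : ∀ p i j, σ p = some i → τ p = some j → i = j) :
    |((((Ioc X (2 * X)).filter (fun x => ∀ p ∈ d, x % p ∈ Ω p)).filter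
          (fun x => Fit h x σ ∧ Fit h x τ)).card : ℝ) -
        X * ((∏ p ∈ d, ((Ω p).card : ℝ) / p) * (1 / (mod2 σ τ : ℝ)))| ≤ ∏ p ∈ d, ((Ω p).card : ℝ) := by
  obtain ⟨b, hb⟩ := crt_pair hP h σ τ hc
  have hM := layC_mod2_pos hP σ τ
  have h1 := Pool.Agent.Lib.MP_092512_nt.P3.B.count_int (k := 1) (fun _ => mod2 σ τ - b % mod2 σ τ)
    (fun _ => mod2 σ τ) (fun _ => hM)
    (fun i j hij => absurd (Subsingleton.elim i j) hij) d hd Ω hΩ
    (fun p hp _ => av_cop hP d hd σ τ hσ hτ hp) X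
  rw [Fin.prod_univ_one] at h1
  have h2 : ((Ioc X (2 * X)).filter (fun x => ∀ p ∈ d, x % p ∈ Ω p)).filter
      (fun x => Fit h x σ ∧ Fit h x τ) = (Ioc X (2 * X)).filter (fun n => (∀ p ∈ d, n % p ∈ Ω p) ∧
        ∀ _i : Fin 1, mod2 σ τ ∣ n + (mod2 σ τ - b % mod2 σ τ)) := by
    rw [filter_filter]
    refine filter_congr fun x _ => ?_
    rw [hb x, layC_shift _ b x hM]
    exact ⟨fun h => ⟨h.1, fun _ => h.2⟩, fun h => ⟨h.1, h.2 0⟩⟩
  rw [h2]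
  exact h1

theorem int1 (hP : ∀ p ∈ P, p.Prime) (X : ℕ) (h : ι → ℕ) (L : Col P ι → ℝ)
    (hL : ∀ σ τ, L σ ≠ 0 → L τ ≠ 0 → ∀ p i j, σ p = some i → τ p = some j → i ≠ j →
      ¬ h i ≡ h j [MOD (p : ℕ)])
    (Ω : ℕ → Finset ℕ) (d : Finset ℕ) (hd : ∀ p ∈ d, p.Prime) (hΩ : ∀ p ∈ d, ∀ c ∈ Ω p, c < p)
    (hav : ∀ σ, L σ ≠ 0 → Av d σ) :
    |∑ x ∈ (Ioc X (2 * X)).filter (fun x => ∀ p ∈ d, x % p ∈ Ω p), (FF h L x) ^ 2 -
        X * (∏ p ∈ d, ((Ω p).card : ℝ) / p) * Qf (q1 (ι := ι)) L| ≤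
      (∏ p ∈ d, ((Ω p).card : ℝ)) * (∑ σ, |L σ|) ^ 2 := by
  classical
  have hC0 : 0 ≤ ∏ p ∈ d, ((Ω p).card : ℝ) := prod_nonneg fun p _ => Nat.cast_nonneg _
  have e1 := layC_exp ((Ioc X (2 * X)).filter (fun x => ∀ p ∈ d, x % p ∈ Ω p)) (fun _ => (1 : ℝ)) h L
  simp only [one_mul] at e1
  have e2 : X * (∏ p ∈ d, ((Ω p).card : ℝ) / p) * Qf (q1 (ι := ι)) L =
      ∑ σ : Col P ι, ∑ τ : Col P ι, L σ * L τ * (X * ((∏ p ∈ d, ((Ω p).card : ℝ) / p) *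
        ∏ p : {p : ℕ // p ∈ P}, Kmat (q1 p) (σ p) (τ p))) := by
    unfold Qf
    rw [mul_sum]
    refine sum_congr rfl fun σ _ => ?_
    rw [mul_sum]
    refine sum_congr rfl fun τ _ => ?_
    ring
  have e3 : (∏ p ∈ d, ((Ω p).card : ℝ)) * (∑ σ, |L σ|) ^ 2 =
      ∑ σ : Col P ι, ∑ τ : Col P ι, |L σ| * |L τ| * ∏ p ∈ d, ((Ω p).card : ℝ) := by
    rw [sq, sum_mul_sum, mul_sum]
    refine sum_congr rfl fun σ _ => ?_
    rw [mul_sum]
    refine sum_congr rfl fun τ _ => ?_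
    ring
  rw [e1, e2, e3, ← sum_sub_distrib]
  refine (abs_sum_le_sum_abs _ _).trans (sum_le_sum fun σ _ => ?_)
  rw [← sum_sub_distrib]
  refine (abs_sum_le_sum_abs _ _).trans (sum_le_sum fun τ _ => ?_)
  rw [← mul_sub, abs_mul, abs_mul]
  by_cases hσ : L σ = 0
  · rw [hσ, abs_zero, zero_mul, zero_mul, zero_mul]
  by_cases hτ : L τ = 0
  · rw [hτ, abs_zero, mul_zero, zero_mul, zero_mul]
  refine mul_le_mul_of_nonneg_left ?_ (by positivity)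
  rw [sum_const, nsmul_eq_mul, mul_one]
  by_cases hc : ∀ p i j, σ p = some i → τ p = some j → i = j
  · rw [kmat_q1 σ τ hc]
    exact int1_one hP X h Ω d hd hΩ σ τ (hav σ hσ) (hav τ hτ) hc
  · push Not at hc
    obtain ⟨p, i, j, h1, h2, h3⟩ := hc
    have h4 := hL σ τ hσ hτ p i j h1 h2 h3
    rw [kmat_conf _ σ τ p i j h1 h2 h3, mul_zero, mul_zero, sub_zero]
    have h5 : ((Ioc X (2 * X)).filter (fun x => ∀ p ∈ d, x % p ∈ Ω p)).filter
        (fun x => Fit h x σ ∧ Fit h x τ) = ∅ :=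
      filter_eq_empty_iff.2 fun x _ => not_fit h x σ τ p i j h1 h2 h4
    rw [h5, card_empty, Nat.cast_zero, abs_zero]
    exact hC0

end Pool.Agent.Lib.MTR
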