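import Pool.Agent.Lib.MTR.Defs

/-!
# MTR-RsF: restriction does not change `FF` at the sifted points

PROOF. If `σ` fits `x`, `σ p = some i` and `p ∈ d`, then `p ∣ x + h i` and `c = x % p ∈ Ω p` has `p ∣ c + h i`: excluded. So every `σ` fitting `x` has `Av d σ`.
-/

set_option autoImplicit false

open Finset

namespace Pool.Agent.Lib.MTR

open Pool.Agent.Lib.MT

variable {P : Finset ℕ} {ι : Type} [Fintype ι] [DecidableEq ι]

omit [DecidableEq ι] in
theorem rs_FF (h : ι → ℕ) (L : Col P ι → ℝ) (Ω : ℕ → Finset ℕ) (d : Finset ℕ)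
    (hΩ : ∀ q ∈ d, ∀ i, ∀ c ∈ Ω q, ¬ q ∣ c + h i) (x : ℕ) (hx : ∀ q ∈ d, x % q ∈ Ω q) :
    FF h (rs d L) x = FF h L x := by
  classical
  unfold FF
  refine sum_congr rfl fun σ hσ => ?_
  have hfit : Fit h x σ := (mem_filter.1 hσ).2
  have hav : Av d σ := by
    intro p hp
    by_contra hne
    obtain ⟨i, hi⟩ := Option.ne_none_iff_exists'.1 hne
    refine hΩ p hp i _ (hx p hp) ?_
    have h1 := hfit p i hi
    have h2 : (x % (p : ℕ) + h i) ≡ (x + h i) [MOD (p : ℕ)] := (Nat.mod_modEq x p).add_right (h i)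
    exact (h2.dvd_iff dvd_rfl).2 h1
  unfold rs
  rw [if_pos hav]

end Pool.Agent.Lib.MTR
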