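import Pool.Agent.Lib.MTR.RsN
import Pool.Agent.Lib.MTR.RsF
import Pool.Agent.Lib.MTR.Int1
import Pool.Agent.Lib.MTR.Abs
import Pool.Agent.Lib.MTR.Dsum
import Pool.Agent.Lib.MT.Lay1

/-!
# MTR-L1S: the sum of the sifted weights over the presieved `x`

PROOF. As `layer1` (MT/Lay1.lean). `w x = Lm D c Ω x * (FF h L x)^2`, `|w x| ≤ |D| (log X)^2 X^(c0/4) ≤ X^(c0/2)` (`dcard`, `δ ≤ c0/16`, `layA_FF`). Truncation (`layB_trunc`, `m` from `layB_param K B (1/20)`):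
`∑_{Pre} w = ∑_{d₀ ⊆ PP 0 z, |d₀| ≤ m} (-1)^|d₀| ∑_{x, x % p ∈ Ω p (p ∈ d₀)} w x + O(X^(1 - c0/2))`, and `∑_{x : d₀} w x = ∑_{d ∈ D} c d S d₀ d` with
`S d₀ d = ∑_{x, x % p ∈ Ω p (p ∈ d₀ ∪ d)} (FF h L x)^2 = ∑_{same x} (FF h (rs d L) x)^2` (`rs_FF`). `int1` for `d₀ ∪ d` and `rs d L` (`rs_ne`: `Av d σ`; the primes of `PP z R` are `> z`, those of `d₀` are `≤ z`, so `Av (d₀ ∪ d) σ`):
main term `X ∏_{d₀} |Ω p|/p ∏_d |Ω q|/q Qf q1 (rs d L)` (disjoint union), error `∏_{d₀} |Ω p| ∏_{q ∈ d} q (∑ |L|)^2`, `∏_{q ∈ d} q ≤ X^δ`.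
`absum` with `T` = the `d₀`, `Y = X`, `G₀ d₀ = ∏ |Ω p|/p`, `G₁ d = ∏_d d1 Ω q`, `q d = Qf q1 (rs d L)`, `q₀ = Qf q1 L`, `η = 2 log X (log X)^C/z` (`rs_num`, `dnum`), `M = (log X)^2`; `layB_V` for the sum of `± G₀` (`|V1 ± X^(-c)| ≤ 2`), `layB_low` for
`∑_{d₀} ∏ |Ω p| ≤ X^(1/20)`, `dsum` for `∑ G₁ ≤ (C' log X)^K`. The `η`-error is `≤ X (log X)^(C + K + 5)/z · const ≤ X/(4 (log X)^A)` if `z ≥ (log X)^C₁`, `C₁ = A + C + K + 7`.
Everything else is `O(X^(1-c'))`.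
-/

set_option autoImplicit false

open Finset

namespace Pool.Agent.Lib.MTR

open Pool.Agent.Lib.MT

theorem l1s_tri {A S G Q V1' AV e1 e2 e3 X : ℝ} (h1 : |A - S| ≤ e1) (h2 : |S - X * AV * G * Q| ≤ e2)
    (h3 : |AV - V1'| ≤ e3) (hX : 0 ≤ X) : |A - X * V1' * G * Q| ≤ e1 + e2 + X * e3 * |G| * |Q| := by
  have e : A - X * V1' * G * Q = (A - S) + (S - X * AV * G * Q) + X * (AV - V1') * G * Q := by ring
  have h4 : |X * (AV - V1') * G * Q| ≤ X * e3 * |G| * |Q| := by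
    rw [abs_mul, abs_mul, abs_mul, abs_of_nonneg hX]
    exact mul_le_mul_of_nonneg_right (mul_le_mul_of_nonneg_right
      (mul_le_mul_of_nonneg_left h3 hX) (abs_nonneg _)) (abs_nonneg _)
  rw [e]
  refine (abs_add_le _ _).trans (add_le_add ((abs_add_le _ _).trans (add_le_add h1 h2)) h4)

theorem l1s_split (X : ℕ) (D : Finset (Finset ℕ)) (c : Finset ℕ → ℝ) (Ω : ℕ → Finset ℕ)
    (d₀ : Finset ℕ) (F : ℕ → ℝ) :
    ∑ x ∈ (Ioc X (2 * X)).filter (fun x => ∀ p ∈ d₀, x % p ∈ Ω p), Lm D c Ω x * F x =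
      ∑ d ∈ D, c d * ∑ x ∈ (Ioc X (2 * X)).filter (fun x => ∀ p ∈ d₀ ∪ d, x % p ∈ Ω p), F x := by
  unfold Lm
  have h1 : ∀ x, (∑ d ∈ D, c d * (if ∀ q ∈ d, x % q ∈ Ω q then (1 : ℝ) else 0)) * F x =
      ∑ d ∈ D, c d * (if ∀ q ∈ d, x % q ∈ Ω q then F x else 0) := by
    intro x
    rw [sum_mul]
    refine sum_congr rfl fun d _ => ?_
    split_ifs <;> ring
  rw [sum_congr rfl fun x _ => h1 x, sum_comm]
  refine sum_congr rfl fun d _ => ?_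
  rw [← mul_sum, ← sum_filter, filter_filter]
  congr 1
  refine sum_congr ?_ fun _ _ => rfl
  refine filter_congr fun x _ => ?_
  constructor
  · rintro ⟨h2, h3⟩ p hp
    rcases mem_union.1 hp with h | h
    · exact h2 p h
    · exact h3 p h
  · intro h2
    exact ⟨fun p hp => h2 p (mem_union_left _ hp), fun p hp => h2 p (mem_union_right _ hp)⟩

theorem l1s_Lm {D : Finset (Finset ℕ)} {c : Finset ℕ → ℝ} {M : ℝ} (hM : 0 ≤ M)
    (hc : ∀ d ∈ D, |c d| ≤ M) (Ω : ℕ → Finset ℕ) (x : ℕ) : |Lm D c Ω x| ≤ D.card * M := by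
  unfold Lm
  refine (abs_sum_le_sum_abs _ _).trans ?_
  rw [← nsmul_eq_mul]
  refine sum_le_card_nsmul _ _ _ fun d hd => ?_
  rw [abs_mul]
  refine (mul_le_of_le_one_right (abs_nonneg _) ?_).trans (hc d hd)
  split_ifs <;> simp

theorem l1s_Gm {D : Finset (Finset ℕ)} {c : Finset ℕ → ℝ} {M : ℝ}
    (hc : ∀ d ∈ D, |c d| ≤ M) (g : ℕ → ℝ) (hg : ∀ d ∈ D, ∀ q ∈ d, 0 ≤ g q) :
    |Gm D c g| ≤ M * ∑ d ∈ D, ∏ q ∈ d, g q := by
  unfold Gm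
  refine (abs_sum_le_sum_abs _ _).trans ?_
  rw [mul_sum]
  refine sum_le_sum fun d hd => ?_
  have h0 : 0 ≤ ∏ q ∈ d, g q := prod_nonneg fun q hq => hg d hd q hq
  rw [abs_mul, abs_of_nonneg h0]
  exact mul_le_mul_of_nonneg_right (hc d hd) h0

theorem l1s_card {Ω : ℕ → Finset ℕ} {p : ℕ} (h : ∀ c ∈ Ω p, c < p) : (Ω p).card ≤ p := by
  calc (Ω p).card ≤ (range p).card := card_le_card fun c hc => mem_range.2 (h c hc)
    _ = p := card_range p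

theorem l1s_rs {z R : ℕ} {ι : Type} {d : Finset ℕ} {L : Col (PP z R) ι → ℝ} {σ : Col (PP z R) ι}
    (h : rs d L σ ≠ 0) : Av d σ ∧ L σ ≠ 0 := by
  unfold rs at h
  split_ifs at h with h1
  · exact ⟨h1, h⟩
  · exact absurd rfl h

theorem l1s_av {z R : ℕ} {ι : Type} {d d₀ : Finset ℕ} (hd₀ : d₀ ⊆ PP 0 z) {σ : Col (PP z R) ι}
    (h : Av d σ) : Av (d₀ ∪ d) σ := by
  intro p hp
  rcases mem_union.1 hp with h1 | h1
  · exfalso
    have h2 := lay_gt (p : ℕ) p.2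
    have h3 := mem_range.1 (mem_filter.1 (hd₀ h1)).1
    omega
  · exact h p h1

theorem l1s_disj {z : ℕ} {d d₀ : Finset ℕ} (hd₀ : d₀ ⊆ PP 0 z) (hd : ∀ q ∈ d, z < q) :
    Disjoint d₀ d := by
  rw [disjoint_left]
  intro p h1 h2
  have h3 := mem_range.1 (mem_filter.1 (hd₀ h1)).1
  have h4 := hd p h2
  omega

theorem l1s_log (M : ℝ) : ∃ X₀ : ℕ, ∀ X : ℕ, X₀ ≤ X → M ≤ Real.log X :=
  Filter.eventually_atTop.1 ((Real.tendsto_log_atTop.comp tendsto_natCast_atTop_atTop).eventually_ge_atTop _)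

theorem l1s_V1 {z : ℕ} {Ω : ℕ → Finset ℕ} (hΩ : ∀ p, p.Prime → ∀ c ∈ Ω p, c < p) :
    |V1 Ω z| ≤ 1 := by
  unfold V1
  have h1 : ∀ p ∈ PP 0 z, 0 ≤ 1 - ((Ω p).card : ℝ) / p ∧ 1 - ((Ω p).card : ℝ) / p ≤ 1 := by
    intro p hp
    have hpp := lay_prime p hp
    have hp0 : (0 : ℝ) < p := by exact_mod_cast hpp.pos
    have h2 : ((Ω p).card : ℝ) ≤ p := by exact_mod_cast l1s_card (hΩ p hpp)
    have h3 : ((Ω p).card : ℝ) / p ≤ 1 := by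
      rw [div_le_one hp0]
      exact h2
    have h4 : 0 ≤ ((Ω p).card : ℝ) / p := by positivity
    constructor <;> linarith
  rw [abs_of_nonneg (prod_nonneg fun p hp => (h1 p hp).1)]
  exact prod_le_one (fun p hp => (h1 p hp).1) fun p hp => (h1 p hp).2

theorem layer1s (ι : Type) [Fintype ι] [DecidableEq ι] (K A : ℕ) : ∃ C₁ : ℕ, ∀ B : ℕ, ∃ δ : ℝ, 0 < δ ∧
    ∃ X₀ : ℕ, ∀ X z R Q : ℕ, X₀ ≤ X → (Real.log X) ^ C₁ ≤ z → (z : ℝ) ≤ (Real.log X) ^ B →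
    (R : ℝ) ≤ (X : ℝ) ^ (1 / 5 : ℝ) → (Q : ℝ) ≤ (X : ℝ) ^ (2 / 5 : ℝ) →
    ∀ Ω : ℕ → Finset ℕ, (∀ p, (Ω p).card ≤ K) → (∀ p, p.Prime → ∀ c ∈ Ω p, c < p) →
    ∀ h : ι → ℕ, (∀ i, h i ≤ X) →
    ∀ D : Finset (Finset ℕ), (∀ d ∈ D, ∀ q ∈ d, q.Prime ∧ z < q) →
    (∀ d ∈ D, ((∏ q ∈ d, q : ℕ) : ℝ) ≤ (X : ℝ) ^ δ) →
    (∀ d ∈ D, ∀ q ∈ d, ∀ i, ∀ c ∈ Ω q, ¬ q ∣ c + h i) →
    ∀ c : Finset ℕ → ℝ, (∀ d ∈ D, |c d| ≤ (Real.log X) ^ 2) →
    ∀ L : Col (PP z R) ι → ℝ,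
    (∀ σ, |L σ| ≤ ∏ p : {p : ℕ // p ∈ PP z R}, (1 + (Fintype.card ι : ℝ) / ((p : ℕ) : ℝ))) →
    (∀ σ, L σ ≠ 0 → tot σ ≤ Q) →
    (∀ σ τ, L σ ≠ 0 → L τ ≠ 0 → ∀ p i j, σ p = some i → τ p = some j → i ≠ j →
      ¬ h i ≡ h j [MOD (p : ℕ)]) →
    |∑ x ∈ Pre Ω z X, Lm D c Ω x * (FF h L x) ^ 2 -
        X * V1 Ω z * Gm D c (d1 Ω) * Qf (q1 (ι := ι)) L| ≤ X / (Real.log X) ^ A := by
  classical
  set k := Fintype.card ι with hk
  obtain ⟨C2, Xn, hnum⟩ := rs_num ι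
  obtain ⟨C', hC', hds⟩ := dsum K
  obtain ⟨C, hC, hprod⟩ := layA_prod k
  refine ⟨A + C2 + K + 4, fun B => ?_⟩
  obtain ⟨c0, hc0, X1, h1⟩ := layB_param K B (1 / 20) (by norm_num)
  obtain ⟨c1, hc1, hc10, hc1'⟩ : ∃ c1 : ℝ, 0 < c1 ∧ c1 ≤ c0 ∧ c1 ≤ 1 / 20 :=
    ⟨min c0 (1 / 20), lt_min hc0 (by norm_num), min_le_left _ _, min_le_right _ _⟩
  obtain ⟨X2, h2⟩ := layA_FF ι (c1 / 8) (by positivity)
  obtain ⟨X3, h3⟩ := Pool.Agent.Lib.MP_092512_nt.P3.B.ev_pow (C ^ (4 * k)) (1 / 20) (by norm_num) (4 * k)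
  obtain ⟨X4, h4⟩ := Pool.Agent.Lib.MP_092512_nt.P3.B.ev_pow 8 (c1 / 2) (by positivity) (A + 2)
  obtain ⟨X5, h5⟩ := Pool.Agent.Lib.MP_092512_nt.P3.B.ev_pow 4 (1 / 20) (by norm_num) (A + 2)
  obtain ⟨X6, h6⟩ := Pool.Agent.Lib.MP_092512_nt.P3.B.ev_pow (4 * C' ^ K) c0 hc0 (A + 2 + K + C2)
  obtain ⟨X7, h7⟩ := l1s_log (max 1 (16 * C' ^ K))
  refine ⟨c1 / 16, by positivity, X1 + X2 + X3 + X4 + X5 + X6 + X7 + Xn + 3,
    fun X z R Q hX hzl hz hR hQ Ω hK hΩ h hh D hD hDX hDh c hc L hL hLQ hLc => ?_⟩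
  have hX3 : 3 ≤ X := by omega
  have hX1 : (1 : ℝ) ≤ X := by
    have : 1 ≤ X := by omega
    exact_mod_cast this
  have hX0 : (0 : ℝ) < X := by linarith
  have hl1 : 1 ≤ Real.log X := le_trans (le_max_left _ _) (h7 X (by omega))
  have hlC : 16 * C' ^ K ≤ Real.log X := le_trans (le_max_right _ _) (h7 X (by omega))
  obtain ⟨l, hl⟩ : ∃ l : ℝ, l = Real.log X := ⟨_, rfl⟩
  have hl0 : 0 < l := by rw [hl]; linarith
  have hl1' : 1 ≤ l := by rw [hl]; exact hl1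
  have hC'0 : 0 < C' := by linarith
  have hz1 : (1 : ℝ) ≤ z := (one_le_pow₀ hl1).trans hzl
  have hz0 : (0 : ℝ) < z := by linarith
  have hz1' : 1 ≤ z := by exact_mod_cast hz1
  have hRX : R ≤ X := by
    have h8 : (R : ℝ) ≤ X := by
      refine hR.trans ?_
      calc (X : ℝ) ^ (1 / 5 : ℝ) ≤ (X : ℝ) ^ (1 : ℝ) := Real.rpow_le_rpow_of_exponent_le hX1 (by norm_num)
        _ = X := Real.rpow_one _
    exact_mod_cast h8
  obtain ⟨m, hm⟩ := h1 X z (by omega) hz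
  obtain ⟨M0, hM0⟩ : ∃ M0 : ℝ, M0 = ∏ p : {p : ℕ // p ∈ PP z R}, (1 + (k : ℝ) / ((p : ℕ) : ℝ)) :=
    ⟨_, rfl⟩
  have hL' : ∀ σ, |L σ| ≤ M0 := by
    rw [hM0]
    exact hL
  have hM00 : 0 ≤ M0 := (abs_nonneg _).trans (hL' fun _ => none)
  have hM0C : M0 ≤ (C * (1 + Real.log X)) ^ k := by
    rw [hM0]
    refine (hprod X z R hX3 hRX).trans (pow_le_pow_left₀ (by positivity) ?_ k)
    exact mul_le_mul_of_nonneg_left (by linarith) (by linarith)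
  have hS := layA_sum (fun p hp => (lay_prime p hp).one_le) L M0 hM0 hL' Q hLQ
  have hS' : ∑ σ, |L σ| ≤ (X : ℝ) ^ (2 / 5 : ℝ) * ((C * (1 + Real.log X)) ^ k) ^ 2 := by
    refine hS.trans (mul_le_mul hQ (pow_le_pow_left₀ hM00 hM0C 2) (by positivity) (by positivity))
  obtain ⟨n1, -, n2⟩ := hnum X z R (by omega) hRX hz1' L hL
  -- the family
  have hDp : ∀ d ∈ D, ∀ q ∈ d, q.Prime := fun d hd q hq => (hD d hd q hq).1
  have hDY : ∀ d ∈ D, ∏ q ∈ d, q ≤ ⌊(X : ℝ) ^ (c1 / 16)⌋₊ := fun d hd => Nat.le_floor (hDX d hd)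
  have hYr : ((⌊(X : ℝ) ^ (c1 / 16)⌋₊ : ℕ) : ℝ) ≤ (X : ℝ) ^ (c1 / 16) := Nat.floor_le (by positivity)
  have hDcard : (D.card : ℝ) ≤ (X : ℝ) ^ (c1 / 16) := by
    have h8 := (dcard D _ hDp hDY).1
    refine le_trans ?_ hYr
    exact_mod_cast h8
  have hDX' : ∀ d ∈ D, ∏ q ∈ d, q ≤ X := by
    intro d hd
    have h8 : ((∏ q ∈ d, q : ℕ) : ℝ) ≤ X := by
      refine (hDX d hd).trans ?_
      calc (X : ℝ) ^ (c1 / 16) ≤ (X : ℝ) ^ (1 : ℝ) :=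
            Real.rpow_le_rpow_of_exponent_le hX1 (by linarith)
        _ = X := Real.rpow_one _
    exact_mod_cast h8
  have hDn := dnum D X (by omega) hDp hDX'
  have hd1 : ∀ d ∈ D, ∀ q ∈ d, 0 ≤ d1 Ω q ∧ d1 Ω q ≤ (K : ℝ) / q := by
    intro d hd q hq
    have hq0 : (0 : ℝ) < q := by exact_mod_cast (hDp d hd q hq).pos
    unfold d1
    refine ⟨by positivity, ?_⟩
    have : ((Ω q).card : ℝ) ≤ K := by exact_mod_cast hK q
    gcongr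
  have hDs := hds X D (d1 Ω) hX3 hDp hDX' hd1
  -- truncation
  have hw : ∀ x ∈ Ioc X (2 * X), |Lm D c Ω x * (FF h L x) ^ 2| ≤
      (X : ℝ) ^ (c1 / 16) * l ^ 2 * (X : ℝ) ^ (c1 / 4) := by
    intro x hx
    have h8 := h2 X z R (by omega) hRX h hh L hL x hx
    have h9 := l1s_Lm (M := Real.log X ^ 2) (by positivity) hc Ω x
    rw [abs_mul, abs_pow]
    refine mul_le_mul ?_ ?_ (by positivity) (by positivity)
    · refine h9.trans ?_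
      rw [hl]
      exact mul_le_mul_of_nonneg_right hDcard (by positivity)
    · calc |FF h L x| ^ 2 ≤ ((X : ℝ) ^ (c1 / 8)) ^ 2 := pow_le_pow_left₀ (abs_nonneg _) h8 2
        _ = (X : ℝ) ^ (c1 / 4) := by
            rw [← Real.rpow_natCast, ← Real.rpow_mul hX0.le]
            congr 1
            push_cast
            ring
  have t1 := layB_trunc (by omega) (by norm_num) hm Ω hK (fun p hp => hΩ p (lay_prime p hp))
    (fun x => Lm D c Ω x * (FF h L x) ^ 2) ((X : ℝ) ^ (c1 / 16) * l ^ 2 * (X : ℝ) ^ (c1 / 4))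
    (by positivity) hw
  have t1s : ∀ d₀ : Finset ℕ, ∑ x ∈ (Ioc X (2 * X)).filter (fun x => ∀ p ∈ d₀, x % p ∈ Ω p),
      Lm D c Ω x * (FF h L x) ^ 2 = ∑ d ∈ D, c d *
        ∑ x ∈ (Ioc X (2 * X)).filter (fun x => ∀ p ∈ d₀ ∪ d, x % p ∈ Ω p), (FF h L x) ^ 2 :=
    fun d₀ => l1s_split X D c Ω d₀ (fun x => (FF h L x) ^ 2)
  simp only [t1s] at t1
  -- fixed moduli
  have hLs : ∀ d, ∑ σ, |rs d L σ| ≤ ∑ σ, |L σ| := by
    intro d
    refine sum_le_sum fun σ _ => ?_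
    unfold rs
    split_ifs
    · exact le_rfl
    · rw [abs_zero]
      exact abs_nonneg _
  have hLs0 : 0 ≤ ∑ σ, |L σ| := sum_nonneg fun σ _ => abs_nonneg _
  have t2 := absum ((PP 0 z).powerset.filter (fun d => d.card ≤ m)) D c (l ^ 2) (by positivity)
    (by rw [hl]; exact hc)
    (fun d₀ d => ∑ x ∈ (Ioc X (2 * X)).filter (fun x => ∀ p ∈ d₀ ∪ d, x % p ∈ Ω p), (FF h L x) ^ 2)
    (fun d₀ _ => (∏ p ∈ d₀, ((Ω p).card : ℝ)) * ((X : ℝ) ^ (c1 / 16) * (∑ σ, |L σ|) ^ 2))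
    (fun d₀ => ∏ p ∈ d₀, ((Ω p).card : ℝ) / p) (fun d => ∏ q ∈ d, d1 Ω q)
    (fun d => Qf (q1 (ι := ι)) (rs d L)) X (Qf (q1 (ι := ι)) L) (2 * l * l ^ C2 / z) hX0.le
    (fun d₀ hd₀ d hd => by
      have hd₀z := mem_powerset.1 (mem_filter.1 hd₀).1
      have hdis := l1s_disj hd₀z fun q hq => (hD d hd q hq).2
      have hpr : ∀ p ∈ d₀ ∪ d, p.Prime := by
        intro p hp
        rcases mem_union.1 hp with h8 | h8
        · exact lay_prime p (hd₀z h8)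
        · exact hDp d hd p h8
      have h8 := int1 (lay_prime (z := z) (R := R)) X h (rs d L)
        (fun σ τ h9 h10 => hLc σ τ (l1s_rs h9).2 (l1s_rs h10).2) Ω (d₀ ∪ d) hpr
        (fun p hp => hΩ p (hpr p hp)) (fun σ h9 => l1s_av hd₀z (l1s_rs h9).1)
      have h9 : ∑ x ∈ (Ioc X (2 * X)).filter (fun x => ∀ p ∈ d₀ ∪ d, x % p ∈ Ω p),
          (FF h (rs d L) x) ^ 2 =
          ∑ x ∈ (Ioc X (2 * X)).filter (fun x => ∀ p ∈ d₀ ∪ d, x % p ∈ Ω p), (FF h L x) ^ 2 := by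
        refine sum_congr rfl fun x hx => ?_
        rw [rs_FF h L Ω d (hDh d hd) x
          (fun q hq => (mem_filter.1 hx).2 q (mem_union_right _ hq))]
      rw [h9, prod_union hdis, prod_union hdis] at h8
      refine le_trans h8 ?_
      rw [mul_assoc]
      refine mul_le_mul_of_nonneg_left ?_ (prod_nonneg fun p _ => Nat.cast_nonneg _)
      refine mul_le_mul ?_ (pow_le_pow_left₀ (sum_nonneg fun σ _ => abs_nonneg _) (hLs d) 2)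
        (by positivity) (by positivity)
      refine le_trans ?_ (hDX d hd)
      push_cast
      refine prod_le_prod (fun p _ => Nat.cast_nonneg _) fun p hp => ?_
      exact_mod_cast l1s_card (hΩ p (hDp d hd p hp)))
    (fun d hd => by
      refine ((n2 d).1).trans ?_
      rw [hl]
      have h8 := hDn d hd
      gcongr)
    (fun d hd => prod_nonneg fun q hq => (hd1 d hd q hq).1)
  obtain ⟨G0, hG0⟩ : ∃ G0 : ℝ, G0 = ∑ d ∈ (PP 0 z).powerset.filter (fun d => d.card ≤ m),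
    ((-1 : ℝ) ^ d.card * ∏ p ∈ d, ((Ω p).card : ℝ) / p) := ⟨_, rfl⟩
  have t3 := (layB_V hm Ω hK).1
  have t4 := layB_low (by omega) hm Ω hK
  rw [← hG0] at t2 t3
  have hGm : ∑ d ∈ D, c d * ∏ q ∈ d, d1 Ω q = Gm D c (d1 Ω) := rfl
  rw [hGm] at t2
  refine (l1s_tri t1 t2 t3 hX0.le).trans ?_
  -- numbers
  have hV1 := l1s_V1 (z := z) hΩ
  have hXc : (X : ℝ) ^ (-c0) ≤ 1 := Real.rpow_le_one_of_one_le_of_nonpos hX1 (by linarith)
  have hG0' : |G0| ≤ 2 := by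
    have h8 : G0 = (G0 - V1 Ω z) + V1 Ω z := by ring
    rw [h8]
    refine (abs_add_le _ _).trans ?_
    linarith
  have hlA : 0 < l ^ A := by positivity
  have hpl : ∀ n : ℕ, l ^ n ≤ (1 + Real.log X) ^ n := fun n => by
    rw [← hl]
    exact pow_le_pow_left₀ hl0.le (by linarith) n
  -- e1
  have e1 : 2 * ((X : ℝ) ^ (c1 / 16) * l ^ 2 * (X : ℝ) ^ (c1 / 4)) * X * (X : ℝ) ^ (-c0) ≤
      X / (4 * l ^ A) := by
    rw [le_div_iff₀ (by positivity)]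
    have h8 := h4 X (by omega)
    calc 2 * ((X : ℝ) ^ (c1 / 16) * l ^ 2 * (X : ℝ) ^ (c1 / 4)) * X * (X : ℝ) ^ (-c0) * (4 * l ^ A)
        = (8 * l ^ (A + 2)) * ((X : ℝ) ^ (c1 / 16) * (X : ℝ) ^ (c1 / 4) * X * (X : ℝ) ^ (-c0)) := by
          rw [pow_add]
          ring
      _ ≤ (X : ℝ) ^ (c1 / 2) * ((X : ℝ) ^ (c1 / 16) * (X : ℝ) ^ (c1 / 4) * X * (X : ℝ) ^ (-c0)) := by
          refine mul_le_mul_of_nonneg_right (le_trans ?_ h8) (by positivity)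
          exact mul_le_mul_of_nonneg_left (hpl _) (by norm_num)
      _ = (X : ℝ) ^ (c1 / 2 + (c1 / 16 + c1 / 4 + 1 + -c0)) := by
          rw [Real.rpow_add hX0, Real.rpow_add hX0, Real.rpow_add hX0, Real.rpow_add hX0,
            Real.rpow_one]
      _ ≤ (X : ℝ) ^ (1 : ℝ) := Real.rpow_le_rpow_of_exponent_le hX1 (by linarith)
      _ = X := Real.rpow_one _
  -- e2
  have e2 : l ^ 2 * ∑ d₀ ∈ (PP 0 z).powerset.filter (fun d => d.card ≤ m), ∑ _d ∈ D,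
      (∏ p ∈ d₀, ((Ω p).card : ℝ)) * ((X : ℝ) ^ (c1 / 16) * (∑ σ, |L σ|) ^ 2) ≤
      X / (4 * l ^ A) := by
    have h8 : ∑ d₀ ∈ (PP 0 z).powerset.filter (fun d => d.card ≤ m), ∑ _d ∈ D,
        (∏ p ∈ d₀, ((Ω p).card : ℝ)) * ((X : ℝ) ^ (c1 / 16) * (∑ σ, |L σ|) ^ 2) =
        (∑ d₀ ∈ (PP 0 z).powerset.filter (fun d => d.card ≤ m), ∏ p ∈ d₀, ((Ω p).card : ℝ)) *
          (D.card * ((X : ℝ) ^ (c1 / 16) * (∑ σ, |L σ|) ^ 2)) := by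
      rw [sum_mul]
      refine sum_congr rfl fun d₀ _ => ?_
      rw [sum_const, nsmul_eq_mul]
      ring
    rw [h8]
    have h9 : (∑ σ, |L σ|) ^ 2 ≤ (X : ℝ) ^ (4 / 5 : ℝ) * (X : ℝ) ^ (1 / 20 : ℝ) := by
      have h10 := h3 X (by omega)
      have h11 : (∑ σ, |L σ|) ^ 2 ≤ ((X : ℝ) ^ (2 / 5 : ℝ) * ((C * (1 + Real.log X)) ^ k) ^ 2) ^ 2 :=
        pow_le_pow_left₀ hLs0 hS' 2
      have h12 : ((X : ℝ) ^ (2 / 5 : ℝ) * ((C * (1 + Real.log X)) ^ k) ^ 2) ^ 2 =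
          (X : ℝ) ^ (4 / 5 : ℝ) * (C ^ (4 * k) * (1 + Real.log X) ^ (4 * k)) := by
        rw [mul_pow, ← Real.rpow_natCast, ← Real.rpow_mul hX0.le, ← pow_mul, ← pow_mul, mul_pow]
        have e1 : k * (2 * 2) = 4 * k := by ring
        rw [e1]
        congr 2
        push_cast
        norm_num
      rw [h12] at h11
      exact h11.trans (mul_le_mul_of_nonneg_left h10 (by positivity))
    rw [le_div_iff₀ (by positivity)]
    have h10 := h5 X (by omega)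
    calc l ^ 2 * ((∑ d₀ ∈ (PP 0 z).powerset.filter (fun d => d.card ≤ m),
          ∏ p ∈ d₀, ((Ω p).card : ℝ)) * (D.card * ((X : ℝ) ^ (c1 / 16) * (∑ σ, |L σ|) ^ 2))) *
          (4 * l ^ A)
        ≤ l ^ 2 * ((X : ℝ) ^ (1 / 20 : ℝ) * ((X : ℝ) ^ (c1 / 16) * ((X : ℝ) ^ (c1 / 16) *
          ((X : ℝ) ^ (4 / 5 : ℝ) * (X : ℝ) ^ (1 / 20 : ℝ))))) * (4 * l ^ A) := by
          gcongr
      _ = (4 * l ^ (A + 2)) * ((X : ℝ) ^ (1 / 20 : ℝ) * ((X : ℝ) ^ (c1 / 16) *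
          ((X : ℝ) ^ (c1 / 16) * ((X : ℝ) ^ (4 / 5 : ℝ) * (X : ℝ) ^ (1 / 20 : ℝ))))) := by
          rw [pow_add]
          ring
      _ ≤ (X : ℝ) ^ (1 / 20 : ℝ) * ((X : ℝ) ^ (1 / 20 : ℝ) * ((X : ℝ) ^ (c1 / 16) *
          ((X : ℝ) ^ (c1 / 16) * ((X : ℝ) ^ (4 / 5 : ℝ) * (X : ℝ) ^ (1 / 20 : ℝ))))) := by
          refine mul_le_mul_of_nonneg_right (le_trans ?_ h10) (by positivity)
          exact mul_le_mul_of_nonneg_left (hpl _) (by norm_num)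
      _ = (X : ℝ) ^ (1 / 20 + (1 / 20 + (c1 / 16 + (c1 / 16 + (4 / 5 + 1 / 20))))) := by
          rw [Real.rpow_add hX0, Real.rpow_add hX0, Real.rpow_add hX0, Real.rpow_add hX0,
            Real.rpow_add hX0]
      _ ≤ (X : ℝ) ^ (1 : ℝ) := Real.rpow_le_rpow_of_exponent_le hX1 (by linarith)
      _ = X := Real.rpow_one _
  -- e3
  have hDs0 : 0 ≤ ∑ d ∈ D, ∏ q ∈ d, d1 Ω q :=
    sum_nonneg fun d hd => prod_nonneg fun q hq => (hd1 d hd q hq).1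
  rw [← hl] at hDs hlC hzl
  have e3 : X * |G0| * l ^ 2 * (∑ d ∈ D, ∏ q ∈ d, d1 Ω q) * (2 * l * l ^ C2 / z) ≤
      X / (4 * l ^ A) := by
    rw [le_div_iff₀ (by positivity)]
    calc X * |G0| * l ^ 2 * (∑ d ∈ D, ∏ q ∈ d, d1 Ω q) * (2 * l * l ^ C2 / z) * (4 * l ^ A)
        ≤ X * 2 * l ^ 2 * (C' * l) ^ K * (2 * l * l ^ C2 / l ^ (A + C2 + K + 4)) * (4 * l ^ A) := by
          gcongr
      _ = X * ((16 * C' ^ K) * (l ^ (A + C2 + K + 3) / l ^ (A + C2 + K + 4))) := by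
          rw [mul_pow]
          have e : l ^ (A + C2 + K + 3) = l ^ A * l ^ C2 * l ^ K * l ^ 3 := by
            rw [pow_add, pow_add, pow_add]
          rw [e]
          ring
      _ = X * ((16 * C' ^ K) * (1 / l)) := by
          have e : l ^ (A + C2 + K + 3) / l ^ (A + C2 + K + 4) = 1 / l := by
            rw [div_eq_div_iff (by positivity) (by positivity), one_mul, ← pow_succ]
          rw [e]
      _ ≤ X * 1 := by
          refine mul_le_mul_of_nonneg_left ?_ hX0.le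
          rw [mul_one_div, div_le_one hl0]
          exact hlC
      _ = X := mul_one _
  -- e4
  have e4 : X * (X : ℝ) ^ (-c0) * |Gm D c (d1 Ω)| * |Qf (q1 (ι := ι)) L| ≤ X / (4 * l ^ A) := by
    have h8 := l1s_Gm hc (d1 Ω) fun d hd q hq => (hd1 d hd q hq).1
    rw [← hl] at h8 n1
    have h9 := h6 X (by omega)
    rw [le_div_iff₀ (by positivity)]
    calc X * (X : ℝ) ^ (-c0) * |Gm D c (d1 Ω)| * |Qf (q1 (ι := ι)) L| * (4 * l ^ A)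
        ≤ X * (X : ℝ) ^ (-c0) * (l ^ 2 * (C' * l) ^ K) * l ^ C2 * (4 * l ^ A) := by
          have h10 : |Gm D c (d1 Ω)| ≤ l ^ 2 * (C' * l) ^ K :=
            h8.trans (mul_le_mul_of_nonneg_left hDs (by positivity))
          gcongr
      _ = X * (X : ℝ) ^ (-c0) * ((4 * C' ^ K) * l ^ (A + 2 + K + C2)) := by
          rw [mul_pow, pow_add, pow_add, pow_add]
          ring
      _ ≤ X * (X : ℝ) ^ (-c0) * (X : ℝ) ^ c0 := by
          refine mul_le_mul_of_nonneg_left (le_trans ?_ h9) (by positivity)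
          exact mul_le_mul_of_nonneg_left (hpl _) (by positivity)
      _ = X := by
          rw [mul_assoc, ← Real.rpow_add hX0, neg_add_cancel, Real.rpow_zero, mul_one]
  rw [← hl]
  have e5 : X / (4 * l ^ A) + (X / (4 * l ^ A) + X / (4 * l ^ A)) + X / (4 * l ^ A) = X / l ^ A := by
    field_simp
    ring
  rw [← e5]
  exact add_le_add (add_le_add e1 (add_le_add e2 e3)) e4

end Pool.Agent.Lib.MTR
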