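import Pool.Agent.Lib.MTR.RsN
import Pool.Agent.Lib.MTR.RsF
import Pool.Agent.Lib.MTR.Fix2
import Pool.Agent.Lib.MTR.Fib
import Pool.Agent.Lib.MTR.Abs
import Pool.Agent.Lib.MTR.Dsum
import Pool.Agent.Lib.MTR.L1S

/-!
# MTR-L2S: primes `x + h m` weighted by the sifted weights over the presieved `x`

PROOF. As `layer2` (MT/Lay2.lean), same plan as `layer1s`. `lay2_pre` with `w x = Lm D c Ω x * (FF h L x)^2` replaces `Ω` by `Ω' = Oa Ω (h m)` in `Pre` (`Ω' q = Ω q` for `q ∈ d ∈ D`, as no class of `Ω q` is `≡ - h m`).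
Truncation parameter `m` from `layB_param K B (1/40)`, `δ ≤ min (1/40) (c0/16)`: so all moduli `∏_{d₀} p ∏_d q mod2 ≤ X^(1/40 + 1/40 + 2/5) = X^(9/20)`. `S d₀ d = ∑_{x, x % p ∈ Ω' p (p ∈ d₀ ∪ d)} th (x + h m) (FF h (rs d L) x)^2`, `fix2` for `d₀ ∪ d`, `rs d L`
(`GP (rs d L) m`: pairs with `Av d`), main term `Θ ∏_{d₀} |Ω' p|/(p-1) ∏_d |Ω q|/(q-1) Qf (q2 m) (rs d L)`. Errors: `(log X)^2 M0^2 ∑_{d₀} ∑_{d ∈ D} ∑_{s ∈ GP (rs d L) m} K^|d₀ ∪ d| E(..)` with `fibre2` (`S d = GP (rs d L) m`) and `layF_bv (A') (K + (k+1)^2)`.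
`absum` with `Y = Θ ≤ 2(1 + log X) X`, `G₁ d = ∏_d d2 Ω q`, `d2 Ω q ≤ 2K/q` (`dsum (2K)`), `η = 2 log X (log X)^C/z`; `layB_V` (second part) and `V2`. `C₁ = A + C + 2K + 8`.
-/

set_option autoImplicit false

open Finset

namespace Pool.Agent.Lib.MTR

open Pool.Agent.Lib.MT

theorem l2s_lt {Ω : ℕ → Finset ℕ} (hΩ : ∀ p, p.Prime → ∀ c ∈ Ω p, c < p) (a : ℕ) :
    ∀ p, p.Prime → ∀ c ∈ Oa Ω a p, c < p ∧ ¬ p ∣ c + a := fun p hp c hc => by
  unfold Oa at hc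
  rw [mem_filter] at hc
  exact ⟨hΩ p hp c hc.1, hc.2⟩

theorem l2s_card {Ω : ℕ → Finset ℕ} {p a : ℕ} (hp : p.Prime) (h : ∀ c ∈ Ω p, c < p ∧ ¬ p ∣ c + a) :
    (Ω p).card + 1 ≤ p := by
  have hp0 : 0 < p := hp.pos
  have h1 : (p - a % p) % p ∈ range p := mem_range.2 (Nat.mod_lt _ hp0)
  have h2 : Ω p ⊆ (range p).erase ((p - a % p) % p) := by
    intro c hc
    refine mem_erase.2 ⟨?_, mem_range.2 (h c hc).1⟩
    intro hcc
    refine (h c hc).2 ?_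
    rw [hcc]
    refine Nat.dvd_of_mod_eq_zero ?_
    rw [Nat.mod_add_mod]
    have h3 : a % p < p := Nat.mod_lt _ hp0
    have h4 : p * (a / p) + a % p = a := Nat.div_add_mod a p
    have h5 : p - a % p + a = p * (1 + a / p) := by
      rw [mul_add, mul_one]
      omega
    rw [h5]
    exact Nat.mul_mod_right p _
  have h6 := card_le_card h2
  rw [card_erase_of_mem h1, card_range] at h6
  omega

theorem l2s_V2 {z a : ℕ} {Ω : ℕ → Finset ℕ} (hΩ : ∀ p, p.Prime → ∀ c ∈ Oa Ω a p, c < p ∧ ¬ p ∣ c + a) :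
    |V2 Ω a z| ≤ 1 := by
  have hV : V2 Ω a z = ∏ p ∈ PP 0 z, (1 - ((Oa Ω a p).card : ℝ) / ((p : ℝ) - 1)) := rfl
  rw [hV]
  have h1 : ∀ p ∈ PP 0 z, 0 ≤ 1 - ((Oa Ω a p).card : ℝ) / ((p : ℝ) - 1) ∧
      1 - ((Oa Ω a p).card : ℝ) / ((p : ℝ) - 1) ≤ 1 := by
    intro p hp
    have hpp := lay_prime p hp
    have hp2 : (2 : ℝ) ≤ p := by exact_mod_cast hpp.two_le
    have hp0 : (0 : ℝ) < (p : ℝ) - 1 := by linarith
    have h2 : ((Oa Ω a p).card : ℝ) + 1 ≤ p := by exact_mod_cast l2s_card hpp (hΩ p hpp)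
    have h3 : ((Oa Ω a p).card : ℝ) / ((p : ℝ) - 1) ≤ 1 := by
      rw [div_le_one hp0]
      linarith
    have h4 : 0 ≤ ((Oa Ω a p).card : ℝ) / ((p : ℝ) - 1) := by positivity
    constructor <;> linarith
  rw [abs_of_nonneg (prod_nonneg fun p hp => (h1 p hp).1)]
  exact prod_le_one (fun p hp => (h1 p hp).1) fun p hp => (h1 p hp).2

theorem layer2s (ι : Type) [Fintype ι] [DecidableEq ι] (K A : ℕ) : ∃ C₁ : ℕ, ∀ B : ℕ, ∃ δ : ℝ, 0 < δ ∧
    ∃ X₀ : ℕ, ∀ X z R : ℕ, X₀ ≤ X → (Real.log X) ^ C₁ ≤ z → (z : ℝ) ≤ (Real.log X) ^ B →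
    (R : ℝ) ≤ (X : ℝ) ^ (1 / 5 : ℝ) →
    ∀ Ω : ℕ → Finset ℕ, (∀ p, (Ω p).card ≤ K) → (∀ p, p.Prime → ∀ c ∈ Ω p, c < p) →
    ∀ h : ι → ℕ, (∀ i, (h i : ℝ) ≤ (X : ℝ) ^ (1 / 2 : ℝ)) → ∀ m : ι,
    (∀ p ∈ PP z R, ∀ i j, i ≠ j → ¬ h i ≡ h j [MOD p]) →
    ∀ D : Finset (Finset ℕ), (∀ d ∈ D, ∀ q ∈ d, q.Prime ∧ z < q) →
    (∀ d ∈ D, ((∏ q ∈ d, q : ℕ) : ℝ) ≤ (X : ℝ) ^ δ) →
    (∀ d ∈ D, ∀ q ∈ d, ∀ i, ∀ c ∈ Ω q, ¬ q ∣ c + h i) →
    ∀ c : Finset ℕ → ℝ, (∀ d ∈ D, |c d| ≤ (Real.log X) ^ 2) →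
    ∀ L : Col (PP z R) ι → ℝ,
    (∀ σ, |L σ| ≤ ∏ p : {p : ℕ // p ∈ PP z R}, (1 + (Fintype.card ι : ℝ) / ((p : ℕ) : ℝ))) →
    (∀ σ, L σ ≠ 0 → tot σ ≤ R) →
    |∑ x ∈ Pre Ω z X, BV.th (x + h m) * (Lm D c Ω x * (FF h L x) ^ 2) -
        (∑ n ∈ Ioc (X + h m) (2 * X + h m), BV.th n) * V2 Ω (h m) z * Gm D c (d2 Ω) * Qf (q2 m) L| ≤
      X / (Real.log X) ^ A := by
  classical
  set k := Fintype.card ι with hk
  obtain ⟨C2, Xn, hnum⟩ := rs_num ι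
  obtain ⟨C', hC', hds⟩ := dsum (2 * K)
  obtain ⟨C, hC, hprod⟩ := layA_prod k
  refine ⟨A + C2 + 2 * K + 5, fun B => ?_⟩
  obtain ⟨c0, hc0, X1, h1⟩ := layB_param K B (1 / 40) (by norm_num)
  obtain ⟨c1, hc1, hc10, hc1'⟩ : ∃ c1 : ℝ, 0 < c1 ∧ c1 ≤ c0 ∧ c1 ≤ 1 / 20 :=
    ⟨min c0 (1 / 20), lt_min hc0 (by norm_num), min_le_left _ _, min_le_right _ _⟩
  obtain ⟨X2, h2⟩ := layA_FF ι (c1 / 8) (by positivity)
  obtain ⟨X3, h3⟩ := layF_bv (A + 2 * k + 3) (K + (k + 1) ^ 2)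
  obtain ⟨X4, h4⟩ := Pool.Agent.Lib.MP_092512_nt.P3.B.ev_pow 16 (c1 / 2) (by positivity) (A + 3)
  obtain ⟨X6, h6⟩ := Pool.Agent.Lib.MP_092512_nt.P3.B.ev_pow (16 * C' ^ (2 * K)) c0 hc0
    (A + 3 + 2 * K + C2)
  obtain ⟨X7, h7⟩ := l1s_log (max 1 (max (64 * C' ^ (2 * K)) (4 * C ^ (2 * k))))
  refine ⟨c1 / 16, by positivity, X1 + X2 + X3 + X4 + X6 + X7 + Xn + 3,
    fun X z R hX hzl hz hR Ω hK hΩ h hh m hij D hD hDX hDh c hc L hL hLR => ?_⟩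
  have hX3 : 3 ≤ X := by omega
  have hX1 : (1 : ℝ) ≤ X := by
    have : 1 ≤ X := by omega
    exact_mod_cast this
  have hX0 : (0 : ℝ) < X := by linarith
  have hl1 : 1 ≤ Real.log X := le_trans (le_max_left _ _) (h7 X (by omega))
  have hlC : 64 * C' ^ (2 * K) ≤ Real.log X :=
    le_trans ((le_max_left _ _).trans (le_max_right _ _)) (h7 X (by omega))
  have hlCk : 4 * C ^ (2 * k) ≤ Real.log X :=
    le_trans ((le_max_right _ _).trans (le_max_right _ _)) (h7 X (by omega))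
  obtain ⟨l, hl⟩ : ∃ l : ℝ, l = Real.log X := ⟨_, rfl⟩
  have hl0 : 0 < l := by rw [hl]; linarith
  have hl1' : 1 ≤ l := by rw [hl]; exact hl1
  have hC'0 : 0 < C' := by linarith
  have hz1 : (1 : ℝ) ≤ z := (one_le_pow₀ hl1).trans hzl
  have hz0 : (0 : ℝ) < z := by linarith
  have hz1' : 1 ≤ z := by exact_mod_cast hz1
  have hpw : ∀ t : ℝ, t ≤ 1 → (X : ℝ) ^ t ≤ X := fun t ht => by
    calc (X : ℝ) ^ t ≤ (X : ℝ) ^ (1 : ℝ) := Real.rpow_le_rpow_of_exponent_le hX1 ht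
      _ = X := Real.rpow_one _
  have hRX : R ≤ X := by exact_mod_cast hR.trans (hpw _ (by norm_num))
  have hhX : ∀ i, h i ≤ X := fun i => by exact_mod_cast (hh i).trans (hpw _ (by norm_num))
  obtain ⟨mm, hm⟩ := h1 X z (by omega) hz
  have hzm : (((z : ℝ) + 1) ^ mm) ≤ (X : ℝ) ^ (1 / 40 : ℝ) ∧ (z : ℝ) ≤ (X : ℝ) ^ (1 / 40 : ℝ) := by
    have hK0 : (0 : ℝ) ≤ (K : ℝ) := Nat.cast_nonneg K
    have hb1 : (1 : ℝ) ≤ ((K : ℝ) + 2) * (z + 1) := by nlinarith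
    have hb2 : (z : ℝ) ≤ ((K : ℝ) + 2) * (z + 1) := by nlinarith
    have hb4 : (z : ℝ) + 1 ≤ ((K : ℝ) + 2) * (z + 1) := by nlinarith
    have hb3 := hm.2.1
    constructor
    · refine le_trans ?_ hb3
      exact (pow_le_pow_left₀ (by linarith) hb4 mm).trans (pow_le_pow_right₀ hb1 (by omega))
    · refine le_trans (hb2.trans ?_) hb3
      calc ((K : ℝ) + 2) * (z + 1) = (((K : ℝ) + 2) * (z + 1)) ^ 1 := (pow_one _).symm
        _ ≤ (((K : ℝ) + 2) * (z + 1)) ^ (mm + 1) := pow_le_pow_right₀ hb1 (by omega)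
  have hzX : z ≤ X := by exact_mod_cast hzm.2.trans (hpw _ (by norm_num))
  obtain ⟨M0, hM0⟩ : ∃ M0 : ℝ, M0 = ∏ p : {p : ℕ // p ∈ PP z R}, (1 + (k : ℝ) / ((p : ℕ) : ℝ)) :=
    ⟨_, rfl⟩
  have hL' : ∀ σ, |L σ| ≤ M0 := by
    rw [hM0]
    exact hL
  have hM00 : 0 ≤ M0 := (abs_nonneg _).trans (hL' fun _ => none)
  have hM0C : M0 ≤ (C * Real.log X) ^ k := by
    rw [hM0]
    exact hprod X z R hX3 hRX
  obtain ⟨-, n1, n2⟩ := hnum X z R (by omega) hRX hz1' L hL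
  -- the class of `- h m`
  have hOD : ∀ d ∈ D, ∀ q ∈ d, Oa Ω (h m) q = Ω q := by
    intro d hd q hq
    unfold Oa
    exact filter_true_of_mem fun c hc => hDh d hd q hq m c hc
  have hLm : ∀ x, Lm D c Ω x = Lm D c (Oa Ω (h m)) x := by
    intro x
    unfold Lm
    refine sum_congr rfl fun d hd => ?_
    congr 1
    refine if_congr ?_ rfl rfl
    refine forall₂_congr fun q hq => ?_
    rw [hOD d hd q hq]
  have hGm0 : Gm D c (d2 Ω) = Gm D c (d2 (Oa Ω (h m))) := by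
    unfold Gm d2
    refine sum_congr rfl fun d hd => ?_
    congr 1
    refine prod_congr rfl fun q hq => ?_
    rw [hOD d hd q hq]
  have e0 : ∑ x ∈ Pre (Oa Ω (h m)) z X, BV.th (x + h m) * (Lm D c Ω x * (FF h L x) ^ 2) =
      ∑ x ∈ Pre (Oa Ω (h m)) z X, Lm D c (Oa Ω (h m)) x * (BV.th (x + h m) * (FF h L x) ^ 2) := by
    refine sum_congr rfl fun x _ => ?_
    rw [hLm x]
    ring
  rw [lay2_pre Ω (h m) z X hzX (fun x => Lm D c Ω x * (FF h L x) ^ 2), e0, hGm0]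
  have hK' := lay2_Oa_card hK (h m)
  have hΩ' := l2s_lt hΩ (h m)
  have hV1 := l2s_V2 (z := z) hΩ'
  have hVeq : V2 Ω (h m) z = ∏ p ∈ PP 0 z, (1 - ((Oa Ω (h m) p).card : ℝ) / ((p : ℝ) - 1)) := rfl
  have hDh' : ∀ d ∈ D, ∀ q ∈ d, ∀ i, ∀ c ∈ Oa Ω (h m) q, ¬ q ∣ c + h i := by
    intro d hd q hq i c' hc'
    rw [hOD d hd q hq] at hc'
    exact hDh d hd q hq i c' hc'
  clear e0 hGm0 hLm hOD hDh hΩ hK
  obtain ⟨V, hV⟩ : ∃ V : ℝ, V = V2 Ω (h m) z := ⟨_, rfl⟩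
  rw [← hV] at hV1 hVeq ⊢
  clear hV
  obtain ⟨W, hW⟩ : ∃ W : ℕ → Finset ℕ, W = Oa Ω (h m) := ⟨_, rfl⟩
  rw [← hW] at hK' hΩ' hVeq hDh' ⊢
  clear hW Ω
  -- the family
  have hDp : ∀ d ∈ D, ∀ q ∈ d, q.Prime := fun d hd q hq => (hD d hd q hq).1
  have hDY : ∀ d ∈ D, ∏ q ∈ d, q ≤ ⌊(X : ℝ) ^ (c1 / 16)⌋₊ := fun d hd => Nat.le_floor (hDX d hd)
  have hYr : ((⌊(X : ℝ) ^ (c1 / 16)⌋₊ : ℕ) : ℝ) ≤ (X : ℝ) ^ (c1 / 16) := Nat.floor_le (by positivity)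
  have hDcard : (D.card : ℝ) ≤ (X : ℝ) ^ (c1 / 16) := by
    have h8 := (dcard D _ hDp hDY).1
    refine le_trans ?_ hYr
    exact_mod_cast h8
  have hDX' : ∀ d ∈ D, ∏ q ∈ d, q ≤ X := by
    intro d hd
    have h8 : ((∏ q ∈ d, q : ℕ) : ℝ) ≤ X := (hDX d hd).trans (hpw _ (by linarith))
    exact_mod_cast h8
  have hDn := dnum D X (by omega) hDp hDX'
  have hd1 : ∀ d ∈ D, ∀ q ∈ d, 0 ≤ d2 W q ∧ d2 W q ≤ ((2 * K : ℕ) : ℝ) / q := by
    intro d hd q hq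
    have hq2 : (2 : ℝ) ≤ q := by exact_mod_cast (hDp d hd q hq).two_le
    have hq0 : (0 : ℝ) < (q : ℝ) - 1 := by linarith
    have hq1 : (0 : ℝ) < (q : ℝ) := by linarith
    unfold d2
    refine ⟨by positivity, ?_⟩
    have h8 : ((W q).card : ℝ) ≤ K := by exact_mod_cast hK' q
    have hK0 : (0 : ℝ) ≤ (K : ℝ) := Nat.cast_nonneg K
    rw [div_le_div_iff₀ hq0 hq1]
    push_cast
    have h9 : ((W q).card : ℝ) * q ≤ K * q := mul_le_mul_of_nonneg_right h8 hq1.le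
    nlinarith
  have hDs := hds X D (d2 W) hX3 hDp hDX' hd1
  -- truncation
  have hthb : ∀ x ∈ Ioc X (2 * X), |BV.th (x + h m)| ≤ 2 * (1 + Real.log X) := by
    intro x hx
    rw [mem_Ioc] at hx
    have hxr : (0 : ℝ) < ((x + h m : ℕ) : ℝ) := by
      have : 0 < x + h m := by omega
      exact_mod_cast this
    have h7 : Real.log ((x + h m : ℕ) : ℝ) ≤ Real.log (3 * X) := by
      refine Real.log_le_log hxr ?_
      have := hhX m
      have h8 : x + h m ≤ 3 * X := by omega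
      exact_mod_cast h8
    have h8 : Real.log (3 * X) ≤ 2 * (1 + Real.log X) := by
      rw [Real.log_mul (by norm_num) hX0.ne']
      have h9 : Real.log 3 ≤ 2 := by
        have := Real.log_le_sub_one_of_pos (show (0 : ℝ) < 3 by norm_num)
        linarith
      linarith
    unfold BV.th
    split_ifs
    · rw [abs_of_nonneg (Real.log_natCast_nonneg _)]
      exact h7.trans h8
    · rw [abs_zero]
      linarith
  have hw : ∀ x ∈ Ioc X (2 * X), |Lm D c W x * (BV.th (x + h m) * (FF h L x) ^ 2)| ≤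
      (X : ℝ) ^ (c1 / 16) * l ^ 2 * (2 * (1 + l) * (X : ℝ) ^ (c1 / 4)) := by
    intro x hx
    have h8 := h2 X z R (by omega) hRX h hhX L hL x hx
    have h9 := l1s_Lm (M := Real.log X ^ 2) (by positivity) hc W x
    have h10 := hthb x hx
    rw [← hl] at h9 h10
    rw [abs_mul, abs_mul, abs_pow]
    refine mul_le_mul ?_ ?_ (by positivity) (by positivity)
    · refine h9.trans ?_
      exact mul_le_mul_of_nonneg_right hDcard (by positivity)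
    · refine mul_le_mul h10 ?_ (by positivity) (by positivity)
      calc |FF h L x| ^ 2 ≤ ((X : ℝ) ^ (c1 / 8)) ^ 2 := pow_le_pow_left₀ (abs_nonneg _) h8 2
        _ = (X : ℝ) ^ (c1 / 4) := by
            rw [← Real.rpow_natCast, ← Real.rpow_mul hX0.le]
            congr 1
            push_cast
            ring
  have t1 := layB_trunc (by omega) (by norm_num) hm W hK' (fun p hp c hc => (hΩ' p (lay_prime p hp) c hc).1)
    (fun x => Lm D c W x * (BV.th (x + h m) * (FF h L x) ^ 2))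
    ((X : ℝ) ^ (c1 / 16) * l ^ 2 * (2 * (1 + l) * (X : ℝ) ^ (c1 / 4)))
    (by positivity) hw
  have t1s : ∀ d₀ : Finset ℕ, ∑ x ∈ (Ioc X (2 * X)).filter (fun x => ∀ p ∈ d₀, x % p ∈ W p),
      Lm D c W x * (BV.th (x + h m) * (FF h L x) ^ 2) = ∑ d ∈ D, c d *
        ∑ x ∈ (Ioc X (2 * X)).filter (fun x => ∀ p ∈ d₀ ∪ d, x % p ∈ W p),
          BV.th (x + h m) * (FF h L x) ^ 2 :=
    fun d₀ => l1s_split X D c W d₀ (fun x => BV.th (x + h m) * (FF h L x) ^ 2)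
  simp only [t1s] at t1
  -- fixed moduli
  obtain ⟨E, hE0, hE1, hE2⟩ := h3 X (by omega) (h m) (hhX m)
  obtain ⟨Q, hQ⟩ : ∃ Q : ℕ, Q = ⌊(X : ℝ) ^ (9 / 20 : ℝ)⌋₊ := ⟨_, rfl⟩
  have hQr : (Q : ℝ) ≤ (X : ℝ) ^ (9 / 20 : ℝ) := by
    rw [hQ]
    exact Nat.floor_le (by positivity)
  have hqQ : ∀ d₀ ⊆ PP 0 z, d₀.card ≤ mm → ∀ d ∈ D, ∀ s ∈ GP (rs d L) m,
      (∏ p ∈ d₀ ∪ d, p) * mod2 s.1 s.2 ≤ Q := by
    intro d₀ hd₀ hdm d hd s hs
    have hdis := l1s_disj hd₀ fun q hq => (hD d hd q hq).2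
    rw [prod_union hdis]
    unfold GP at hs
    rw [mem_filter] at hs
    have h7 := mod2_le lay_prime s.1 s.2
    have h8 := hLR s.1 (l1s_rs hs.2.1).2
    have h9 := hLR s.2 (l1s_rs hs.2.2.1).2
    rw [hQ]
    refine Nat.le_floor ?_
    have hprodd : (∏ p ∈ d₀, p) ≤ (z + 1) ^ mm := by
      calc ∏ p ∈ d₀, p ≤ ∏ _p ∈ d₀, (z + 1) := prod_le_prod' fun p hp => by
            have h10 := mem_range.1 (mem_filter.1 (hd₀ hp)).1
            omega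
        _ = (z + 1) ^ d₀.card := by rw [prod_const]
        _ ≤ (z + 1) ^ mm := Nat.pow_le_pow_right (by omega) hdm
    have h10 : ((((∏ p ∈ d₀, p) * ∏ p ∈ d, p) * mod2 s.1 s.2 : ℕ) : ℝ) ≤
        (((z : ℝ) + 1) ^ mm * ((∏ p ∈ d, p : ℕ) : ℝ)) * ((R : ℝ) * R) := by
      have h11 : ((∏ p ∈ d₀, p) * ∏ p ∈ d, p) * mod2 s.1 s.2 ≤
          ((z + 1) ^ mm * ∏ p ∈ d, p) * (R * R) :=
        Nat.mul_le_mul (Nat.mul_le_mul_right _ hprodd) (h7.trans (Nat.mul_le_mul h8 h9))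
      exact_mod_cast h11
    refine h10.trans ?_
    have hR0 : (0 : ℝ) ≤ (R : ℝ) := Nat.cast_nonneg R
    have hd0 : ((∏ p ∈ d, p : ℕ) : ℝ) ≤ (X : ℝ) ^ (1 / 40 : ℝ) :=
      (hDX d hd).trans (Real.rpow_le_rpow_of_exponent_le hX1 (by linarith))
    calc (((z : ℝ) + 1) ^ mm * ((∏ p ∈ d, p : ℕ) : ℝ)) * ((R : ℝ) * R) ≤
        ((X : ℝ) ^ (1 / 40 : ℝ) * (X : ℝ) ^ (1 / 40 : ℝ)) *
          ((X : ℝ) ^ (1 / 5 : ℝ) * (X : ℝ) ^ (1 / 5 : ℝ)) := by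
          refine mul_le_mul (mul_le_mul hzm.1 hd0 (Nat.cast_nonneg _) (by positivity))
            (mul_le_mul hR hR hR0 (by positivity)) (by positivity) (by positivity)
      _ = (X : ℝ) ^ (9 / 20 : ℝ) := by
          rw [← Real.rpow_add hX0, ← Real.rpow_add hX0, ← Real.rpow_add hX0]
          norm_num
  have hQX : Q ≤ X := by exact_mod_cast hQr.trans (hpw _ (by norm_num))
  obtain ⟨Θ, hΘ⟩ : ∃ Θ : ℝ, Θ = ∑ n ∈ Ioc (X + h m) (2 * X + h m), BV.th n := ⟨_, rfl⟩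
  have hth0 : ∀ n, 0 ≤ BV.th n := fun n => by
    unfold BV.th
    split_ifs
    · exact Real.log_natCast_nonneg n
    · exact le_refl 0
  have hΘ0 : 0 ≤ Θ := by
    rw [hΘ]
    exact sum_nonneg fun n _ => hth0 n
  have hΘX : Θ ≤ 4 * l * X := by
    have e : Θ = ∑ x ∈ Ioc X (2 * X), BV.th (x + h m) := by
      rw [hΘ]
      refine (sum_bij (fun x _ => x + h m) ?_ ?_ ?_ ?_).symm
      · intro x hx
        rw [mem_Ioc] at hx ⊢
        omega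
      · intro x _ y _ hxy
        exact Nat.add_right_cancel hxy
      · intro n hn
        rw [mem_Ioc] at hn
        exact ⟨n - h m, by rw [mem_Ioc]; omega, Nat.sub_add_cancel (by omega)⟩
      · intro x _
        rfl
    rw [e]
    calc ∑ x ∈ Ioc X (2 * X), BV.th (x + h m) ≤ ∑ _x ∈ Ioc X (2 * X), 4 * l := by
          refine sum_le_sum fun x hx => (le_abs_self _).trans ((hthb x hx).trans ?_)
          rw [← hl]
          linarith
      _ = 4 * l * X := by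
          rw [sum_const, Nat.card_Ioc, nsmul_eq_mul]
          have e2 : 2 * X - X = X := by omega
          rw [e2]
          ring
  have hMs : ∀ d σ, |rs d L σ| ≤ M0 := by
    intro d σ
    unfold rs
    split_ifs
    · exact hL' σ
    · rw [abs_zero]
      exact hM00
  rw [← hΘ]
  have t2 := absum ((PP 0 z).powerset.filter (fun d => d.card ≤ mm)) D c (l ^ 2) (by positivity)
    (by rw [hl]; exact hc)
    (fun d₀ d => ∑ x ∈ (Ioc X (2 * X)).filter (fun x => ∀ p ∈ d₀ ∪ d, x % p ∈ W p),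
      BV.th (x + h m) * (FF h L x) ^ 2)
    (fun d₀ d => M0 ^ 2 * ∑ s ∈ GP (rs d L) m, (K : ℝ) ^ (d₀ ∪ d).card *
      E ((∏ p ∈ d₀ ∪ d, p) * mod2 s.1 s.2))
    (fun d₀ => ∏ p ∈ d₀, ((W p).card : ℝ) / ((p : ℝ) - 1)) (fun d => ∏ q ∈ d, d2 W q)
    (fun d => Qf (q2 m) (rs d L)) Θ (Qf (q2 m) L) (2 * l * l ^ C2 / z) hΘ0
    (fun d₀ hd₀ d hd => by
      have hd₀z := mem_powerset.1 (mem_filter.1 hd₀).1
      have hdis := l1s_disj hd₀z fun q hq => (hD d hd q hq).2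
      have hpr : ∀ p ∈ d₀ ∪ d, p.Prime := by
        intro p hp
        rcases mem_union.1 hp with h8 | h8
        · exact lay_prime p (hd₀z h8)
        · exact hDp d hd p h8
      have h8 := fix2 z X R hRX h m hij W (d₀ ∪ d) hpr (fun p hp => hΩ' p (hpr p hp)) (rs d L)
        (fun σ h9 => l1s_av hd₀z (l1s_rs h9).1) M0 (hMs d)
        (fun s hs => (hqQ d₀ hd₀z (mem_filter.1 hd₀).2 d hd s hs).trans hQX) E hE1
      have h9 : ∑ x ∈ (Ioc X (2 * X)).filter (fun x => ∀ p ∈ d₀ ∪ d, x % p ∈ W p),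
          BV.th (x + h m) * (FF h (rs d L) x) ^ 2 =
          ∑ x ∈ (Ioc X (2 * X)).filter (fun x => ∀ p ∈ d₀ ∪ d, x % p ∈ W p),
            BV.th (x + h m) * (FF h L x) ^ 2 := by
        refine sum_congr rfl fun x hx => ?_
        rw [rs_FF h L W d (hDh' d hd) x
          (fun q hq => (mem_filter.1 hx).2 q (mem_union_right _ hq))]
      have h10 : ∏ p ∈ d₀ ∪ d, ((W p).card : ℝ) / ((p : ℝ) - 1) =
          (∏ p ∈ d₀, ((W p).card : ℝ) / ((p : ℝ) - 1)) * ∏ q ∈ d, d2 W q := prod_union hdis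
      rw [h9, ← hΘ, h10, mul_right_comm] at h8
      refine le_trans h8 ?_
      refine mul_le_mul_of_nonneg_left ?_ (by positivity)
      refine sum_le_sum fun s _ => ?_
      refine mul_le_mul_of_nonneg_right ?_ (hE0 _)
      rw [← prod_const]
      exact prod_le_prod (fun p _ => Nat.cast_nonneg _) fun p _ => by exact_mod_cast hK' p)
    (fun d hd => by
      refine ((n2 d).2 m).trans ?_
      rw [hl]
      have h8 := hDn d hd
      gcongr)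
    (fun d hd => prod_nonneg fun q hq => (hd1 d hd q hq).1)
  obtain ⟨G0, hG0⟩ : ∃ G0 : ℝ, G0 = ∑ d ∈ (PP 0 z).powerset.filter (fun d => d.card ≤ mm),
    ((-1 : ℝ) ^ d.card * ∏ p ∈ d, ((W p).card : ℝ) / ((p : ℝ) - 1)) := ⟨_, rfl⟩
  have t3 := (layB_V hm W hK').2
  rw [← hG0] at t2 t3
  rw [← hVeq] at t3
  have hGm : ∑ d ∈ D, c d * ∏ q ∈ d, d2 W q = Gm D c (d2 W) := rfl
  rw [hGm] at t2
  refine (l1s_tri t1 t2 t3 hΘ0).trans ?_
  -- numbers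
  have hXc : (X : ℝ) ^ (-c0) ≤ 1 := Real.rpow_le_one_of_one_le_of_nonpos hX1 (by linarith)
  have hG0' : |G0| ≤ 2 := by
    have h8 : G0 = (G0 - V) + V := by ring
    rw [h8]
    refine (abs_add_le _ _).trans ?_
    linarith
  have hlA : 0 < l ^ A := by positivity
  have hpl : ∀ n : ℕ, l ^ n ≤ (1 + Real.log X) ^ n := fun n => by
    rw [← hl]
    exact pow_le_pow_left₀ hl0.le (by linarith) n
  -- e1
  have e1 : 2 * ((X : ℝ) ^ (c1 / 16) * l ^ 2 * (2 * (1 + l) * (X : ℝ) ^ (c1 / 4))) * X *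
      (X : ℝ) ^ (-c0) ≤ X / (4 * l ^ A) := by
    rw [le_div_iff₀ (by positivity)]
    have h8 := h4 X (by omega)
    rw [← hl] at h8
    calc 2 * ((X : ℝ) ^ (c1 / 16) * l ^ 2 * (2 * (1 + l) * (X : ℝ) ^ (c1 / 4))) * X *
          (X : ℝ) ^ (-c0) * (4 * l ^ A)
        = (16 * (l ^ (A + 2) * (1 + l))) *
            ((X : ℝ) ^ (c1 / 16) * (X : ℝ) ^ (c1 / 4) * X * (X : ℝ) ^ (-c0)) := by
          rw [pow_add]
          ring
      _ ≤ (X : ℝ) ^ (c1 / 2) * ((X : ℝ) ^ (c1 / 16) * (X : ℝ) ^ (c1 / 4) * X * (X : ℝ) ^ (-c0)) := by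
          refine mul_le_mul_of_nonneg_right (le_trans ?_ h8) (by positivity)
          refine mul_le_mul_of_nonneg_left ?_ (by norm_num)
          have e : (1 + l) ^ (A + 3) = (1 + l) ^ (A + 2) * (1 + l) := by rw [← pow_succ]
          rw [e]
          refine mul_le_mul_of_nonneg_right ?_ (by positivity)
          exact pow_le_pow_left₀ hl0.le (by linarith) _
      _ = (X : ℝ) ^ (c1 / 2 + (c1 / 16 + c1 / 4 + 1 + -c0)) := by
          rw [Real.rpow_add hX0, Real.rpow_add hX0, Real.rpow_add hX0, Real.rpow_add hX0,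
            Real.rpow_one]
      _ ≤ X := hpw _ (by linarith)
  -- e2
  have e2 : l ^ 2 * ∑ d₀ ∈ (PP 0 z).powerset.filter (fun d => d.card ≤ mm), ∑ d ∈ D,
      M0 ^ 2 * ∑ s ∈ GP (rs d L) m, (K : ℝ) ^ (d₀ ∪ d).card *
        E ((∏ p ∈ d₀ ∪ d, p) * mod2 s.1 s.2) ≤ X / (4 * l ^ A) := by
    have h8 : ∑ d₀ ∈ (PP 0 z).powerset.filter (fun d => d.card ≤ mm), ∑ d ∈ D,
        M0 ^ 2 * ∑ s ∈ GP (rs d L) m, (K : ℝ) ^ (d₀ ∪ d).card *
          E ((∏ p ∈ d₀ ∪ d, p) * mod2 s.1 s.2) = M0 ^ 2 *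
        ∑ d₀ ∈ (PP 0 z).powerset.filter (fun d => d.card ≤ mm), ∑ d ∈ D,
        ∑ s ∈ GP (rs d L) m, (K : ℝ) ^ (d₀ ∪ d).card *
          E ((∏ p ∈ d₀ ∪ d, p) * mod2 s.1 s.2) := by
      rw [mul_sum]
      refine sum_congr rfl fun d₀ _ => ?_
      rw [mul_sum]
    have h9 := fibre2 lay_prime z mm K Q lay_gt D hD (fun d => GP (rs d L) m)
      (fun d _ s hs => by
        unfold GP at hs
        rw [mem_filter] at hs
        exact ⟨(l1s_rs hs.2.1).1, (l1s_rs hs.2.2.1).1⟩) hqQ E hE0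
    have h10 := h9.trans (hE2 Q hQr)
    rw [← hl] at h10 hM0C hlCk
    rw [h8]
    have h11 : M0 ^ 2 ≤ C ^ (2 * k) * l ^ (2 * k) := by
      refine (pow_le_pow_left₀ hM00 hM0C 2).trans (le_of_eq ?_)
      rw [← pow_mul, mul_pow, mul_comm k 2]
    have hC0 : 0 ≤ C ^ (2 * k) := by positivity
    rw [le_div_iff₀ (by positivity)]
    calc l ^ 2 * (M0 ^ 2 * _) * (4 * l ^ A)
        ≤ l ^ 2 * (C ^ (2 * k) * l ^ (2 * k) * (X / l ^ (A + 2 * k + 3))) * (4 * l ^ A) := by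
          refine mul_le_mul_of_nonneg_right (mul_le_mul_of_nonneg_left ?_ (by positivity))
            (by positivity)
          exact (mul_le_mul_of_nonneg_left h10 (by positivity)).trans
            (mul_le_mul_of_nonneg_right h11 (by positivity))
      _ = X * ((4 * C ^ (2 * k)) * (l ^ (A + 2 * k + 2) / l ^ (A + 2 * k + 3))) := by
          have e : l ^ (A + 2 * k + 2) = l ^ A * l ^ (2 * k) * l ^ 2 := by
            rw [pow_add, pow_add]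
          rw [e]
          ring
      _ = X * ((4 * C ^ (2 * k)) * (1 / l)) := by
          have e : l ^ (A + 2 * k + 2) / l ^ (A + 2 * k + 3) = 1 / l := by
            rw [div_eq_div_iff (by positivity) (by positivity), one_mul, ← pow_succ]
          rw [e]
      _ ≤ X * 1 := by
          refine mul_le_mul_of_nonneg_left ?_ hX0.le
          rw [mul_one_div, div_le_one hl0]
          exact hlCk
      _ = X := mul_one _
  -- e3
  have hDs0 : 0 ≤ ∑ d ∈ D, ∏ q ∈ d, d2 W q :=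
    sum_nonneg fun d hd => prod_nonneg fun q hq => (hd1 d hd q hq).1
  rw [← hl] at hDs hlC hzl
  have e3 : Θ * |G0| * l ^ 2 * (∑ d ∈ D, ∏ q ∈ d, d2 W q) * (2 * l * l ^ C2 / z) ≤
      X / (4 * l ^ A) := by
    rw [le_div_iff₀ (by positivity)]
    calc Θ * |G0| * l ^ 2 * (∑ d ∈ D, ∏ q ∈ d, d2 W q) * (2 * l * l ^ C2 / z) * (4 * l ^ A)
        ≤ (4 * l * X) * 2 * l ^ 2 * (C' * l) ^ (2 * K) *
            (2 * l * l ^ C2 / l ^ (A + C2 + 2 * K + 5)) * (4 * l ^ A) := by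
          gcongr
      _ = X * ((64 * C' ^ (2 * K)) * (l ^ (A + C2 + 2 * K + 4) / l ^ (A + C2 + 2 * K + 5))) := by
          rw [mul_pow]
          have e : l ^ (A + C2 + 2 * K + 4) = l ^ A * l ^ C2 * l ^ (2 * K) * l ^ 4 := by
            rw [pow_add, pow_add, pow_add]
          rw [e]
          ring
      _ = X * ((64 * C' ^ (2 * K)) * (1 / l)) := by
          have e : l ^ (A + C2 + 2 * K + 4) / l ^ (A + C2 + 2 * K + 5) = 1 / l := by
            rw [div_eq_div_iff (by positivity) (by positivity), one_mul, ← pow_succ]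
          rw [e]
      _ ≤ X * 1 := by
          refine mul_le_mul_of_nonneg_left ?_ hX0.le
          rw [mul_one_div, div_le_one hl0]
          exact hlC
      _ = X := mul_one _
  -- e4
  have e4 : Θ * (X : ℝ) ^ (-c0) * |Gm D c (d2 W)| * |Qf (q2 m) L| ≤ X / (4 * l ^ A) := by
    have h8 := l1s_Gm hc (d2 W) fun d hd q hq => (hd1 d hd q hq).1
    have h12 := n1 m
    rw [← hl] at h8 h12
    have h9 := h6 X (by omega)
    rw [le_div_iff₀ (by positivity)]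
    calc Θ * (X : ℝ) ^ (-c0) * |Gm D c (d2 W)| * |Qf (q2 m) L| * (4 * l ^ A)
        ≤ (4 * l * X) * (X : ℝ) ^ (-c0) * (l ^ 2 * (C' * l) ^ (2 * K)) * l ^ C2 * (4 * l ^ A) := by
          have h10 : |Gm D c (d2 W)| ≤ l ^ 2 * (C' * l) ^ (2 * K) :=
            h8.trans (mul_le_mul_of_nonneg_left hDs (by positivity))
          gcongr
      _ = X * (X : ℝ) ^ (-c0) * ((16 * C' ^ (2 * K)) * l ^ (A + 3 + 2 * K + C2)) := by
          rw [mul_pow, pow_add, pow_add, pow_add]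
          ring
      _ ≤ X * (X : ℝ) ^ (-c0) * (X : ℝ) ^ c0 := by
          refine mul_le_mul_of_nonneg_left (le_trans ?_ h9) (by positivity)
          exact mul_le_mul_of_nonneg_left (hpl _) (by positivity)
      _ = X := by
          rw [mul_assoc, ← Real.rpow_add hX0, neg_add_cancel, Real.rpow_zero, mul_one]
  rw [← hl]
  have e5 : X / (4 * l ^ A) + (X / (4 * l ^ A) + X / (4 * l ^ A)) + X / (4 * l ^ A) = X / l ^ A := by
    field_simp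
    ring
  rw [← e5]
  exact add_le_add (add_le_add e1 (add_le_add e2 e3)) e4

end Pool.Agent.Lib.MTR
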