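import Pool.Agent.Lib.MTR.Bern
import Pool.Agent.Lib.MP_7b7e48_nt.RG.SL

/-!
# MTR-Lev: the bounds for one level of the Brun-Hooley sieve of dimension `k`

PROOF. As `GT.level_all` (GT/FundLemma.lean) with the densities `g` for `|Ω r|/r`, `12 k` for `12`, `exp (72 k)` for `κ₀ = exp 72`:
`∑_{q ∈ PJ z P j} g q ≤ 2k · 6 = 12 k` (`GT.sum_level_le`); `VV ≥ exp (-2 · 12 k)` as `1 - t ≥ exp (-2t)` on `[0, 1/2]`; `TT`, `ET` are the sums in
`bern` for `Q = PJ z P j`, `m = mJ b j` (`GT.sum_cm`, `GT.sum_ct`, `GT.even_mJ`); `∑_{|d| = n} ∏ g ≤ exp (4 · 12 k)/4^n`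
(as `GT.top_le`), `n = 2(b+j)+1`, and `4^(-n) ≤ (1/2)^b (1/2)^(j+1)`.
-/

set_option autoImplicit false

open Finset

namespace Pool.Agent.Lib.MTR

open Pool.Agent.Lib.GT Pool.Agent.Lib.RG

noncomputable def kk (k : ℕ) : ℝ := Real.exp (72 * k)

noncomputable def eta (k b j : ℕ) : ℝ := kk k * (1 / 2) ^ b * ((1 / 2) ^ (j + 1))

noncomputable def VV (z : ℕ) (P : Finset ℕ) (g : ℕ → ℝ) (j : ℕ) : ℝ := ∏ q ∈ PJ z P j, (1 - g q)

noncomputable def TT (z b : ℕ) (P : Finset ℕ) (g : ℕ → ℝ) (j : ℕ) : ℝ :=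
  ∑ d ∈ fam z b P j, cm b j d * ∏ q ∈ d, g q

noncomputable def ET (z b : ℕ) (P : Finset ℕ) (g : ℕ → ℝ) (j : ℕ) : ℝ :=
  ∑ d ∈ fam z b P j, ct b j d * ∏ q ∈ d, g q

private theorem Lev_eta_nonneg (k b j : ℕ) : 0 ≤ eta k b j := by
  unfold eta kk
  positivity

private theorem Lev_top (Q : Finset ℕ) (g : ℕ → ℝ) (hg : ∀ q ∈ Q, 0 ≤ g q) (n : ℕ) (G : ℝ)
    (hG : ∑ r ∈ Q, g r ≤ G) :
    ∑ d ∈ Q.powerset with d.card = n, ∏ r ∈ d, g r ≤ Real.exp (4 * G) / 4 ^ n := by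
  classical
  rw [le_div_iff₀ (by positivity), Finset.sum_mul]
  have h1 : ∏ r ∈ Q, (1 + 4 * g r) ≤ Real.exp (4 * G) := by
    calc ∏ r ∈ Q, (1 + 4 * g r) ≤ ∏ r ∈ Q, Real.exp (4 * g r) := by
          refine Finset.prod_le_prod (fun r hr => by have := hg r hr; positivity) fun r _ => ?_
          have := Real.add_one_le_exp (4 * g r)
          linarith
      _ = Real.exp (4 * ∑ r ∈ Q, g r) := by rw [← Real.exp_sum, ← Finset.mul_sum]
      _ ≤ Real.exp (4 * G) := Real.exp_le_exp.mpr (by linarith)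
  refine le_trans ?_ h1
  rw [Finset.prod_one_add]
  calc ∑ d ∈ Q.powerset with d.card = n, (∏ r ∈ d, g r) * 4 ^ n
      = ∑ d ∈ Q.powerset with d.card = n, ∏ r ∈ d, (4 * g r) := by
        refine Finset.sum_congr rfl fun d hd => ?_
        rw [Finset.prod_mul_distrib, Finset.prod_const, (mem_filter.mp hd).2, mul_comm]
    _ ≤ ∑ d ∈ Q.powerset, ∏ r ∈ d, (4 * g r) := by
        refine Finset.sum_le_sum_of_subset_of_nonneg (filter_subset _ _) fun d hd _ => ?_
        refine Finset.prod_nonneg fun r hr => ?_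
        have := hg r (Finset.mem_powerset.mp hd hr)
        positivity

theorem level {k z b : ℕ} {P : Finset ℕ} (hP : ∀ r ∈ P, r.Prime ∧ r ≤ z) (hz : 2 ≤ z) (g : ℕ → ℝ)
    (hg : ∀ q ∈ P, 0 ≤ g q ∧ g q ≤ 1 / 2 ∧ g q ≤ 2 * k / q) (j : ℕ) :
    0 < VV z P g j ∧ VV z P g j ≤ TT z b P g j ∧ TT z b P g j ≤ VV z P g j * (1 + eta k b j) ∧
      0 ≤ ET z b P g j ∧ ET z b P g j ≤ VV z P g j * eta k b j := by
  classical
  have hg' : ∀ q ∈ PJ z P j, 0 ≤ g q ∧ g q ≤ 1 / 2 ∧ g q ≤ 2 * k / q :=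
    fun r hr => hg r (mem_filter.mp hr).1
  have hG : ∑ r ∈ PJ z P j, g r ≤ 12 * k := by
    have h1 : ∀ r ∈ PJ z P j, g r ≤ 2 * k * (1 / (r : ℝ)) := by
      intro r hr
      rw [show (2 : ℝ) * k * (1 / r) = 2 * k / r by ring]
      exact (hg' r hr).2.2
    refine (Finset.sum_le_sum h1).trans ?_
    rw [← Finset.mul_sum]
    have := sum_level_le hP hz j
    have hk : (0 : ℝ) ≤ k := Nat.cast_nonneg k
    nlinarith
  have hV : Real.exp (-(24 * k)) ≤ VV z P g j := by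
    unfold VV
    calc Real.exp (-(24 * k)) ≤ Real.exp (∑ r ∈ PJ z P j, (-2 * g r)) := by
          rw [← Finset.mul_sum]
          exact Real.exp_le_exp.mpr (by linarith)
      _ = ∏ r ∈ PJ z P j, Real.exp (-2 * g r) := Real.exp_sum _ _
      _ ≤ ∏ r ∈ PJ z P j, (1 - g r) := by
          refine Finset.prod_le_prod (fun _ _ => (Real.exp_pos _).le) fun r hr => ?_
          obtain ⟨h0, h1, -⟩ := hg' r hr
          have h2 : 1 + 2 * g r ≤ Real.exp (2 * g r) := by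
            have := Real.add_one_le_exp (2 * g r)
            linarith
          have h3 : Real.exp (-2 * g r) ≤ 1 / (1 + 2 * g r) := by
            rw [show -2 * g r = -(2 * g r) by ring, Real.exp_neg, ← one_div]
            exact one_div_le_one_div_of_le (by linarith) h2
          refine h3.trans ?_
          rw [div_le_iff₀ (by linarith)]
          nlinarith
  have hVpos : 0 < VV z P g j := lt_of_lt_of_le (Real.exp_pos _) hV
  obtain ⟨hb1, hb2⟩ := bern (PJ z P j) g (fun q hq => ⟨(hg' q hq).1, by linarith [(hg' q hq).2.1]⟩)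
    (mJ b j) (even_mJ b j)
  have htop := Lev_top (PJ z P j) g (fun q hq => (hg' q hq).1) (mJ b j + 1) (12 * k) hG
  have hT : TT z b P g j = ∑ d ∈ (PJ z P j).powerset with d.card ≤ mJ b j,
      ((-1 : ℝ) ^ d.card * ∏ r ∈ d, g r) := sum_cm z b P j _
  have hE : ET z b P g j = ∑ d ∈ (PJ z P j).powerset with d.card = mJ b j + 1,
      ∏ r ∈ d, g r := sum_ct z b P j _
  have he : ET z b P g j ≤ VV z P g j * eta k b j := by
    rw [hE]
    refine htop.trans ?_
    have h1 : Real.exp (4 * (12 * k)) / 4 ^ (mJ b j + 1) ≤ Real.exp (-(24 * k)) * eta k b j := by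
      unfold eta kk mJ
      have h2 : Real.exp (-(24 * (k : ℝ))) * (Real.exp (72 * k) * (1 / 2) ^ b * (1 / 2) ^ (j + 1)) =
          Real.exp (4 * (12 * k)) * ((1 / 2) ^ b * (1 / 2) ^ (j + 1)) := by
        rw [← mul_assoc, ← mul_assoc, ← Real.exp_add, mul_assoc]
        congr 2
        ring
      rw [h2, div_eq_mul_inv]
      refine mul_le_mul_of_nonneg_left ?_ (Real.exp_pos _).le
      have h3 : ((4 : ℝ) ^ (2 * (b + j) + 1))⁻¹ = (1 / 2) ^ (2 * (2 * (b + j) + 1)) := by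
        rw [pow_mul (1 / 2 : ℝ) 2, one_div, inv_pow, inv_pow]
        norm_num
      rw [h3, ← pow_add]
      exact pow_le_pow_of_le_one (by norm_num) (by norm_num) (by omega)
    refine h1.trans ?_
    exact mul_le_mul_of_nonneg_right hV (Lev_eta_nonneg k b j)
  refine ⟨hVpos, ?_, ?_, ?_, he⟩
  · rw [hT]; exact hb1
  · rw [hT]
    rw [hE] at he
    have : VV z P g j = ∏ q ∈ PJ z P j, (1 - g q) := rfl
    rw [this] at he ⊢
    linarith
  · rw [hE]
    refine Finset.sum_nonneg fun d hd => Finset.prod_nonneg fun r hr => ?_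
    exact (hg' r (Finset.mem_powerset.mp (mem_filter.mp hd).1 hr)).1

end Pool.Agent.Lib.MTR
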