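import Pool.Agent.Lib.MTR.Lev

/-!
# MTR-Mnt: the main terms of the Brun-Hooley sieve of dimension `k`

PROOF. As `RG.expand_main`, `RG.sum_ww_main` (RG/SL.lean) with the densities `g`. `∏_j ∑_{d ∈ fam j} c_j d ∏_d g = ∑_{E ∈ fa} (∏_j c_j (E j)) ∏_{un E} g`
(`Finset.prod_univ_sum`, `GT.prod_un`); `∏_{q ∈ P} (1 - g q) = ∏_j VV j` (`GT.prod_PJ`). `main_up`: `∏ VV ≤ ∏ TT ≤ ∏ VV (1 + eta) ≤ exp (∑ eta) ∏ VV`,
`∑_j eta k b j ≤ kk k (1/2)^b` (as `GT.sum_ηj_le`). `main_low`: `ww b E = ∏ cm - ∑_l ∏ cl`, so the sum is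
`∏ TT - ∑_l ET l ∏_{j ≠ l} TT j ≥ ∏ VV - ∑_l eta l ∏ VV · exp (kk k)`.
-/

set_option autoImplicit false

open Finset

namespace Pool.Agent.Lib.MTR

open Pool.Agent.Lib.GT Pool.Agent.Lib.RG

private theorem Mnt_eta_nonneg (k b j : ℕ) : 0 ≤ eta k b j := by
  unfold eta kk
  positivity

private theorem Mnt_sum_eta (k b J : ℕ) : ∑ j : Fin J, eta k b j ≤ kk k * (1 / 2) ^ b := by
  have h : ∀ J : ℕ, ∑ j ∈ range J, eta k b j = kk k * (1 / 2) ^ b * (1 - (1 / 2) ^ J) := by
    intro J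
    induction J with
    | zero => simp
    | succ n ih =>
      rw [Finset.sum_range_succ, ih]
      unfold eta
      ring
  rw [← Finset.sum_range (fun j => eta k b j), h]
  have h1 : (0 : ℝ) ≤ (1 / 2) ^ J := by positivity
  have h2 : 0 ≤ kk k * (1 / 2 : ℝ) ^ b := by unfold kk; positivity
  nlinarith

private theorem Mnt_expand {z b : ℕ} {P : Finset ℕ} (g : ℕ → ℝ) (c : Fin (NJ z) → Finset ℕ → ℝ) :
    ∏ j : Fin (NJ z), ∑ d ∈ fam z b P j, (c j d * ∏ r ∈ d, g r) =
      ∑ E ∈ fa z b P, (∏ j, c j (E j)) * ∏ q ∈ un E, g q := by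
  classical
  rw [Finset.prod_univ_sum]
  refine Finset.sum_congr rfl fun E hE => ?_
  rw [Finset.prod_mul_distrib, ← prod_un E hE g]

private theorem Mnt_prod {z : ℕ} {P : Finset ℕ} (hP : ∀ r ∈ P, r.Prime ∧ r ≤ z) (g : ℕ → ℝ) :
    ∏ q ∈ P, (1 - g q) = ∏ j : Fin (NJ z), VV z P g j := by
  rw [prod_PJ hP (fun r => 1 - g r)]
  rfl

theorem main_up {k z b : ℕ} {P : Finset ℕ} (hP : ∀ r ∈ P, r.Prime ∧ r ≤ z) (hz : 2 ≤ z) (g : ℕ → ℝ)
    (hg : ∀ q ∈ P, 0 ≤ g q ∧ g q ≤ 1 / 2 ∧ g q ≤ 2 * k / q) :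
    ∏ q ∈ P, (1 - g q) ≤ ∑ E ∈ fa z b P, (∏ j : Fin (NJ z), cm b j (E j)) * ∏ q ∈ un E, g q ∧
    ∑ E ∈ fa z b P, (∏ j : Fin (NJ z), cm b j (E j)) * ∏ q ∈ un E, g q ≤
      Real.exp (kk k * (1 / 2) ^ b) * ∏ q ∈ P, (1 - g q) := by
  have hlev := fun j : Fin (NJ z) => level (b := b) hP hz g hg j
  have hT : ∏ j : Fin (NJ z), TT z b P g j =
      ∑ E ∈ fa z b P, (∏ j : Fin (NJ z), cm b j (E j)) * ∏ q ∈ un E, g q :=
    Mnt_expand g (fun j d => cm b j d)
  rw [← hT, Mnt_prod hP g]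
  have hV0 : 0 ≤ ∏ j : Fin (NJ z), VV z P g j := Finset.prod_nonneg fun j _ => (hlev j).1.le
  constructor
  · exact Finset.prod_le_prod (fun j _ => (hlev j).1.le) fun j _ => (hlev j).2.1
  · calc ∏ j : Fin (NJ z), TT z b P g j ≤ ∏ j : Fin (NJ z), (VV z P g j * (1 + eta k b j)) :=
          Finset.prod_le_prod (fun j _ => (hlev j).1.le.trans (hlev j).2.1) fun j _ => (hlev j).2.2.1
      _ = (∏ j : Fin (NJ z), VV z P g j) * ∏ j : Fin (NJ z), (1 + eta k b j) :=
          Finset.prod_mul_distrib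
      _ ≤ (∏ j : Fin (NJ z), VV z P g j) * Real.exp (kk k * (1 / 2) ^ b) := by
          refine mul_le_mul_of_nonneg_left ?_ hV0
          calc ∏ j : Fin (NJ z), (1 + eta k b j) ≤ ∏ j : Fin (NJ z), Real.exp (eta k b j) := by
                refine Finset.prod_le_prod (fun j _ => by have := Mnt_eta_nonneg k b j; linarith)
                  fun j _ => ?_
                have := Real.add_one_le_exp (eta k b j)
                linarith
            _ = Real.exp (∑ j : Fin (NJ z), eta k b j) := (Real.exp_sum _ _).symm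
            _ ≤ Real.exp (kk k * (1 / 2) ^ b) := Real.exp_le_exp.mpr (Mnt_sum_eta k b _)
      _ = _ := mul_comm _ _

theorem main_low {k z b : ℕ} {P : Finset ℕ} (hP : ∀ r ∈ P, r.Prime ∧ r ≤ z) (hz : 2 ≤ z) (g : ℕ → ℝ)
    (hg : ∀ q ∈ P, 0 ≤ g q ∧ g q ≤ 1 / 2 ∧ g q ≤ 2 * k / q) :
    (1 - kk k * Real.exp (kk k) * (1 / 2) ^ b) * ∏ q ∈ P, (1 - g q) ≤
      ∑ E ∈ fa z b P, ww b E * ∏ q ∈ un E, g q := by
  classical
  have hkk : 0 < kk k := by unfold kk; exact Real.exp_pos _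
  have hlev := fun j : Fin (NJ z) => level (b := b) hP hz g hg j
  have hT : ∏ j : Fin (NJ z), TT z b P g j =
      ∑ E ∈ fa z b P, (∏ j : Fin (NJ z), cm b j (E j)) * ∏ q ∈ un E, g q :=
    Mnt_expand g (fun j d => cm b j d)
  have hE : ∀ l : Fin (NJ z), ET z b P g l * ∏ j ∈ Finset.univ.erase l, TT z b P g j =
      ∑ E ∈ fa z b P, (∏ j, cl b l j (E j)) * ∏ q ∈ un E, g q := by
    intro l
    rw [← Mnt_expand g (cl b l)]
    rw [← Finset.mul_prod_erase Finset.univ _ (Finset.mem_univ l)]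
    congr 1
    · unfold ET cl
      simp only [if_true]
    · refine Finset.prod_congr rfl fun j hj => ?_
      have : j ≠ l := Finset.ne_of_mem_erase hj
      unfold TT cl
      simp only [if_neg this]
  have h1 : ∑ E ∈ fa z b P, ww b E * ∏ q ∈ un E, g q =
      ∏ j : Fin (NJ z), TT z b P g j -
        ∑ l : Fin (NJ z), ET z b P g l * ∏ j ∈ Finset.univ.erase l, TT z b P g j := by
    rw [hT]
    simp_rw [hE]
    rw [Finset.sum_comm, ← Finset.sum_sub_distrib]
    refine Finset.sum_congr rfl fun E _ => ?_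
    unfold ww
    rw [← Finset.sum_mul]
    ring
  have h5 : ∏ j : Fin (NJ z), VV z P g j ≤ ∏ j : Fin (NJ z), TT z b P g j :=
    Finset.prod_le_prod (fun j _ => (hlev j).1.le) fun j _ => (hlev j).2.1
  have h3 : ∀ l : Fin (NJ z), ET z b P g l * ∏ j ∈ Finset.univ.erase l, TT z b P g j ≤
      eta k b l * (Real.exp (kk k) * ∏ j : Fin (NJ z), VV z P g j) := by
    intro l
    calc ET z b P g l * ∏ j ∈ Finset.univ.erase l, TT z b P g j
        ≤ (VV z P g l * eta k b l) * ∏ j ∈ Finset.univ.erase l, (VV z P g j * (1 + eta k b j)) := by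
          refine mul_le_mul (hlev l).2.2.2.2 ?_ ?_ ?_
          · exact Finset.prod_le_prod (fun j _ => (hlev j).1.le.trans (hlev j).2.1)
              fun j _ => (hlev j).2.2.1
          · exact Finset.prod_nonneg fun j _ => (hlev j).1.le.trans (hlev j).2.1
          · exact mul_nonneg (hlev l).1.le (Mnt_eta_nonneg k b l)
      _ = (VV z P g l * eta k b l) * ((∏ j ∈ Finset.univ.erase l, VV z P g j) *
            ∏ j ∈ Finset.univ.erase l, (1 + eta k b j)) := by rw [Finset.prod_mul_distrib]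
      _ ≤ (VV z P g l * eta k b l) * ((∏ j ∈ Finset.univ.erase l, VV z P g j) *
            Real.exp (kk k)) := by
          refine mul_le_mul_of_nonneg_left ?_ (mul_nonneg (hlev l).1.le (Mnt_eta_nonneg k b l))
          refine mul_le_mul_of_nonneg_left ?_ (Finset.prod_nonneg fun j _ => (hlev j).1.le)
          calc ∏ j ∈ Finset.univ.erase l, (1 + eta k b j)
              ≤ ∏ j ∈ Finset.univ.erase l, Real.exp (eta k b j) := by
                refine Finset.prod_le_prod (fun j _ => by have := Mnt_eta_nonneg k b j; linarith)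
                  fun j _ => ?_
                have := Real.add_one_le_exp (eta k b j)
                linarith
            _ = Real.exp (∑ j ∈ Finset.univ.erase l, eta k b j) := (Real.exp_sum _ _).symm
            _ ≤ Real.exp (kk k) := by
                refine Real.exp_le_exp.mpr ?_
                refine (Finset.sum_le_sum_of_subset_of_nonneg (Finset.erase_subset l Finset.univ)
                  (fun j _ _ => Mnt_eta_nonneg k b j)).trans ?_
                refine (Mnt_sum_eta k b (NJ z)).trans ?_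
                have : (1 / 2 : ℝ) ^ b ≤ 1 := pow_le_one₀ (by norm_num) (by norm_num)
                nlinarith
      _ = eta k b l * (Real.exp (kk k) * (VV z P g l * ∏ j ∈ Finset.univ.erase l, VV z P g j)) := by
          ring
      _ = _ := by
          rw [Finset.mul_prod_erase Finset.univ (fun j : Fin (NJ z) => VV z P g j) (Finset.mem_univ l)]
  have hV0 : 0 ≤ ∏ j : Fin (NJ z), VV z P g j := Finset.prod_nonneg fun j _ => (hlev j).1.le
  have h6 : ∑ l : Fin (NJ z), ET z b P g l * ∏ j ∈ Finset.univ.erase l, TT z b P g j ≤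
      kk k * Real.exp (kk k) * (1 / 2) ^ b * ∏ j : Fin (NJ z), VV z P g j := by
    refine (Finset.sum_le_sum fun l _ => h3 l).trans ?_
    rw [← Finset.sum_mul]
    have h7 := mul_le_mul_of_nonneg_right (Mnt_sum_eta k b (NJ z))
      (mul_nonneg (Real.exp_pos (kk k)).le hV0)
    refine h7.trans (le_of_eq ?_)
    ring
  rw [h1, Mnt_prod hP g]
  linarith

end Pool.Agent.Lib.MTR
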