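import Pool.Agent.Lib.MTR.Defs
import Pool.Agent.Lib.MT.LayD

/-!
# MTR-One2: primes in classes mod the primes of `d`, for a pair of colourings

PROOF. As `layD_cop`, `layD_one` (MT/LayD.lean), with `Av d σ`, `Av d τ` for the coprimality of `∏_{p ∈ d} p` and `mod2 σ τ` (there: `d ⊆ PP 0 z`, primes of `P` `> z`).
-/

set_option autoImplicit false

open Finset

namespace Pool.Agent.Lib.MTR

open Pool.Agent.Lib.MT

variable {P : Finset ℕ} {ι : Type} [Fintype ι] [DecidableEq ι]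

omit [Fintype ι] [DecidableEq ι] in
/-- the primes of `d` do not divide `mod2` -/
theorem one2_av (hP : ∀ p ∈ P, p.Prime) (d : Finset ℕ) (hd : ∀ p ∈ d, p.Prime) (σ τ : Col P ι)
    (hσ : Av d σ) (hτ : Av d τ) {p : ℕ} (hp : p ∈ d) : Nat.Coprime p (mod2 σ τ) := by
  unfold mod2
  refine Nat.Coprime.prod_right fun q _ => ?_
  split_ifs with hn
  · exact Nat.coprime_one_right p
  · refine (Nat.coprime_primes (hd p hp) (hP q q.2)).2 ?_
    intro he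
    exact hn ⟨hσ q (he ▸ hp), hτ q (he ▸ hp)⟩

omit [Fintype ι] [DecidableEq ι] in
/-- `x + h m` is coprime to the modulus on the classes -/
theorem one2_cop (hP : ∀ p ∈ P, p.Prime) (h : ι → ℕ) (m : ι)
    (hij : ∀ p ∈ P, ∀ i j, i ≠ j → ¬ h i ≡ h j [MOD p])
    (Ω : ℕ → Finset ℕ) (d : Finset ℕ) (hd : ∀ p ∈ d, p.Prime)
    (hΩ : ∀ p ∈ d, ∀ c ∈ Ω p, c < p ∧ ¬ p ∣ c + h m)
    (σ τ : Col P ι) (hσ : ∀ p, σ p ≠ some m) (hτ : ∀ p, τ p ≠ some m) (c : ℕ)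
    (h1 : ∀ p ∈ d, c % p ∈ Ω p) (h2 : Fit h c σ) (h3 : Fit h c τ) :
    Nat.Coprime (c + h m) ((∏ p ∈ d, p) * mod2 σ τ) := by
  refine Nat.Coprime.mul_right (Nat.Coprime.prod_right fun p hp => ?_) ?_
  · have hpp : p.Prime := hd p hp
    refine Nat.Coprime.symm ((hpp.coprime_iff_not_dvd).2 fun hdvd => ?_)
    refine (hΩ p hp (c % p) (h1 p hp)).2 ?_
    rw [← Nat.modEq_zero_iff_dvd] at hdvd ⊢
    exact (Nat.ModEq.add_right _ (Nat.mod_modEq c p)).trans hdvd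
  · unfold mod2
    refine Nat.Coprime.prod_right fun p _ => ?_
    split_ifs with hn
    · exact Nat.coprime_one_right _
    · refine Nat.Coprime.symm (((hP p p.2).coprime_iff_not_dvd).2 fun hdvd => ?_)
      have key : ∀ i, i ≠ m → (p : ℕ) ∣ c + h i → False := by
        intro i him hi
        refine hij p p.2 i m him ?_
        refine Nat.ModEq.add_left_cancel' c ?_
        exact ((Nat.modEq_zero_iff_dvd).2 hi).trans ((Nat.modEq_zero_iff_dvd).2 hdvd).symm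
      rcases hs : σ p with _ | i
      · rcases ht : τ p with _ | j
        · exact hn ⟨hs, ht⟩
        · exact key j (fun hj => hτ p (by rw [ht, hj])) (h3 p j ht)
      · exact key i (fun hi => hσ p (by rw [hs, hi])) (h2 p i hs)

open Classical in
theorem one2 (hP : ∀ p ∈ P, p.Prime) (X : ℕ) (h : ι → ℕ) (m : ι)
    (hij : ∀ p ∈ P, ∀ i j, i ≠ j → ¬ h i ≡ h j [MOD p])
    (Ω : ℕ → Finset ℕ) (d : Finset ℕ) (hd : ∀ p ∈ d, p.Prime)
    (hΩ : ∀ p ∈ d, ∀ c ∈ Ω p, c < p ∧ ¬ p ∣ c + h m)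
    (σ τ : Col P ι) (hσd : Av d σ) (hτd : Av d τ)
    (hc : ∀ p i j, σ p = some i → τ p = some j → i = j) (hσ : ∀ p, σ p ≠ some m)
    (hτ : ∀ p, τ p ≠ some m) (hq : (∏ p ∈ d, p) * mod2 σ τ ≤ X)
    (E : ℕ → ℝ)
    (hE : ∀ q c, 1 ≤ q → Nat.Coprime c q →
      |BV.EE BV.th (2 * X + h m) q c| + |BV.EE BV.th (X + h m) q c| ≤ E q) :
    |∑ x ∈ ((Ioc X (2 * X)).filter (fun x => ∀ p ∈ d, x % p ∈ Ω p)).filter
          (fun x => Fit h x σ ∧ Fit h x τ), BV.th (x + h m) -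
        (∑ n ∈ Ioc (X + h m) (2 * X + h m), BV.th n) * (∏ p ∈ d, ((Ω p).card : ℝ) / ((p : ℝ) - 1)) *
          (1 / ((mod2 σ τ).totient : ℝ))| ≤
      (∏ p ∈ d, ((Ω p).card : ℝ)) * E ((∏ p ∈ d, p) * mod2 σ τ) := by
  obtain ⟨b, hb⟩ := crt_pair hP h σ τ hc
  have hM := layC_mod2_pos hP σ τ
  have hdpz : d ⊆ Pool.Agent.Lib.MP_092512_nt.P3.B.pz (d.sup id) := by
    intro p hp
    exact Pool.Agent.Lib.MP_092512_nt.P3.B.mem_pz.2 ⟨hd p hp, Finset.le_sup (f := id) hp⟩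
  have hcop : ∀ p ∈ d, Nat.Coprime p (mod2 σ τ) := fun p hp => one2_av hP d hd σ τ hσd hτd hp
  obtain ⟨C, hC1, hC2, hC3⟩ := Pool.Agent.Lib.MP_092512_nt.P3.B.crt_classes d hd Ω
    (fun p hp c hc => (hΩ p hp c hc).1)
    (mod2 σ τ) (b % mod2 σ τ) hM (Nat.mod_lt b hM) hcop
  set q := (∏ p ∈ d, p) * mod2 σ τ with hqdef
  have hq1 : 1 ≤ q := Nat.mul_pos (prod_pos fun p hp => (hd p hp).pos) hM
  have hset : ((Ioc X (2 * X)).filter (fun x => ∀ p ∈ d, x % p ∈ Ω p)).filter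
      (fun x => Fit h x σ ∧ Fit h x τ) = (Ioc X (2 * X)).filter (fun x => x % q ∈ C) := by
    rw [filter_filter]
    refine filter_congr fun x _ => ?_
    rw [hb x]
    exact hC3 x
  have hcopC : ∀ c ∈ C, Nat.Coprime (c + h m) q := by
    intro c hcC
    have hlt : c < q := mem_range.1 (hC1 hcC)
    have h1 := (hC3 c).2 (by rw [Nat.mod_eq_of_lt hlt]; exact hcC)
    have h2 := (hb c).2 h1.2
    exact one2_cop hP h m hij Ω d hd hΩ σ τ hσ hτ c h1.1 h2.1 h2.2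
  obtain ⟨Θ, hΘ⟩ : ∃ Θ : ℝ, Θ = ∑ n ∈ Ioc (X + h m) (2 * X + h m), BV.th n := ⟨_, rfl⟩
  have hsum : ∑ x ∈ (Ioc X (2 * X)).filter (fun x => x % q ∈ C), BV.th (x + h m) =
      ∑ c ∈ C, ∑ n ∈ (Ioc (X + h m) (2 * X + h m)).filter (fun n => n ≡ c + h m [MOD q]), BV.th n := by
    rw [← sum_fiberwise_of_maps_to (t := C) (g := fun x => x % q) (fun x hx => (mem_filter.1 hx).2)]
    refine sum_congr rfl fun c hcC => ?_
    rw [← layD_shift X (h m) q c (mem_range.1 (hC1 hcC)), filter_filter]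
    refine sum_congr (filter_congr fun x _ => ?_) fun _ _ => rfl
    exact ⟨fun h' => h'.2, fun h' => ⟨by rw [h']; exact hcC, h'⟩⟩
  have htot : ((q.totient : ℕ) : ℝ) = (∏ p ∈ d, ((p : ℝ) - 1)) * ((mod2 σ τ).totient : ℝ) := by
    rw [hqdef, Nat.totient_mul (Nat.Coprime.prod_left hcop),
      (Pool.Agent.Lib.MP_092512_nt.P3.B.b15_d hdpz).2.2]
    push_cast
    congr 1
    refine prod_congr rfl fun p hp => ?_
    have := (hd p hp).one_le
    push_cast [Nat.cast_sub this]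
    rfl
  have hmain : Θ * (∏ p ∈ d, ((Ω p).card : ℝ) / ((p : ℝ) - 1)) * (1 / ((mod2 σ τ).totient : ℝ)) =
      ∑ _c ∈ C, (1 / (q.totient : ℝ)) * Θ := by
    rw [sum_const, nsmul_eq_mul, hC2, htot, prod_div_distrib]
    push_cast
    simp only [div_eq_mul_inv, mul_inv]
    ring
  rw [hset, hsum, ← hΘ, hmain, ← sum_sub_distrib]
  refine (abs_sum_le_sum_abs _ _).trans ?_
  calc ∑ c ∈ C, |∑ n ∈ (Ioc (X + h m) (2 * X + h m)).filter (fun n => n ≡ c + h m [MOD q]), BV.th n -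
        (1 / (q.totient : ℝ)) * Θ| ≤ ∑ _c ∈ C, E q := by
        refine sum_le_sum fun c hcC => ?_
        rw [hΘ]
        exact layD_class X (h m) q (c + h m) hq1 hq (E q) (hE q (c + h m) hq1 (hcopC c hcC))
    _ = (∏ p ∈ d, ((Ω p).card : ℝ)) * E q := by
        rw [sum_const, nsmul_eq_mul, hC2]
        push_cast
        rfl

end Pool.Agent.Lib.MTR
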