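import Pool.Agent.Lib.MTR.FL
import Pool.Agent.Lib.MTR.S2s
import Pool.Agent.Lib.MTR.BadS
import Pool.Agent.Lib.MTR.Core
import Pool.Agent.Lib.MTR.Wlow

/-!
# MTR-RatS: the sifted sum of the weights
-/

set_option autoImplicit false

open Finset

namespace Pool.Agent.Lib.MTR

open Pool.Agent.Lib.MT

private theorem rmu {P : Finset ℕ} {ι : Type} [Fintype ι] [DecidableEq ι] (σ : Col P ι) :
    |mu σ| = 1 := by
  unfold mu
  rw [abs_prod]
  refine prod_eq_one fun p _ => ?_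
  split_ifs
  · exact abs_one
  · rw [abs_neg, abs_one]

private theorem rzz {P : Finset ℕ} {ι : Type} [Fintype ι] [DecidableEq ι] (g : ℕ → ℝ)
    (hg0 : ∀ n, 0 ≤ g n) (hg1 : ∀ n, g n ≤ 1) (R : ℕ) (σ : Col P ι) : |zz g R σ| ≤ 1 := by
  unfold zz
  rw [abs_mul, rmu, one_mul]
  unfold yy
  split_ifs
  · rw [abs_of_nonneg (prod_nonneg fun i _ => hg0 _)]
    exact prod_le_one (fun i _ => hg0 _) fun i _ => hg1 _
  · rw [abs_zero]
    exact zero_le_one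

private theorem rsupp {P : Finset ℕ} {ι : Type} [Fintype ι] [DecidableEq ι] (g : ℕ → ℝ)
    (R : ℕ) (σ : Col P ι) (h : zz g R σ ≠ 0) : tot σ ≤ R := by
  by_contra hc
  apply h
  unfold zz yy
  rw [if_neg hc, mul_zero]

/-- the numerical end -/
private theorem rnumS (m k H l TW E X : ℝ) (hm : 1 ≤ m) (hl : k + m + k * H ≤ l) (hE : 0 ≤ E)
    (G S Bd : ℝ) (h1 : TW * (2 * m + 2) - k * E ≤ G) (h2 : S ≤ 2 * TW + E) (h3 : Bd ≤ TW + k * H * E)
    (h4 : X ≤ TW) (h5 : l * E ≤ X) (hX : 0 ≤ X) : X ≤ G - (m - 1) * S - Bd := by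
  have e1 : (m - 1) * S ≤ (m - 1) * (2 * TW + E) := mul_le_mul_of_nonneg_left h2 (by linarith)
  have e2 : (k + m + k * H) * E ≤ l * E := mul_le_mul_of_nonneg_right hl hE
  nlinarith

theorem ratioS (m : ℕ) (hm : 1 ≤ m) : ∃ k : ℕ, 1 ≤ k ∧ ∃ C₀ C₁ : ℕ, ∀ B : ℕ, ∃ δ : ℝ, 0 < δ ∧ ∃ X₀ : ℕ,
    ∀ X z y N : ℕ, X₀ ≤ X → (Real.log X) ^ C₁ ≤ z → (z : ℝ) ≤ (Real.log X) ^ B →
    (y : ℝ) ≤ (X : ℝ) ^ δ → Even N →
    ∀ Q ⊆ PP z y, (∀ q ∈ Q, ∀ t ≤ k * primorial (2 * k), ∀ c ∈ On (hh k) N q, ¬ q ∣ c + t) →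
    ∃ L : Col (PP z ⌊(X : ℝ) ^ (1 / 5 : ℝ)⌋₊) (Fin k) → ℝ,
      (∀ σ, |L σ| ≤ ∏ p : {p : ℕ // p ∈ PP z ⌊(X : ℝ) ^ (1 / 5 : ℝ)⌋₊}, (1 + (k : ℝ) / ((p : ℕ) : ℝ))) ∧
      X / (Real.log X) ^ C₀ ≤
        ∑ x ∈ (Pre (Om2 (hh k) N) z X).filter (fun x => ∀ q ∈ Q, x % q ∉ On (hh k) N q),
          ((good k x : ℝ) - (m - 1) - k * bad k x) * (FF (hh k) L x) ^ 2 := by
  obtain ⟨k, hk1, hcore⟩ := core (8 * m + 7)
  obtain ⟨s, hs1, hfl⟩ := fl k
  obtain ⟨C₂, X₂, hwl⟩ := wlow k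
  obtain ⟨A, hA⟩ : ∃ A : ℕ, A = C₂ + 3 := ⟨_, rfl⟩
  obtain ⟨Ca, ha'⟩ := S1s (Fin k) (2 * k) A
  obtain ⟨Cb, hb'⟩ := S2s (Fin k) (2 * k) A
  obtain ⟨Cc, hc'⟩ := badS k A
  refine ⟨k, hk1, C₂ + 1, Ca + Cb + Cc + 1, fun B => ?_⟩
  obtain ⟨X₁, hcore⟩ := hcore B
  obtain ⟨δa, hδa, Xa, hSa⟩ := ha' B
  obtain ⟨δb, hδb, Xb, hSb⟩ := hb' B
  obtain ⟨δc, hδc, Xc, hSc⟩ := hc' B
  obtain ⟨δm, hδm, hma, hmb, hmc, hm1⟩ : ∃ δm : ℝ, 0 < δm ∧ δm ≤ δa ∧ δm ≤ δb ∧ δm ≤ δc ∧ δm ≤ 1 := by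
    refine ⟨min (min δa δb) (min δc 1), by positivity, ?_, ?_, ?_, ?_⟩
    · exact (min_le_left _ _).trans (min_le_left _ _)
    · exact (min_le_left _ _).trans (min_le_right _ _)
    · exact (min_le_right _ _).trans (min_le_left _ _)
    · exact (min_le_right _ _).trans (min_le_right _ _)
  have hs0 : (0 : ℝ) < s := by exact_mod_cast hs1
  obtain ⟨H, hH⟩ : ∃ H : ℕ, H = k * primorial (2 * k) := ⟨_, rfl⟩
  obtain ⟨X₃, hX3⟩ : ∃ X₃ : ℕ, ∀ X : ℕ, X₃ ≤ X →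
      ((16 * k ^ 2 + H + 2 + (4 * k + 4) + (k + m + k * H) : ℕ) : ℝ) + 3 ≤ Real.log X := by
    have h3 : Filter.Tendsto (fun X : ℕ => Real.log (X : ℝ)) Filter.atTop Filter.atTop :=
      Real.tendsto_log_atTop.comp tendsto_natCast_atTop_atTop
    exact Filter.eventually_atTop.mp (h3.eventually_ge_atTop _)
  obtain ⟨X₄, hX4⟩ : ∃ X₄ : ℕ, ∀ X : ℕ, X₄ ≤ X → (2 : ℝ) ≤ (X : ℝ) ^ (δm / s) := by
    have h3 : Filter.Tendsto (fun X : ℕ => (X : ℝ) ^ (δm / s)) Filter.atTop Filter.atTop :=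
      (tendsto_rpow_atTop (by positivity)).comp tendsto_natCast_atTop_atTop
    exact Filter.eventually_atTop.mp (h3.eventually_ge_atTop _)
  refine ⟨δm / s, by positivity, X₁ + X₂ + X₃ + X₄ + Xa + Xb + Xc + 3, fun X z y N hX hz hzB hy hN Q hQ hQt => ?_⟩
  obtain ⟨R, hR⟩ : ∃ R : ℕ, R = ⌊(X : ℝ) ^ (1 / 5 : ℝ)⌋₊ := ⟨_, rfl⟩
  rw [← hR]
  have hlX := hX3 X (by omega)
  obtain ⟨l, hl⟩ : ∃ l : ℝ, l = Real.log X := ⟨_, rfl⟩
  rw [← hl] at hlX hz hzB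
  push_cast at hlX
  have hkR : (1 : ℝ) ≤ k := by exact_mod_cast hk1
  have hmR : (1 : ℝ) ≤ m := by exact_mod_cast hm
  have hHR : (0 : ℝ) ≤ H := Nat.cast_nonneg H
  have hl3 : 3 ≤ l := by
    have : (0 : ℝ) ≤ 16 * (k : ℝ) ^ 2 + H + 2 + (4 * k + 4) + (k + m + k * H) := by positivity
    linarith
  have hl1 : 1 ≤ l := by linarith
  have hzpow : ∀ c : ℕ, c ≤ Ca + Cb + Cc + 1 → l ^ c ≤ (z : ℝ) := fun c hc =>
    (pow_le_pow_right₀ hl1 hc).trans hz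
  have hzl : l ≤ z := by
    have := hzpow 1 (by omega)
    rwa [pow_one] at this
  have hz1 : 16 * k ^ 2 + H + 2 ≤ z := by
    have : ((16 * k ^ 2 + H + 2 : ℕ) : ℝ) ≤ z := by
      push_cast
      have : (0 : ℝ) ≤ (4 * k + 4) + (k + m + k * H) := by positivity
      linarith
    exact_mod_cast this
  have hz2 : 4 * k + 4 ≤ z := by
    have : ((4 * k + 4 : ℕ) : ℝ) ≤ z := by
      push_cast
      have : (0 : ℝ) ≤ 16 * (k : ℝ) ^ 2 + H + 2 + (k + m + k * H) := by positivity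
      linarith
    exact_mod_cast this
  have hlk : (k : ℝ) + m + k * H ≤ l := by
    have : (0 : ℝ) ≤ 16 * (k : ℝ) ^ 2 + H + 2 + (4 * k + 4) := by positivity
    linarith
  obtain ⟨⟨n1, n2, n3, n4, n5, n6, n7, n8⟩, hVl, g, hg0, hg1, hg2, hBB1, hE, hκ2⟩ :=
    hcore X z N R (by omega) (by rw [← hH]; exact hz1) (by rw [← hl]; exact hzB) hN hR
  rw [← hH] at n5 n6 hκ2 hQt
  have hX1 : (1 : ℝ) ≤ X := by
    have : 1 ≤ X := by omega
    exact_mod_cast this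
  have hX0 : (0 : ℝ) < X := by linarith
  -- the sieve
  obtain ⟨y', hy'⟩ : ∃ y' : ℕ, y' = max y 2 := ⟨_, rfl⟩
  have hy2 : 2 ≤ y' := hy' ▸ le_max_right _ _
  have hyy : y ≤ y' := hy' ▸ le_max_left _ _
  have hyX : (y' : ℝ) ≤ (X : ℝ) ^ (δm / s) := by
    rw [hy']
    push_cast
    exact max_le hy (hX4 X (by omega))
  have hyX1 : (y' : ℝ) ≤ X := by
    refine hyX.trans ?_
    calc (X : ℝ) ^ (δm / s) ≤ (X : ℝ) ^ (1 : ℝ) := by
          refine Real.rpow_le_rpow_of_exponent_le hX1 ?_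
          rw [div_le_one hs0]
          have : (1 : ℝ) ≤ s := by exact_mod_cast hs1
          linarith
      _ = X := Real.rpow_one _
  have hyX2 : y' ≤ X := by exact_mod_cast hyX1
  have hQ' : ∀ q ∈ Q, q.Prime ∧ z < q ∧ q ≤ y' := by
    intro q hq
    have := hQ hq
    unfold PP at this
    rw [mem_filter, mem_range] at this
    exact ⟨this.2.1, this.2.2, by omega⟩
  obtain ⟨D, cp, cn, hD1, hD2, hD3, hD4⟩ := hfl y' hy2 Q (fun q hq => ⟨(hQ' q hq).1, by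
    have := (hQ' q hq).2.1
    omega, (hQ' q hq).2.2⟩)
  have hDz : ∀ d ∈ D, ∀ q ∈ d, q.Prime ∧ z < q := fun d hd q hq =>
    ⟨(hQ' q ((hD1 d hd).1 hq)).1, (hQ' q ((hD1 d hd).1 hq)).2.1⟩
  have hDX : ∀ δ : ℝ, δm ≤ δ → ∀ d ∈ D, ((∏ q ∈ d, q : ℕ) : ℝ) ≤ (X : ℝ) ^ δ := by
    intro δ hδ d hd
    have a1 : ((∏ q ∈ d, q : ℕ) : ℝ) ≤ ((y' ^ s : ℕ) : ℝ) := by exact_mod_cast (hD1 d hd).2
    refine a1.trans ?_
    push_cast
    calc (y' : ℝ) ^ s ≤ ((X : ℝ) ^ (δm / s)) ^ s := pow_le_pow_left₀ (Nat.cast_nonneg _) hyX s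
      _ = (X : ℝ) ^ δm := by
          rw [← Real.rpow_natCast, ← Real.rpow_mul hX0.le, div_mul_cancel₀ _ hs0.ne']
      _ ≤ (X : ℝ) ^ δ := Real.rpow_le_rpow_of_exponent_le hX1 hδ
  have hlogy : 2 + 2 * Real.log y' ≤ l ^ 2 := by
    have a1 : Real.log y' ≤ l := by
      rw [hl]
      exact Real.log_le_log (by exact_mod_cast (by omega : 0 < y')) hyX1
    nlinarith
  have hcp : ∀ d ∈ D, |cp d| ≤ (Real.log X) ^ 2 := fun d hd => by
    rw [← hl]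
    exact (hD2 d hd).1.trans hlogy
  have hcn : ∀ d ∈ D, |cn d| ≤ (Real.log X) ^ 2 := fun d hd => by
    rw [← hl]
    exact (hD2 d hd).2.trans hlogy
  obtain ⟨Ω, hΩ⟩ : ∃ Ω : ℕ → Finset ℕ, Ω = Omz (hh k) N z := ⟨_, rfl⟩
  have hΩQ : ∀ q ∈ Q, Ω q = On (hh k) N q := fun q hq => by
    rw [hΩ]
    exact Omz_big _ _ _ _ (hQ' q hq).2.1
  have hΩc : ∀ q ∈ Q, (Ω q).card ≤ k := fun q hq => by
    rw [hΩQ q hq]
    have := On_card (hh k) N q
    rwa [Fintype.card_fin] at this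
  have hΩK : ∀ p, (Ω p).card ≤ 2 * k := fun p => by
    rw [hΩ]
    have := Omz_card (hh k) N z p
    rwa [Fintype.card_fin] at this
  have hΩlt : ∀ p, p.Prime → ∀ c ∈ Ω p, c < p := fun p _ => by
    rw [hΩ]
    exact Omz_lt (hh k) N z p
  have hDt : ∀ d ∈ D, ∀ q ∈ d, ∀ t ≤ H, ∀ c ∈ Ω q, ¬ q ∣ c + t := fun d hd q hq t ht c hc => by
    rw [hΩQ q ((hD1 d hd).1 hq)] at hc
    exact hQt q ((hD1 d hd).1 hq) t ht c hc
  have hhH : ∀ i : Fin k, hh k i ≤ H := by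
    intro i
    unfold hh
    rw [hH]
    exact Nat.mul_le_mul_right _ i.2
  have hPP : ∀ p ∈ PP z R, p.Prime ∧ z < p := by
    intro p hp
    unfold PP at hp
    exact (mem_filter.mp hp).2
  have hz2k : 2 * k ≤ z := by omega
  have hok : ∀ p ∈ PP z R, ∀ i j : Fin k, i ≠ j → ¬ hh k i ≡ hh k j [MOD p] :=
    fun p hp i j hij => hh_ok k z p hz2k (hPP p hp).1 (hPP p hp).2 i j hij
  -- the products
  obtain ⟨W, hWdef⟩ : ∃ W : ℝ, W = ∏ q ∈ Q, (1 - d1 Ω q) := ⟨_, rfl⟩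
  obtain ⟨hW1, hW2⟩ := hwl X z y' (by omega) hz2 hyX2 Q (fun q hq => by
    unfold PP
    rw [mem_filter, mem_range]
    have := hQ' q hq
    exact ⟨by omega, this.1, this.2.1⟩) Ω hΩc
  rw [← hWdef] at hW1 hW2
  rw [← hl] at hW1
  have hW0 : 0 ≤ W := le_trans (by positivity) hW1
  have hg1' : ∀ q ∈ Q, 0 ≤ d1 Ω q ∧ d1 Ω q ≤ 2 * k / q := by
    intro q hq
    unfold d1
    have a1 : ((Ω q).card : ℝ) ≤ k := by exact_mod_cast hΩc q hq
    have a2 : (0 : ℝ) < q := by exact_mod_cast (hQ' q hq).1.pos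
    refine ⟨by positivity, ?_⟩
    rw [div_le_div_iff_of_pos_right a2]
    linarith
  have hg2' : ∀ q ∈ Q, 0 ≤ d2 Ω q ∧ d2 Ω q ≤ 2 * k / q := by
    intro q hq
    unfold d2
    have a1 : ((Ω q).card : ℝ) ≤ k := by exact_mod_cast hΩc q hq
    have a2 : (2 : ℝ) ≤ q := by exact_mod_cast (hQ' q hq).1.two_le
    refine ⟨div_nonneg (Nat.cast_nonneg _) (by linarith), ?_⟩
    rw [div_le_div_iff₀ (by linarith) (by linarith)]
    nlinarith
  obtain ⟨hGp0, hGp2, -⟩ := hD4 (d1 Ω) hg1'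
  obtain ⟨-, -, hGn⟩ := hD4 (d2 Ω) hg2'
  rw [← hWdef] at hGp2
  obtain ⟨Gp, hGp⟩ : ∃ Gp : ℝ, Gp = Gm D cp (d1 Ω) := ⟨_, rfl⟩
  obtain ⟨Gn, hGnd⟩ : ∃ Gn : ℝ, Gn = Gm D cn (d2 Ω) := ⟨_, rfl⟩
  rw [← hGp] at hGp0 hGp2
  rw [← hGnd] at hGn
  have hGn4 : 1 / 4 * W ≤ Gn := by linarith
  have hGn0 : 0 ≤ Gn := by linarith
  -- the weights
  obtain ⟨L, hLdef⟩ : ∃ L : Col (PP z R) (Fin k) → ℝ, L = lam (zz g R) := ⟨_, rfl⟩
  obtain ⟨F2, hF2⟩ : ∃ F2 : ℕ → ℝ, F2 = fun x => (FF (hh k) L x) ^ 2 := ⟨_, rfl⟩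
  have hF20 : ∀ x, 0 ≤ F2 x := fun x => by
    rw [hF2]
    exact sq_nonneg _
  obtain ⟨χ, hχ⟩ : ∃ χ : ℕ → ℝ, χ = fun x => if ∀ q ∈ Q, x % q ∉ Ω q then (1 : ℝ) else 0 := ⟨_, rfl⟩
  have hχ0 : ∀ x, 0 ≤ χ x := fun x => by
    rw [hχ]
    dsimp only
    split_ifs
    · exact zero_le_one
    · exact le_rfl
  have hχp : ∀ x, χ x ≤ Lm D cp Ω x := fun x => by
    rw [hχ]
    exact (hD3 Ω x).1
  have hχn : ∀ x, Lm D cn Ω x ≤ χ x := fun x => by
    rw [hχ]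
    exact (hD3 Ω x).2
  obtain ⟨V, hV⟩ : ∃ V : ℝ, V = V1 (Om2 (hh k) N) z := ⟨_, rfl⟩
  obtain ⟨b, hb⟩ : ∃ b : ℝ, b = BB (PP z R) g := ⟨_, rfl⟩
  obtain ⟨κ, hκ⟩ : ∃ κ : ℝ, κ = kap z * Real.log R := ⟨_, rfl⟩
  rw [← hV, ← hl] at hVl
  rw [← hb] at hBB1
  rw [← hκ] at hκ2
  have hl0 : 0 < l := by linarith
  have hV0 : 0 < V := lt_of_lt_of_le (by positivity) hVl
  obtain ⟨T, hT⟩ : ∃ T : ℝ, T = X * V * b ^ k := ⟨_, rfl⟩
  have hTpos : X * V ≤ T := by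
    rw [hT]
    exact le_mul_of_one_le_right (by positivity) (one_le_pow₀ hBB1)
  have hT0 : 0 ≤ T := le_trans (by positivity) hTpos
  obtain ⟨E, hEdef⟩ : ∃ E : ℝ, E = X / l ^ A := ⟨_, rfl⟩
  have hE0 : 0 ≤ E := by
    rw [hEdef]
    positivity
  obtain ⟨Pr, hPr⟩ : ∃ Pr : Finset ℕ, Pr = Pre (Om2 (hh k) N) z X := ⟨_, rfl⟩
  have hPrΩ : Pre Ω z X = Pr := by
    rw [hΩ, hPr]
    exact Pre_Omz _ _ _ _
  -- first sum
  have hs1 : ∑ x ∈ Pr, χ x * F2 x ≤ 2 * (T * W) + E := by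
    have a1 := hSa X z R R (by omega) (by rw [Fintype.card_fin]; omega)
      (by rw [← hl]; exact hzpow Ca (by omega)) (by rw [← hl]; exact hzB) n2 (by
        refine n2.trans ?_
        exact Real.rpow_le_rpow_of_exponent_le hX1 (by norm_num)) Ω hΩK hΩlt (hh k)
      (fun i => (hhH i).trans n6) D hDz (hDX δa hma)
      (fun d hd q hq i c hc => hDt d hd q hq (hh k i) (hhH i) c hc) cp hcp (by rw [← hGp]; exact hGp0)
      (zz g R) (fun σ => rzz g hg0 hg1 R σ) (fun σ h => rsupp g R σ h) hok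
    have a2 := S1_main (ι := Fin k) (P := PP z R) (fun p hp => (hPP p hp).1.one_lt.le) R g hg0
    rw [Fintype.card_fin, ← hb] at a2
    rw [hPrΩ, ← hGp, ← hLdef, ← hl, ← hEdef] at a1
    have a3 : V1 Ω z = V := by
      rw [hΩ, hV]
      exact V1_Omz _ _ _
    rw [a3] at a1
    have a4 : ∑ x ∈ Pr, χ x * F2 x ≤ ∑ x ∈ Pr, Lm D cp Ω x * (FF (hh k) L x) ^ 2 := by
      refine sum_le_sum fun x _ => ?_
      rw [hF2]
      exact mul_le_mul_of_nonneg_right (hχp x) (sq_nonneg _)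
    refine (a4.trans a1).trans ?_
    have a5 : (X : ℝ) * V * Gp * ∑ ρ : Col (PP z R) (Fin k), zz g R ρ ^ 2 / (tot ρ : ℝ) ≤
        X * V * Gp * b ^ k := mul_le_mul_of_nonneg_left a2 (by positivity)
    have a6 : (X : ℝ) * V * Gp * b ^ k = T * Gp := by
      rw [hT]
      ring
    have a7 : T * Gp ≤ T * (2 * W) := mul_le_mul_of_nonneg_left hGp2 hT0
    linarith
  -- second sums
  have hs2 : ∀ i : Fin k, T * W * ((2 * m + 2) / k) * Real.log (3 * X) - E ≤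
      ∑ x ∈ Pr, BV.th (x + hh k i) * (χ x * F2 x) := by
    intro i
    have a1 := hSb X z R (by omega) (by rw [Fintype.card_fin]; omega)
      (by rw [← hl]; exact hzpow Cb (by omega)) (by rw [← hl]; exact hzB) n2 Ω hΩK hΩlt (hh k)
      (fun i => le_trans (by exact_mod_cast hhH i) n5) i hok D hDz (hDX δb hmb)
      (fun d hd q hq i c hc => hDt d hd q hq (hh k i) (hhH i) c hc) cn hcn (by rw [← hGnd]; exact hGn0)
      (zz g R) (fun σ => rzz g hg0 hg1 R σ) (fun σ h => rsupp g R σ h)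
    obtain ⟨-, a2⟩ := hE i
    obtain ⟨M, hM⟩ : ∃ M : ℝ, M = ∑ ρ : Col (PP z R) (Fin k), (∏ p : {p : ℕ // p ∈ PP z R},
            Dm (q2 i p) (1 - ∑ j, q2 i p j) (ρ p)) *
          (∑ τ : Col (PP z R) (Fin k), (∏ p : {p : ℕ // p ∈ PP z R},
            Amat (fun j => q2 i p j - 1 / ((p : ℕ) : ℝ)) (ρ p) (τ p)) * zz g R τ) ^ 2 := ⟨_, rfl⟩
    obtain ⟨Θ, hΘ⟩ : ∃ Θ : ℝ, Θ = ∑ n ∈ Ioc (X + hh k i) (2 * X + hh k i), BV.th n := ⟨_, rfl⟩
    have a3 : V2 Ω (hh k i) z = V2 (Om2 (hh k) N) (hh k i) z := by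
      rw [hΩ]
      exact V2_Omz _ _ _ _
    obtain ⟨v, hv⟩ : ∃ v : ℝ, v = V2 (Om2 (hh k) N) (hh k i) z := ⟨_, rfl⟩
    rw [a3, ← hM, ← hΘ, ← hv, ← hGnd, hPrΩ, ← hLdef, ← hl, ← hEdef] at a1
    rw [← hM, ← hΘ, ← hv, ← hb, ← hV, ← hT] at a2
    have a4 : ∑ x ∈ Pr, BV.th (x + hh k i) * (Lm D cn Ω x * (FF (hh k) L x) ^ 2) ≤
        ∑ x ∈ Pr, BV.th (x + hh k i) * (χ x * F2 x) := by
      refine sum_le_sum fun x _ => ?_
      rw [hF2]
      exact mul_le_mul_of_nonneg_left (mul_le_mul_of_nonneg_right (hχn x) (sq_nonneg _)) (BV.th_nonneg _)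
    refine le_trans ?_ (a1.trans a4)
    have h3X : 0 < Real.log (3 * X) := by linarith
    have a5 : T * W * ((2 * m + 2) / k) * Real.log (3 * X) =
        1 / 4 * W * (T * ((((8 * m + 7 : ℕ) : ℝ) + 1) / k) * Real.log (3 * X)) := by
      push_cast
      ring
    have a6 : Θ * v * Gn * M = Gn * (Θ * v * M) := by ring
    have hpos : 0 ≤ T * ((((8 * m + 7 : ℕ) : ℝ) + 1) / k) * Real.log (3 * X) := by positivity
    rw [a5, a6]
    have a7 : 1 / 4 * W * (T * ((((8 * m + 7 : ℕ) : ℝ) + 1) / k) * Real.log (3 * X)) ≤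
        Gn * (Θ * v * M) := mul_le_mul hGn4 a2 hpos hGn0
    linarith
  -- primes in the tuple
  have hgood : T * W * (2 * m + 2) - k * E ≤ ∑ x ∈ Pr, (good k x : ℝ) * (χ x * F2 x) := by
    have h3X : 0 < Real.log (3 * X) := by linarith
    have a1 : ∀ x ∈ Pr, ∀ i : Fin k, BV.th (x + hh k i) ≤
        Real.log (3 * X) * (if (x + hh k i).Prime then 1 else 0) := by
      intro x hx i
      rw [hPr] at hx
      unfold Pre at hx
      rw [mem_filter, mem_Ioc] at hx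
      split_ifs with hp
      · rw [mul_one]
        refine (BV.th_le _).trans ?_
        apply Real.log_le_log
        · exact_mod_cast hp.pos
        · have := (hhH i).trans n6
          have h2 : x + hh k i ≤ 3 * X := by omega
          exact_mod_cast h2
      · rw [mul_zero]
        unfold BV.th
        rw [if_neg hp]
    have a2 : ∑ i : Fin k, ∑ x ∈ Pr, BV.th (x + hh k i) * (χ x * F2 x) ≤
        Real.log (3 * X) * ∑ x ∈ Pr, (good k x : ℝ) * (χ x * F2 x) := by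
      rw [sum_comm, mul_sum]
      refine sum_le_sum fun x hx => ?_
      rw [← sum_mul, ← mul_assoc (Real.log (3 * X))]
      apply mul_le_mul_of_nonneg_right _ (mul_nonneg (hχ0 x) (hF20 x))
      have a3 : (good k x : ℝ) = ∑ i : Fin k, (if (x + hh k i).Prime then (1 : ℝ) else 0) := by
        unfold good
        rw [sum_boole]
      rw [a3, mul_sum]
      exact sum_le_sum fun i _ => a1 x hx i
    have a4 : ∑ i : Fin k, (T * W * ((2 * m + 2) / k) * Real.log (3 * X) - E) ≤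
        ∑ i : Fin k, ∑ x ∈ Pr, BV.th (x + hh k i) * (χ x * F2 x) :=
      sum_le_sum fun i _ => hs2 i
    rw [sum_const, card_univ, Fintype.card_fin, nsmul_eq_mul] at a4
    have a5 : (k : ℝ) * (T * W * ((2 * m + 2) / k) * Real.log (3 * X) - E) =
        T * W * (2 * m + 2) * Real.log (3 * X) - k * E := by
      have hk0 : (k : ℝ) ≠ 0 := by linarith
      field_simp
    rw [a5] at a4
    have a6 : T * W * (2 * m + 2) * Real.log (3 * X) - k * E ≤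
        Real.log (3 * X) * ∑ x ∈ Pr, (good k x : ℝ) * (χ x * F2 x) := a4.trans a2
    have a7 : 0 ≤ (k : ℝ) * E := by positivity
    have a8 : Real.log (3 * X) * (T * W * (2 * m + 2) - k * E) ≤
        T * W * (2 * m + 2) * Real.log (3 * X) - k * E := by
      nlinarith
    exact le_of_mul_le_mul_left (a8.trans a6) h3X
  -- other primes
  have hbad : k * ∑ x ∈ Pr, (bad k x : ℝ) * (χ x * F2 x) ≤ T * W + k * H * E := by
    classical
    have a1 : ∑ x ∈ Pr, (bad k x : ℝ) * (χ x * F2 x) =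
        ∑ t ∈ (Icc 1 H).filter (fun t => ∀ i, t ≠ hh k i),
          ∑ x ∈ Pr.filter (fun x => (x + t).Prime), χ x * F2 x := by
      have b1 : ∀ x, (bad k x : ℝ) = ∑ t ∈ (Icc 1 H).filter (fun t => ∀ i, t ≠ hh k i),
          (if (x + t).Prime then (1 : ℝ) else 0) := by
        intro x
        unfold bad
        rw [sum_boole, filter_filter, ← hH]
      rw [sum_congr rfl fun x _ => by rw [b1 x, sum_mul], sum_comm]
      refine sum_congr rfl fun t _ => ?_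
      rw [sum_filter]
      refine sum_congr rfl fun x _ => ?_
      split_ifs
      · rw [one_mul]
      · rw [zero_mul]
    have a2 : ∀ t ∈ (Icc 1 H).filter (fun t => ∀ i, t ≠ hh k i),
        ∑ x ∈ Pr.filter (fun x => (x + t).Prime), χ x * F2 x ≤ T * (2 * W) * (4 / κ) + E := by
      intro t ht
      rw [mem_filter] at ht
      have b1 := hSc X z R N (by omega) (by rw [← hl]; exact hzpow Cc (by omega))
        (by rw [← hH]; exact hz1) (by rw [← hl]; exact hzB) n2 n3 n1 n4 (by rw [← hH]; exact n6)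
        D hDz (hDX δc hmc) (fun d hd q hq t ht c hc => by
          rw [← hH] at ht
          exact hQt q ((hD1 d hd).1 hq) t ht c hc) cp hcp
        (fun x => by
          rw [← hΩ]
          exact (hχ0 x).trans (hχp x)) (by rw [← hΩ, ← hGp]; exact hGp0) g hg0 hg1 hg2 t
        (by rw [← hH]; exact ht.1) ht.2
      rw [← hΩ, ← hV, ← hb, ← hκ, ← hLdef, ← hGp, ← hPr, ← hl, ← hEdef] at b1
      have b2 : ∑ x ∈ Pr.filter (fun x => (x + t).Prime), χ x * F2 x ≤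
          ∑ x ∈ Pr.filter (fun x => (x + t).Prime), Lm D cp Ω x * (FF (hh k) L x) ^ 2 := by
        refine sum_le_sum fun x _ => ?_
        rw [hF2]
        exact mul_le_mul_of_nonneg_right (hχp x) (sq_nonneg _)
      refine (b2.trans b1).trans ?_
      have b3 : (X : ℝ) * V * Gp * (4 * b ^ k / κ) = T * Gp * (4 / κ) := by
        rw [hT]
        ring
      have hκ0 : 0 ≤ 4 / κ := by
        have c1 : 0 ≤ kap z := (kap_pos z).le
        have c2 : 0 ≤ Real.log R := Real.log_natCast_nonneg R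
        rw [hκ]
        positivity
      have b4 : T * Gp * (4 / κ) ≤ T * (2 * W) * (4 / κ) :=
        mul_le_mul_of_nonneg_right (mul_le_mul_of_nonneg_left hGp2 hT0) hκ0
      linarith
    have a3 : ∑ t ∈ (Icc 1 H).filter (fun t => ∀ i, t ≠ hh k i),
        ∑ x ∈ Pr.filter (fun x => (x + t).Prime), χ x * F2 x ≤ H * (T * (2 * W) * (4 / κ) + E) := by
      refine (sum_le_sum a2).trans ?_
      rw [sum_const, nsmul_eq_mul]
      have b2 : (((Icc 1 H).filter (fun t => ∀ i, t ≠ hh k i)).card : ℝ) ≤ H := by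
        have := card_filter_le (Icc 1 H) (fun t => ∀ i, t ≠ hh k i)
        rw [Nat.card_Icc, Nat.add_sub_cancel] at this
        exact_mod_cast this
      have hκ0 : 0 ≤ 4 / κ := by
        have c1 : 0 ≤ kap z := (kap_pos z).le
        have c2 : 0 ≤ Real.log R := Real.log_natCast_nonneg R
        rw [hκ]
        positivity
      refine mul_le_mul_of_nonneg_right b2 (by positivity)
    rw [a1]
    calc (k : ℝ) * ∑ t ∈ (Icc 1 H).filter (fun t => ∀ i, t ≠ hh k i),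
        ∑ x ∈ Pr.filter (fun x => (x + t).Prime), χ x * F2 x
        ≤ k * (H * (T * (2 * W) * (4 / κ) + E)) := by gcongr
      _ = T * (2 * W) * (k * H * (4 / κ)) + k * H * E := by ring
      _ ≤ T * (2 * W) * (1 / 2) + k * H * E := by
          have : 0 ≤ T * (2 * W) := by positivity
          have := mul_le_mul_of_nonneg_left hκ2 this
          linarith
      _ = T * W + k * H * E := by ring
  refine ⟨L, fun σ => ?_, ?_⟩
  · rw [hLdef]
    have := abs_lam_le (zz g R : Col (PP z R) (Fin k) → ℝ) (fun τ => rzz g hg0 hg1 R τ) σ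
    rwa [Fintype.card_fin] at this
  · have e1 : ∑ x ∈ Pr.filter (fun x => ∀ q ∈ Q, x % q ∉ On (hh k) N q),
        ((good k x : ℝ) - (m - 1) - k * bad k x) * (FF (hh k) L x) ^ 2 =
        ∑ x ∈ Pr, (good k x : ℝ) * (χ x * F2 x) -
          (m - 1) * ∑ x ∈ Pr, χ x * F2 x -
          k * ∑ x ∈ Pr, (bad k x : ℝ) * (χ x * F2 x) := by
      rw [mul_sum, mul_sum, ← sum_sub_distrib, ← sum_sub_distrib, sum_filter]
      refine sum_congr rfl fun x _ => ?_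
      have e2 : (∀ q ∈ Q, x % q ∉ On (hh k) N q) ↔ ∀ q ∈ Q, x % q ∉ Ω q :=
        forall₂_congr fun q hq => by rw [hΩQ q hq]
      rw [hF2, hχ]
      dsimp only
      by_cases h : ∀ q ∈ Q, x % q ∉ Ω q
      · rw [if_pos (e2.2 h), if_pos h]
        ring
      · rw [if_neg (fun h' => h (e2.1 h')), if_neg h]
        ring
    rw [← hPr, ← hl, e1]
    have hTW : X / l ^ (C₂ + 1) ≤ T * W := by
      have b1 : X / l ≤ T := by
        refine le_trans ?_ hTpos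
        rw [div_eq_mul_one_div]
        gcongr
      calc (X : ℝ) / l ^ (C₂ + 1) = X / l * (1 / l ^ C₂) := by
            rw [pow_succ]
            field_simp
        _ ≤ T * W := mul_le_mul b1 hW1 (by positivity) hT0
    refine rnumS m k H l (T * W) E (X / l ^ (C₂ + 1)) hmR hlk hE0 _ _ _ (by linarith [hgood])
      hs1 hbad hTW ?_ (by positivity)
    rw [hEdef, hA]
    have b1 : l * (X / l ^ (C₂ + 3)) = X / l ^ (C₂ + 1) / l := by
      rw [show C₂ + 3 = (C₂ + 1) + 2 by ring, pow_add _ (C₂ + 1) 2]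
      field_simp
    rw [b1]
    exact div_le_self (by positivity) hl1

end Pool.Agent.Lib.MTR
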