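import Pool.Agent.Lib.MTR.RsQ
import Pool.Agent.Lib.MT.Lay1

/-!
# MTR-RsN: the quadratic forms in numbers

PROOF. `layA_prod`, `layA_Qf`, `rs_Qf` as in the proofs of `layer1`, `layer2` (Lay1.lean: `hp3`, `hQf'`; Lay2.lean: `hq2`, `hp6`, `hQf'`): `M ≤ (C log X)^k`, `∏ (1 + 3 ∑ q) ≤ (C' log X)^(6k)`,
`3 ∑_i q p i ≤ 6k/p ≤ 6k/z` for `p ∈ d`, the number of `p ∈ P ∩ d` is at most `|d|`; and `const · (log X)^(8k) ≤ (log X)^C` with `C = 8k + 1` for large `X`.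
-/

set_option autoImplicit false

open Finset

namespace Pool.Agent.Lib.MTR

open Pool.Agent.Lib.MT

/-- the products over the primes, for any densities between `0` and `2/p` -/
private theorem rsn_prod {ι : Type} [Fintype ι] {z R : ℕ} (q : {p : ℕ // p ∈ PP z R} → ι → ℝ)
    (hq : ∀ p i, 0 ≤ q p i ∧ q p i ≤ 2 / ((p : ℕ) : ℝ)) :
    (∀ p, 3 * ∑ i, q p i ≤ ((6 * Fintype.card ι : ℕ) : ℝ) / ((p : ℕ) : ℝ)) ∧
    ∏ p : {p : ℕ // p ∈ PP z R}, (1 + 3 * ∑ i : ι, q p i) ≤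
      ∏ p : {p : ℕ // p ∈ PP z R}, (1 + ((6 * Fintype.card ι : ℕ) : ℝ) / ((p : ℕ) : ℝ)) := by
  have h1 : ∀ p, 3 * ∑ i, q p i ≤ ((6 * Fintype.card ι : ℕ) : ℝ) / ((p : ℕ) : ℝ) := by
    intro p
    have h2 : ∑ i, q p i ≤ ∑ _i : ι, 2 / ((p : ℕ) : ℝ) := sum_le_sum fun i _ => (hq p i).2
    rw [sum_const, card_univ, nsmul_eq_mul] at h2
    push_cast
    calc 3 * ∑ i, q p i ≤ 3 * ((Fintype.card ι : ℝ) * (2 / ((p : ℕ) : ℝ))) := by linarith
      _ = 6 * (Fintype.card ι : ℝ) / ((p : ℕ) : ℝ) := by ring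
  refine ⟨h1, prod_le_prod (fun p _ => ?_) fun p _ => ?_⟩
  · have : 0 ≤ ∑ i, q p i := sum_nonneg fun i _ => (hq p i).1
    linarith
  · have := h1 p
    linarith

private theorem rsn_card {P : Finset ℕ} (d : Finset ℕ) :
    (univ.filter (fun p : {p : ℕ // p ∈ P} => (p : ℕ) ∈ d)).card ≤ d.card :=
  card_le_card_of_injOn (fun p => (p : ℕ)) (fun p hp => (mem_filter.1 hp).2)
    (fun p _ p' _ h => Subtype.ext h)

theorem rs_num (ι : Type) [Fintype ι] [DecidableEq ι] : ∃ C X₀ : ℕ, ∀ X z R : ℕ, X₀ ≤ X → R ≤ X → 1 ≤ z →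
    ∀ L : Col (PP z R) ι → ℝ,
    (∀ σ, |L σ| ≤ ∏ p : {p : ℕ // p ∈ PP z R}, (1 + (Fintype.card ι : ℝ) / ((p : ℕ) : ℝ))) →
    |Qf (q1 (ι := ι)) L| ≤ (Real.log X) ^ C ∧ (∀ m, |Qf (q2 m) L| ≤ (Real.log X) ^ C) ∧
    ∀ d : Finset ℕ, |Qf (q1 (ι := ι)) (rs d L) - Qf (q1 (ι := ι)) L| ≤ d.card * (Real.log X) ^ C / z ∧
      ∀ m, |Qf (q2 m) (rs d L) - Qf (q2 m) L| ≤ d.card * (Real.log X) ^ C / z := by
  classical
  set k := Fintype.card ι with hk
  obtain ⟨C, hC, hprod⟩ := layA_prod k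
  obtain ⟨C6, hC6, hprod6⟩ := layA_prod (6 * k)
  obtain ⟨X6, h6⟩ : ∃ X6 : ℕ, ∀ X : ℕ, X6 ≤ X →
      max 1 ((6 * (k : ℝ) + 1) * (C ^ (2 * k) * C6 ^ (6 * k))) ≤ Real.log X :=
    Filter.eventually_atTop.1 ((Real.tendsto_log_atTop.comp tendsto_natCast_atTop_atTop).eventually_ge_atTop _)
  refine ⟨8 * k + 1, X6 + 3, fun X z R hX hRX hz L hL => ?_⟩
  have hX3 : 3 ≤ X := by omega
  have hlog1 : 1 ≤ Real.log X := le_trans (le_max_left _ _) (h6 X (by omega))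
  have hlogC : (6 * (k : ℝ) + 1) * (C ^ (2 * k) * C6 ^ (6 * k)) ≤ Real.log X :=
    le_trans (le_max_right _ _) (h6 X (by omega))
  have hz0 : (0 : ℝ) < z := by exact_mod_cast hz
  obtain ⟨M0, hM0⟩ : ∃ M0 : ℝ, M0 = ∏ p : {p : ℕ // p ∈ PP z R}, (1 + (k : ℝ) / ((p : ℕ) : ℝ)) :=
    ⟨_, rfl⟩
  have hL' : ∀ σ, |L σ| ≤ M0 := by
    rw [hM0]
    exact hL
  have hM00 : 0 ≤ M0 := (abs_nonneg _).trans (hL' fun _ => none)
  have hM0C : M0 ≤ (C * Real.log X) ^ k := by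
    rw [hM0]
    exact hprod X z R hX3 hRX
  have hK0 : 0 ≤ C ^ (2 * k) * C6 ^ (6 * k) := by positivity
  have hnum : ((C * Real.log X) ^ k) ^ 2 * (C6 * Real.log X) ^ (6 * k) =
      C ^ (2 * k) * C6 ^ (6 * k) * Real.log X ^ (8 * k) := by
    have e1 : 8 * k = 2 * k + 6 * k := by ring
    rw [e1, pow_add, ← pow_mul, mul_pow, mul_pow, mul_comm k 2]
    ring
  have hmain : ∀ q : {p : ℕ // p ∈ PP z R} → ι → ℝ, (∀ p i, 0 ≤ q p i ∧ q p i ≤ 2 / ((p : ℕ) : ℝ)) →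
      |Qf q L| ≤ (Real.log X) ^ (8 * k + 1) ∧ ∀ d : Finset ℕ,
        |Qf q (rs d L) - Qf q L| ≤ d.card * (Real.log X) ^ (8 * k + 1) / z := by
    intro q hq
    obtain ⟨hp1, hp2⟩ := rsn_prod q hq
    have hp3 := hp2.trans (hprod6 X z R hX3 hRX)
    have hpr0 : 0 ≤ ∏ p : {p : ℕ // p ∈ PP z R}, (1 + 3 * ∑ i : ι, q p i) :=
      prod_nonneg fun p _ => by
        have : 0 ≤ ∑ i, q p i := sum_nonneg fun i _ => (hq p i).1
        linarith
    have hmul : M0 ^ 2 * ∏ p : {p : ℕ // p ∈ PP z R}, (1 + 3 * ∑ i : ι, q p i) ≤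
        C ^ (2 * k) * C6 ^ (6 * k) * Real.log X ^ (8 * k) := by
      rw [← hnum]
      exact mul_le_mul (pow_le_pow_left₀ hM00 hM0C 2) hp3 hpr0 (by positivity)
    have hpw : 0 ≤ Real.log X ^ (8 * k) := by positivity
    refine ⟨?_, fun d => ?_⟩
    · refine (layA_Qf q (fun p i => (hq p i).1) L M0 hL').trans (hmul.trans ?_)
      rw [pow_succ, mul_comm (Real.log X ^ (8 * k)) _]
      refine mul_le_mul_of_nonneg_right (le_trans ?_ hlogC) hpw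
      have h7 : (0 : ℝ) ≤ 6 * (k : ℝ) := by positivity
      nlinarith
    · have h8 : ∑ p ∈ univ.filter (fun p : {p : ℕ // p ∈ PP z R} => (p : ℕ) ∈ d), 3 * ∑ i, q p i ≤
          (d.card : ℝ) * (6 * k / z) := by
        have h9 : ∀ p ∈ univ.filter (fun p : {p : ℕ // p ∈ PP z R} => (p : ℕ) ∈ d),
            3 * ∑ i, q p i ≤ 6 * k / z := by
          intro p _
          refine (hp1 p).trans ?_
          push_cast
          have h10 : (z : ℝ) ≤ ((p : ℕ) : ℝ) := by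
            have := lay_gt (p : ℕ) p.2
            exact_mod_cast this.le
          exact div_le_div_of_nonneg_left (by positivity) hz0 h10
        refine (sum_le_card_nsmul _ _ _ h9).trans ?_
        rw [nsmul_eq_mul]
        refine mul_le_mul_of_nonneg_right ?_ (by positivity)
        exact_mod_cast rsn_card d
      have h11 : 0 ≤ ∑ p ∈ univ.filter (fun p : {p : ℕ // p ∈ PP z R} => (p : ℕ) ∈ d),
          3 * ∑ i, q p i := sum_nonneg fun p _ => by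
        have : 0 ≤ ∑ i, q p i := sum_nonneg fun i _ => (hq p i).1
        linarith
      refine (rs_Qf q (fun p i => (hq p i).1) L M0 hL' d).trans ?_
      have e2 : ∀ a b c : ℝ, a * b * c = b * (a * c) := fun a b c => by ring
      rw [e2]
      calc (∑ p ∈ univ.filter (fun p : {p : ℕ // p ∈ PP z R} => (p : ℕ) ∈ d), 3 * ∑ i, q p i) *
            (M0 ^ 2 * ∏ p : {p : ℕ // p ∈ PP z R}, (1 + 3 * ∑ i : ι, q p i))
          ≤ ((d.card : ℝ) * (6 * k / z)) * (C ^ (2 * k) * C6 ^ (6 * k) * Real.log X ^ (8 * k)) :=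
            mul_le_mul h8 hmul (by positivity) (by positivity)
        _ = (d.card : ℝ) * ((6 * k * (C ^ (2 * k) * C6 ^ (6 * k))) * Real.log X ^ (8 * k)) / z := by
            ring
        _ ≤ (d.card : ℝ) * (Real.log X) ^ (8 * k + 1) / z := by
            refine div_le_div_of_nonneg_right (mul_le_mul_of_nonneg_left ?_ (by positivity)) hz0.le
            rw [pow_succ, mul_comm (Real.log X ^ (8 * k)) _]
            refine mul_le_mul_of_nonneg_right (le_trans ?_ hlogC) hpw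
            nlinarith
  have hq1 : ∀ (p : {p : ℕ // p ∈ PP z R}) (i : ι), 0 ≤ q1 p i ∧ q1 p i ≤ 2 / ((p : ℕ) : ℝ) := by
    intro p i
    have hp0 : (0 : ℝ) < ((p : ℕ) : ℝ) := by exact_mod_cast (lay_prime (p : ℕ) p.2).pos
    unfold q1
    exact ⟨by positivity, div_le_div_of_nonneg_right (by norm_num) hp0.le⟩
  have hq2 : ∀ (m : ι) (p : {p : ℕ // p ∈ PP z R}) (i : ι), 0 ≤ q2 m p i ∧
      q2 m p i ≤ 2 / ((p : ℕ) : ℝ) := by
    intro m p i
    have hp2 : (2 : ℝ) ≤ ((p : ℕ) : ℝ) := by exact_mod_cast (lay_prime (p : ℕ) p.2).two_le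
    have h12 : (0 : ℝ) < ((p : ℕ) : ℝ) - 1 := by linarith
    unfold q2
    split_ifs
    · exact ⟨le_rfl, by positivity⟩
    · refine ⟨by positivity, ?_⟩
      rw [div_le_div_iff₀ h12 (by linarith)]
      linarith
  obtain ⟨a1, a2⟩ := hmain q1 hq1
  exact ⟨a1, fun m => (hmain (q2 m) (hq2 m)).1, fun d => ⟨a2 d, fun m => (hmain (q2 m) (hq2 m)).2 d⟩⟩

end Pool.Agent.Lib.MTR
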