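import Pool.Agent.Lib.MTR.Defs
import Pool.Agent.Lib.MT.LayA

/-!
# MTR-RsQ: restriction of `L` to the colourings avoiding `d` hardly changes the quadratic form

PROOF of `rs_Qf`. `Qf q L - Qf q (rs d L)` is the sum over the pairs `(σ, τ)` with `¬ (Av d σ ∧ Av d τ)`; such a pair has some `p ∈ d` with `(σ p, τ p) ≠ (none, none)`. So the absolute value is at
most `M^2 ∑_{p ∈ P ∩ d} ∑_{σ, τ, (σ p, τ p) ≠ (none, none)} ∏_{p'} Kmat (q p') (σ p') (τ p')`, and the inner sum is the product over `p'` of `∑_{a, b} Kmat (q p') a b = 1 + 3 ∑_i q p' i`,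
for `p' = p` without the term `a = b = none`: `3 ∑_i q p i ≤ (3 ∑_i q p i)(1 + 3 ∑ i q p i)` (see the proof of `layA_Qf`: sums over colourings of products; `Tens.lean`, `Finset.prod_univ_sum`, `Fintype.piFinset`).
-/

set_option autoImplicit false

open Finset

namespace Pool.Agent.Lib.MTR

open Pool.Agent.Lib.MT

variable {P : Finset ℕ} {ι : Type} [Fintype ι] [DecidableEq ι]

omit [Fintype ι] [DecidableEq ι] in
theorem rs_abs (d : Finset ℕ) (L : Col P ι → ℝ) (σ : Col P ι) : |rs d L σ| ≤ |L σ| := by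
  unfold rs
  split_ifs
  · exact le_rfl
  · rw [abs_zero]
    exact abs_nonneg _

omit [Fintype ι] [DecidableEq ι] in
theorem rs_ne (d : Finset ℕ) (L : Col P ι → ℝ) (σ : Col P ι) (h : rs d L σ ≠ 0) : L σ ≠ 0 ∧ Av d σ := by
  unfold rs at h
  split_ifs at h with h1
  · exact ⟨h, h1⟩
  · exact absurd rfl h

omit [DecidableEq ι] in
private theorem rsq_prod_sum (f : {p : ℕ // p ∈ P} → Option ι → ℝ) :
    ∑ σ : Col P ι, ∏ p : {p : ℕ // p ∈ P}, f p (σ p) =
      ∏ p : {p : ℕ // p ∈ P}, ∑ s : Option ι, f p s := by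
  rw [Finset.prod_univ_sum, Fintype.piFinset_univ]

omit [Fintype ι] in
private theorem rsq_K_nonneg (q : ι → ℝ) (hq : ∀ i, 0 ≤ q i) (a b : Option ι) :
    0 ≤ Kmat q a b := by
  cases a with
  | none =>
    cases b with
    | none => exact zero_le_one
    | some j => exact hq j
  | some i =>
    cases b with
    | none => exact hq i
    | some j =>
      show (0 : ℝ) ≤ if i = j then q i else 0
      split_ifs
      · exact hq i
      · exact le_rfl

private theorem rsq_K_sum (q : ι → ℝ) :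
    ∑ s : Option ι, ∑ t : Option ι, Kmat q s t = 1 + 3 * ∑ i, q i := by
  rw [Fintype.sum_option, Fintype.sum_option]
  have h1 : ∀ i : ι, ∑ t : Option ι, Kmat q (some i) t = 2 * q i := by
    intro i
    rw [Fintype.sum_option]
    simp only [Kmat]
    rw [Finset.sum_ite_eq univ i (fun _ => q i), if_pos (mem_univ i)]
    ring
  simp only [h1]
  rw [← mul_sum]
  simp only [Kmat]
  ring

/-- `Kmat` without the entry `none none` -/
private def K0 (q : ι → ℝ) (a b : Option ι) : ℝ := if a = none ∧ b = none then 0 else Kmat q a b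

private theorem K0_sum (q : ι → ℝ) :
    ∑ s : Option ι, ∑ t : Option ι, K0 q s t = 3 * ∑ i, q i := by
  have h := rsq_K_sum q
  rw [Fintype.sum_option, Fintype.sum_option] at h ⊢
  have h1 : ∀ i : ι, ∑ t : Option ι, K0 q (some i) t = ∑ t : Option ι, Kmat q (some i) t := by
    intro i
    refine sum_congr rfl fun t _ => ?_
    unfold K0
    rw [if_neg]
    rintro ⟨h1, -⟩
    exact Option.some_ne_none i h1
  have h2 : ∀ i : ι, K0 q none (some i) = Kmat q none (some i) := by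
    intro i
    unfold K0
    rw [if_neg]
    rintro ⟨-, h1⟩
    exact Option.some_ne_none i h1
  have h3 : K0 q none none = 0 := by
    unfold K0
    rw [if_pos ⟨rfl, rfl⟩]
  have h4 : Kmat q none none = 1 := rfl
  simp only [h1, h2, h3]
  rw [h4] at h
  linarith

/-- the matrix of the pairs which are coloured at `p₀` -/
private def K1 (q : {p : ℕ // p ∈ P} → ι → ℝ) (p₀ p : {p : ℕ // p ∈ P}) (a b : Option ι) : ℝ :=
  if p = p₀ then K0 (q p) a b else Kmat (q p) a b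

private theorem K1_sum (q : {p : ℕ // p ∈ P} → ι → ℝ) (p₀ : {p : ℕ // p ∈ P}) :
    ∑ σ : Col P ι, ∑ τ : Col P ι, ∏ p : {p : ℕ // p ∈ P}, K1 q p₀ p (σ p) (τ p) =
      (3 * ∑ i, q p₀ i) * ∏ p ∈ univ.erase p₀, (1 + 3 * ∑ i, q p i) := by
  have h2 : ∀ σ : Col P ι, ∑ τ : Col P ι, ∏ p : {p : ℕ // p ∈ P}, K1 q p₀ p (σ p) (τ p) =
      ∏ p : {p : ℕ // p ∈ P}, ∑ t : Option ι, K1 q p₀ p (σ p) t := fun σ =>
    rsq_prod_sum (fun p t => K1 q p₀ p (σ p) t)
  simp only [h2]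
  rw [rsq_prod_sum (fun p s => ∑ t : Option ι, K1 q p₀ p s t), ← mul_prod_erase univ _ (mem_univ p₀)]
  congr 1
  · rw [← K0_sum (q p₀)]
    refine sum_congr rfl fun s _ => sum_congr rfl fun t _ => ?_
    unfold K1
    rw [if_pos rfl]
  · refine prod_congr rfl fun p hp => ?_
    rw [← rsq_K_sum (q p)]
    refine sum_congr rfl fun s _ => sum_congr rfl fun t _ => ?_
    unfold K1
    rw [if_neg (ne_of_mem_erase hp)]

theorem rs_Qf (q : {p : ℕ // p ∈ P} → ι → ℝ) (hq : ∀ p i, 0 ≤ q p i) (L : Col P ι → ℝ) (M : ℝ)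
    (hL : ∀ σ, |L σ| ≤ M) (d : Finset ℕ) :
    |Qf q (rs d L) - Qf q L| ≤
      M ^ 2 * (∑ p ∈ univ.filter (fun p : {p : ℕ // p ∈ P} => (p : ℕ) ∈ d), 3 * ∑ i, q p i) *
        ∏ p : {p : ℕ // p ∈ P}, (1 + 3 * ∑ i, q p i) := by
  classical
  have hM0 : 0 ≤ M := (abs_nonneg _).trans (hL fun _ => none)
  have hS0 : ∀ p, 0 ≤ ∑ i, q p i := fun p => sum_nonneg fun i _ => hq p i
  have hK1 : ∀ (p₀ : {p : ℕ // p ∈ P}) (σ τ : Col P ι),
      0 ≤ ∏ p : {p : ℕ // p ∈ P}, K1 q p₀ p (σ p) (τ p) := by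
    intro p₀ σ τ
    refine prod_nonneg fun p _ => ?_
    unfold K1 K0
    split_ifs
    · exact le_rfl
    · exact rsq_K_nonneg _ (hq p) _ _
    · exact rsq_K_nonneg _ (hq p) _ _
  have hpt : ∀ σ τ : Col P ι, |(∏ p : {p : ℕ // p ∈ P}, Kmat (q p) (σ p) (τ p)) *
      (rs d L σ * rs d L τ) - (∏ p : {p : ℕ // p ∈ P}, Kmat (q p) (σ p) (τ p)) * (L σ * L τ)| ≤
      M ^ 2 * ∑ p₀ ∈ univ.filter (fun p : {p : ℕ // p ∈ P} => (p : ℕ) ∈ d),
        ∏ p : {p : ℕ // p ∈ P}, K1 q p₀ p (σ p) (τ p) := by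
    intro σ τ
    have hR0 : 0 ≤ ∑ p₀ ∈ univ.filter (fun p : {p : ℕ // p ∈ P} => (p : ℕ) ∈ d),
        ∏ p : {p : ℕ // p ∈ P}, K1 q p₀ p (σ p) (τ p) := sum_nonneg fun p₀ _ => hK1 p₀ σ τ
    by_cases hav : Av d σ ∧ Av d τ
    · have e1 : rs d L σ = L σ := by
        unfold rs
        rw [if_pos hav.1]
      have e2 : rs d L τ = L τ := by
        unfold rs
        rw [if_pos hav.2]
      rw [e1, e2, sub_self, abs_zero]
      positivity
    · have e1 : rs d L σ * rs d L τ = 0 := by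
        unfold rs
        by_cases h1 : Av d σ
        · rw [if_neg fun h2 => hav ⟨h1, h2⟩, mul_zero]
        · rw [if_neg h1, zero_mul]
      have h3 : 0 ≤ ∏ p : {p : ℕ // p ∈ P}, Kmat (q p) (σ p) (τ p) :=
        prod_nonneg fun p _ => rsq_K_nonneg (q p) (hq p) _ _
      rw [e1, mul_zero, zero_sub, abs_neg, abs_mul, abs_of_nonneg h3, abs_mul, mul_comm]
      obtain ⟨p₀, hp₀, hne⟩ : ∃ p₀ : {p : ℕ // p ∈ P}, (p₀ : ℕ) ∈ d ∧
          ¬ (σ p₀ = none ∧ τ p₀ = none) := by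
        by_contra hcon
        push Not at hcon
        apply hav
        constructor
        · intro p hp
          by_contra h5
          exact absurd (hcon p hp) (by simp_all)
        · intro p hp
          by_contra h5
          exact absurd (hcon p hp) (by simp_all)
      refine mul_le_mul ?_ ?_ h3 (by positivity)
      · rw [sq]
        exact mul_le_mul (hL σ) (hL τ) (abs_nonneg _) hM0
      · have e3 : ∏ p : {p : ℕ // p ∈ P}, Kmat (q p) (σ p) (τ p) =
            ∏ p : {p : ℕ // p ∈ P}, K1 q p₀ p (σ p) (τ p) := by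
          refine prod_congr rfl fun p _ => ?_
          unfold K1
          split_ifs with h6
          · unfold K0
            rw [h6, if_neg hne]
          · rfl
        rw [e3]
        exact single_le_sum (f := fun p₀ => ∏ p : {p : ℕ // p ∈ P}, K1 q p₀ p (σ p) (τ p))
          (fun p₀ _ => hK1 p₀ σ τ) (mem_filter.2 ⟨mem_univ _, hp₀⟩)
  have hsum : |Qf q (rs d L) - Qf q L| ≤
      ∑ σ : Col P ι, ∑ τ : Col P ι, M ^ 2 *
        ∑ p₀ ∈ univ.filter (fun p : {p : ℕ // p ∈ P} => (p : ℕ) ∈ d),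
        ∏ p : {p : ℕ // p ∈ P}, K1 q p₀ p (σ p) (τ p) := by
    unfold Qf
    rw [← sum_sub_distrib]
    refine (abs_sum_le_sum_abs _ _).trans (sum_le_sum fun σ _ => ?_)
    rw [← sum_sub_distrib]
    exact (abs_sum_le_sum_abs _ _).trans (sum_le_sum fun τ _ => hpt σ τ)
  refine hsum.trans ?_
  have hsw : ∑ σ : Col P ι, ∑ τ : Col P ι, M ^ 2 *
        ∑ p₀ ∈ univ.filter (fun p : {p : ℕ // p ∈ P} => (p : ℕ) ∈ d),
        ∏ p : {p : ℕ // p ∈ P}, K1 q p₀ p (σ p) (τ p) =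
      M ^ 2 * ∑ p₀ ∈ univ.filter (fun p : {p : ℕ // p ∈ P} => (p : ℕ) ∈ d),
        (3 * ∑ i, q p₀ i) * ∏ p ∈ univ.erase p₀, (1 + 3 * ∑ i, q p i) := by
    simp only [← K1_sum q]
    simp only [← mul_sum]
    congr 1
    have h7 : ∀ σ : Col P ι, ∑ τ : Col P ι,
        ∑ p₀ ∈ univ.filter (fun p : {p : ℕ // p ∈ P} => (p : ℕ) ∈ d),
          ∏ p : {p : ℕ // p ∈ P}, K1 q p₀ p (σ p) (τ p) =
        ∑ p₀ ∈ univ.filter (fun p : {p : ℕ // p ∈ P} => (p : ℕ) ∈ d), ∑ τ : Col P ι,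
          ∏ p : {p : ℕ // p ∈ P}, K1 q p₀ p (σ p) (τ p) := fun σ => sum_comm
    simp only [h7]
    exact sum_comm
  rw [hsw, mul_assoc, sum_mul]
  refine mul_le_mul_of_nonneg_left (sum_le_sum fun p₀ _ => ?_) (by positivity)
  refine mul_le_mul_of_nonneg_left ?_ (mul_nonneg (by norm_num) (hS0 p₀))
  refine prod_le_prod_of_subset_of_one_le (subset_univ _) (fun p _ => ?_) (fun p _ _ => ?_)
  · have := hS0 p
    positivity
  · have := hS0 p
    linarith

end Pool.Agent.Lib.MTR
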