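import Pool.Agent.Lib.MTR.L1S
import Pool.Agent.Lib.MT.S1up

/-!
# MTR-S1s: upper bound for the sum of the sifted weights

PROOF. As `S1_upper` (MT/S1up.lean) with `layer1s`; `0 ≤ X V1 Gm`.
-/

set_option autoImplicit false

open Finset

namespace Pool.Agent.Lib.MTR

open Pool.Agent.Lib.MT

private theorem s1s_mem_PP {w R p : ℕ} (h : p ∈ PP w R) : p.Prime ∧ w < p := by
  unfold PP at h
  exact (mem_filter.mp h).2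

private theorem s1s_dm_prod {P : Finset ℕ} {ι : Type} [Fintype ι] [DecidableEq ι] (ρ : Col P ι) :
    ∏ p : {p : ℕ // p ∈ P}, Dm (q1 p) 1 (ρ p) = 1 / (tot ρ : ℝ) := by
  unfold tot
  push_cast
  rw [one_div, ← prod_inv_distrib]
  refine prod_congr rfl fun p _ => ?_
  cases h : ρ p with
  | none => simp [Dm]
  | some i => simp [Dm, q1]

theorem S1s (ι : Type) [Fintype ι] [DecidableEq ι] (K A : ℕ) : ∃ C₁ : ℕ, ∀ B : ℕ, ∃ δ : ℝ, 0 < δ ∧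
    ∃ X₀ : ℕ, ∀ X z R Q : ℕ, X₀ ≤ X → Fintype.card ι ≤ z → (Real.log X) ^ C₁ ≤ z → (z : ℝ) ≤ (Real.log X) ^ B →
    (R : ℝ) ≤ (X : ℝ) ^ (1 / 5 : ℝ) → (Q : ℝ) ≤ (X : ℝ) ^ (2 / 5 : ℝ) →
    ∀ Ω : ℕ → Finset ℕ, (∀ p, (Ω p).card ≤ K) → (∀ p, p.Prime → ∀ c ∈ Ω p, c < p) →
    ∀ h : ι → ℕ, (∀ i, h i ≤ X) →
    ∀ D : Finset (Finset ℕ), (∀ d ∈ D, ∀ q ∈ d, q.Prime ∧ z < q) →
    (∀ d ∈ D, ((∏ q ∈ d, q : ℕ) : ℝ) ≤ (X : ℝ) ^ δ) →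
    (∀ d ∈ D, ∀ q ∈ d, ∀ i, ∀ c ∈ Ω q, ¬ q ∣ c + h i) →
    ∀ c : Finset ℕ → ℝ, (∀ d ∈ D, |c d| ≤ (Real.log X) ^ 2) → 0 ≤ Gm D c (d1 Ω) →
    ∀ u : Col (PP z R) ι → ℝ, (∀ σ, |u σ| ≤ 1) → (∀ σ, u σ ≠ 0 → tot σ ≤ Q) →
    (∀ p ∈ PP z R, ∀ i j, i ≠ j → ¬ h i ≡ h j [MOD p]) →
    ∑ x ∈ Pre Ω z X, Lm D c Ω x * (FF h (lam u) x) ^ 2 ≤
      X * V1 Ω z * Gm D c (d1 Ω) * ∑ ρ : Col (PP z R) ι, u ρ ^ 2 / (tot ρ : ℝ) +
        X / (Real.log X) ^ A := by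
  obtain ⟨C₁, hlay⟩ := layer1s ι K A
  refine ⟨C₁, fun B => ?_⟩
  obtain ⟨δ, hδ, X₀, hlay⟩ := hlay B
  refine ⟨δ, hδ, X₀, ?_⟩
  intro X z R Q hX hι hCz hz hR hQ Ω hK hΩ h hh D hD hDδ hDc c hc hG u hu htot hij
  have h1 := hlay X z R Q hX hCz hz hR hQ Ω hK hΩ h hh D hD hDδ hDc c hc (lam u)
    (fun σ => abs_lam_le u hu σ)
    (fun σ hσ => by
      obtain ⟨τ, h2, h3⟩ := lam_ext u σ hσ
      exact (tot_le_of_ext (fun p hp => (s1s_mem_PP hp).1.one_lt.le) σ τ h3).trans (htot τ h2))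
    (fun σ τ _ _ p i j _ _ hne => hij p p.2 i j hne)
  have h4 := Qf_le (P := PP z R) (ι := ι) q1 (fun p i => by unfold q1; positivity)
    (fun p => by
      unfold q1
      rw [sum_const, card_univ, nsmul_eq_mul, mul_one_div]
      have h5 := (s1s_mem_PP p.2).2
      have h6 : (0 : ℝ) < ((p : ℕ) : ℝ) := by
        exact_mod_cast (s1s_mem_PP p.2).1.pos
      rw [div_le_one h6]
      exact_mod_cast (by omega : Fintype.card ι ≤ (p : ℕ))) (lam u)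
  have h7 : ∑ ρ : Col (PP z R) ι, (∏ p : {p : ℕ // p ∈ PP z R}, Dm (q1 p) 1 (ρ p)) *
      (∑ σ : Col (PP z R) ι, (∏ p : {p : ℕ // p ∈ PP z R}, Amat (q1 p) (ρ p) (σ p)) *
        lam u σ) ^ 2 = ∑ ρ : Col (PP z R) ι, u ρ ^ 2 / (tot ρ : ℝ) := by
    refine sum_congr rfl fun ρ _ => ?_
    rw [sum_lam_q1, s1s_dm_prod]
    ring
  rw [h7] at h4
  have h8 : 0 ≤ V1 Ω z := by
    unfold V1
    refine prod_nonneg fun p hp => ?_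
    have h9 : (Ω p).card ≤ p := by
      have h10 : Ω p ⊆ range p := fun c hc => mem_range.mpr (hΩ p (s1s_mem_PP hp).1 c hc)
      calc (Ω p).card ≤ (range p).card := card_le_card h10
        _ = p := card_range p
    have h11 : (0 : ℝ) < (p : ℝ) := by exact_mod_cast (s1s_mem_PP hp).1.pos
    have h12 : ((Ω p).card : ℝ) / p ≤ 1 := by
      rw [div_le_one h11]
      exact_mod_cast h9
    linarith
  have h13 : (X : ℝ) * V1 Ω z * Gm D c (d1 Ω) * Qf (q1 (ι := ι)) (lam u) ≤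
      X * V1 Ω z * Gm D c (d1 Ω) * ∑ ρ : Col (PP z R) ι, u ρ ^ 2 / (tot ρ : ℝ) :=
    mul_le_mul_of_nonneg_left h4 (mul_nonneg (mul_nonneg (Nat.cast_nonneg X) h8) hG)
  have h14 := (abs_le.mp h1).2
  linarith

end Pool.Agent.Lib.MTR
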