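import Pool.Agent.Lib.MTR.RatS
import Pool.Agent.Lib.MT.Strings

/-!
# MTR-StrS: many sifted `x` with `m` primes in the tuple and no other primes in the interval

PROOF. As `strings` (MT/Strings.lean) with `ratioS`: `C = C₁' + 4 C₂' + 2 C₀ + 2` or so (Cauchy-Schwarz and `FF_moment`, `prod_col_le`).
-/

set_option autoImplicit false

open Finset

namespace Pool.Agent.Lib.MTR

open Pool.Agent.Lib.MT

private lemma StrS_good_le (k x : ℕ) : good k x ≤ k := by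
  rw [good]
  calc (univ.filter (fun i : Fin k => (x + hh k i).Prime)).card ≤ (univ : Finset (Fin k)).card :=
        card_filter_le _ _
    _ = k := by simp

theorem stringsS (m : ℕ) (hm : 1 ≤ m) : ∃ k : ℕ, 1 ≤ k ∧ ∃ C C₁ : ℕ, ∀ B : ℕ, ∃ δ : ℝ, 0 < δ ∧ ∃ X₀ : ℕ,
    ∀ X z y N : ℕ, X₀ ≤ X → (Real.log X) ^ C₁ ≤ z → (z : ℝ) ≤ (Real.log X) ^ B →
    (y : ℝ) ≤ (X : ℝ) ^ δ → Even N →
    ∀ Q ⊆ PP z y, (∀ q ∈ Q, ∀ t ≤ k * primorial (2 * k), ∀ c ∈ On (hh k) N q, ¬ q ∣ c + t) →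
    X / (Real.log X) ^ C ≤
      (((Pre (Om2 (hh k) N) z X).filter (fun x => (∀ q ∈ Q, x % q ∉ On (hh k) N q) ∧
        m ≤ good k x ∧ bad k x = 0)).card : ℝ) := by
  obtain ⟨k, hk, C₀, Cr, hratio⟩ := ratioS m hm
  haveI : Nonempty (Fin k) := ⟨⟨0, hk⟩⟩
  obtain ⟨C₁, X₁, hC₁⟩ := FF_moment (Fin k)
  obtain ⟨C₂, X₂, hC₂⟩ := prod_col_le k
  refine ⟨k, hk, C₁ + 4 * C₂ + 2 * (C₀ + 1), Cr, fun B => ?_⟩
  obtain ⟨δ, hδ, X₃, hr⟩ := hratio B
  refine ⟨δ, hδ, X₁ + X₂ + X₃ + k * primorial (2 * k) + ⌈Real.exp (k + 1)⌉₊,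
    fun X z y N hX hz hzB hy hN Q hQ hQN => ?_⟩
  obtain ⟨L, hL, hLs⟩ := hr X z y N (by omega) hz hzB hy hN Q hQ hQN
  have hXe : Real.exp (k + 1) ≤ X := by
    calc Real.exp (k + 1) ≤ (⌈Real.exp (k + 1)⌉₊ : ℝ) := Nat.le_ceil _
      _ ≤ X := by exact_mod_cast (by omega : ⌈Real.exp ((k : ℝ) + 1)⌉₊ ≤ X)
  have hX0 : (0 : ℝ) < X := lt_of_lt_of_le (Real.exp_pos _) hXe
  have hX1 : 1 ≤ X := by exact_mod_cast hX0
  have hlog : (k : ℝ) + 1 ≤ Real.log X := by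
    rw [← Real.log_exp ((k : ℝ) + 1)]
    exact Real.log_le_log (Real.exp_pos _) hXe
  have hk1 : (1 : ℝ) ≤ k := by exact_mod_cast hk
  set l := Real.log X with hl
  have hl0 : 0 < l := by linarith
  have hRX : ⌊(X : ℝ) ^ (1 / 5 : ℝ)⌋₊ ≤ X := by
    refine Nat.floor_le_of_le ?_
    calc (X : ℝ) ^ (1 / 5 : ℝ) ≤ (X : ℝ) ^ (1 : ℝ) :=
          Real.rpow_le_rpow_of_exponent_le (by exact_mod_cast hX1) (by norm_num)
      _ = X := Real.rpow_one _
  have hM := hC₂ X (by omega) z _ hRX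
  have hP : ∀ p ∈ PP z ⌊(X : ℝ) ^ (1 / 5 : ℝ)⌋₊, p.Prime := by
    intro p hp
    rw [PP, mem_filter] at hp
    exact hp.2.1
  have hh1 : ∀ i, hh k i ≤ X := by
    intro i
    have h1 : hh k i ≤ k * primorial (2 * k) := by
      rw [hh]
      exact Nat.mul_le_mul_right _ i.2
    omega
  have hmom := hC₁ X (by omega) _ hP (hh k) hh1 (l ^ C₂) L (by positivity)
    (fun σ => (hL σ).trans hM)
  set S := (Pre (Om2 (hh k) N) z X).filter (fun x => (∀ q ∈ Q, x % q ∉ On (hh k) N q) ∧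
        m ≤ good k x ∧ bad k x = 0) with hS
  have hSP : S = ((Pre (Om2 (hh k) N) z X).filter (fun x => ∀ q ∈ Q, x % q ∉ On (hh k) N q)).filter
      (fun x => m ≤ good k x ∧ bad k x = 0) := by
    rw [hS, filter_filter]
  -- the sum is at most k times the sum over S
  have h1 : ∑ x ∈ (Pre (Om2 (hh k) N) z X).filter (fun x => ∀ q ∈ Q, x % q ∉ On (hh k) N q),
      ((good k x : ℝ) - (m - 1) - k * bad k x) * (FF (hh k) L x) ^ 2 ≤
      k * ∑ x ∈ S, (FF (hh k) L x) ^ 2 := by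
    rw [Finset.mul_sum, hSP, Finset.sum_filter (fun x => m ≤ good k x ∧ bad k x = 0)]
    refine Finset.sum_le_sum fun x _ => ?_
    have hg : (good k x : ℝ) ≤ k := by exact_mod_cast StrS_good_le k x
    have hm1 : (1 : ℝ) ≤ m := by exact_mod_cast hm
    have hb0 : (0 : ℝ) ≤ bad k x := by positivity
    split_ifs with h
    · refine mul_le_mul_of_nonneg_right ?_ (sq_nonneg _)
      have : 0 ≤ (k : ℝ) * bad k x := by positivity
      linarith
    · refine mul_nonpos_of_nonpos_of_nonneg ?_ (sq_nonneg _)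
      rw [not_and_or] at h
      rcases h with h | h
      · have h2 : (good k x : ℝ) + 1 ≤ m := by
          push Not at h
          exact_mod_cast h
        have : 0 ≤ (k : ℝ) * bad k x := by positivity
        linarith
      · have h2 : (1 : ℝ) ≤ bad k x := by
          exact_mod_cast Nat.one_le_iff_ne_zero.2 h
        have : (k : ℝ) * 1 ≤ k * bad k x := mul_le_mul_of_nonneg_left h2 (by linarith)
        linarith
  have h2 : (∑ x ∈ S, (FF (hh k) L x) ^ 2) ^ 2 ≤ S.card * ∑ x ∈ S, (FF (hh k) L x) ^ 4 := by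
    have h3 := sq_sum_le_card_mul_sum_sq (s := S) (f := fun x => (FF (hh k) L x) ^ 2)
    refine h3.trans (le_of_eq ?_)
    congr 1
    refine Finset.sum_congr rfl fun x _ => ?_
    rw [← pow_mul]
  have h4 : ∑ x ∈ S, (FF (hh k) L x) ^ 4 ≤ (l ^ C₂) ^ 4 * X * l ^ C₁ := by
    refine le_trans ?_ hmom
    refine Finset.sum_le_sum_of_subset_of_nonneg ?_ (fun x _ _ => by positivity)
    exact (filter_subset _ _).trans (filter_subset _ _)
  have h5 : X / l ^ C₀ / k ≤ ∑ x ∈ S, (FF (hh k) L x) ^ 2 := by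
    rw [div_le_iff₀ (by linarith), mul_comm]
    exact hLs.trans h1
  have h6 : (X / l ^ C₀ / k) ^ 2 ≤ S.card * ((l ^ C₂) ^ 4 * X * l ^ C₁) := by
    calc (X / l ^ C₀ / k) ^ 2 ≤ (∑ x ∈ S, (FF (hh k) L x) ^ 2) ^ 2 :=
          pow_le_pow_left₀ (by positivity) h5 2
      _ ≤ S.card * ∑ x ∈ S, (FF (hh k) L x) ^ 4 := h2
      _ ≤ _ := mul_le_mul_of_nonneg_left h4 (by positivity)
  have h7 : (X / l ^ (C₀ + 1)) ^ 2 ≤ (X / l ^ C₀ / k) ^ 2 := by
    refine pow_le_pow_left₀ (by positivity) ?_ 2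
    rw [div_div]
    refine div_le_div_of_nonneg_left hX0.le (by positivity) ?_
    rw [pow_succ]
    exact mul_le_mul_of_nonneg_left (by linarith) (by positivity)
  have h8 := h7.trans h6
  rw [div_le_iff₀ (by positivity)]
  have h9 : (X / l ^ (C₀ + 1)) ^ 2 = X * X / l ^ (2 * (C₀ + 1)) := by
    rw [div_pow, ← pow_mul, sq, mul_comm (C₀ + 1) 2]
  rw [h9, div_le_iff₀ (by positivity)] at h8
  have h10 : (S.card : ℝ) * ((l ^ C₂) ^ 4 * X * l ^ C₁) * l ^ (2 * (C₀ + 1)) =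
      X * (S.card * l ^ (C₁ + 4 * C₂ + 2 * (C₀ + 1))) := by
    rw [pow_add l (C₁ + 4 * C₂), pow_add l C₁, ← pow_mul, mul_comm C₂ 4]
    ring
  rw [h10] at h8
  exact le_of_mul_le_mul_left h8 hX0

end Pool.Agent.Lib.MTR
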